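import Pool.Agent.Helper82.CLK.CutDisc

/-!
# Cut-off functions of the pieces (module CL-K13)
-/

set_option maxSynthPendingDepth 3

namespace Pool.Agent.Helper82.CLK

open MeasureTheory Filter Topology Set Metric Pool.Agent.Helper53.CL Pool.Agent.Helper53.CL.K Pool.Agent.Helper53.CL.H
open Pool.Agent.Helper53.CL.C
open scoped ContDiff Real ENNReal NNReal

variable {S : Type*} [TopologicalSpace S] [T2Space S] [MeasurableSpace S] [BorelSpace S]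

/-- The piece `P = Dp C i ∩ (open tile)`. -/
def piece (C : CSurf S) (i : Fin C.n) (z : ℂ) (l : ℝ) : Set S := Dp C i ∩ otile C i z l

omit [T2Space S] [BorelSpace S] in
private theorem cut_mono {C : CSurf S} {K K' δ : ℝ} (hδ : 0 < δ) (hK : K ≤ K') {χ : S → ℝ}
    (h : CutFam C K δ χ) : CutFam C K' δ χ :=
  ⟨h.c1, h.nonneg, h.le_one, fun x => (h.bound x).trans (by gcongr)⟩

/-- `χ = ξ * ∏_{j < i} η j` with `exists_inner`, `exists_outer`, `CutFam.prod`, `CutFam.mul`.  In the piece, if `χ x ≠ 1` then some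
factor is not `1` there. -/
theorem exists_cut (C : CSurf S) (i : Fin C.n) (z : ℂ) {l : ℝ} (hl : 0 < l) :
    ∃ K : ℝ, 0 ≤ K ∧ ∀ δ ∈ Ioo (0 : ℝ) 1, ∃ χ : S → ℝ, CutFam C K δ χ ∧ (∀ x, χ x ≠ 0 → x ∈ piece C i z l) ∧
      C.area {x | x ∈ piece C i z l ∧ χ x ≠ 1} ≤ ENNReal.ofReal (K * δ) := by
  classical
  obtain ⟨K₀, h₀⟩ := exists_inner C i z hl
  choose K₁ h₁ using fun j => exists_outer C j
  set T : Finset (Fin C.n) := Finset.univ.filter (fun j => j < i) with hT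
  have hT' : ∀ j, j ∈ T ↔ j < i := fun j => by simp [hT]
  refine ⟨|K₀| + ∑ j ∈ T, |K₁ j|, by positivity, fun δ hδ => ?_⟩
  have hδ0 : 0 < δ := hδ.1
  obtain ⟨ξ, hξ1, hξ2, hξ3⟩ := h₀ δ hδ
  choose η hη1 hη2 hη3 using fun j => h₁ j δ hδ
  refine ⟨fun x => ξ x * ∏ j ∈ T, η j x, ?_, ?_, ?_⟩
  · refine (cut_mono hδ0 (le_abs_self K₀) hξ1).mul hδ0 ?_
    exact CutFam.prod T hδ0 fun j _ => cut_mono hδ0 (le_abs_self (K₁ j)) (hη1 j)
  · intro x hx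
    have hx1 : ξ x ≠ 0 := left_ne_zero_of_mul hx
    have hx2 : ∏ j ∈ T, η j x ≠ 0 := right_ne_zero_of_mul hx
    obtain ⟨h1, h2, h3⟩ := hξ2 x hx1
    refine ⟨⟨⟨h1, h2⟩, fun j hj hcon => ?_⟩, ⟨h1, h3⟩⟩
    exact (Finset.prod_ne_zero_iff.1 hx2 j ((hT' j).2 hj)) (hη2 j x hcon.1 hcon.2)
  · have hsub : {x | x ∈ piece C i z l ∧ ξ x * ∏ j ∈ T, η j x ≠ 1} ⊆
        {x | x ∈ (C.φ i).source ∧ C.φ i x ∈ ball (0 : ℂ) 1 ∧ C.φ i x ∈ osq z l ∧ ξ x ≠ 1} ∪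
        ⋃ j ∈ T, {x | ¬ (x ∈ (C.φ j).source ∧ C.φ j x ∈ closedBall (0 : ℂ) 1) ∧ η j x ≠ 1} := by
      rintro x ⟨⟨⟨⟨h1, h2⟩, h3⟩, ⟨_, h4⟩⟩, h5⟩
      by_cases h6 : ξ x = 1
      · right
        by_contra hcon
        apply h5
        rw [h6, one_mul]
        refine Finset.prod_eq_one fun j hj => ?_
        by_contra h7
        refine hcon ?_
        simp only [mem_iUnion]
        exact ⟨j, hj, h3 j ((hT' j).1 hj), h7⟩
      · left
        exact ⟨h1, h2, h4, h6⟩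
    calc C.area {x | x ∈ piece C i z l ∧ ξ x * ∏ j ∈ T, η j x ≠ 1}
        ≤ C.area ({x | x ∈ (C.φ i).source ∧ C.φ i x ∈ ball (0 : ℂ) 1 ∧ C.φ i x ∈ osq z l ∧ ξ x ≠ 1} ∪
        ⋃ j ∈ T, {x | ¬ (x ∈ (C.φ j).source ∧ C.φ j x ∈ closedBall (0 : ℂ) 1) ∧ η j x ≠ 1}) :=
          measure_mono hsub
      _ ≤ C.area {x | x ∈ (C.φ i).source ∧ C.φ i x ∈ ball (0 : ℂ) 1 ∧ C.φ i x ∈ osq z l ∧ ξ x ≠ 1} +
        ∑ j ∈ T, C.area {x | ¬ (x ∈ (C.φ j).source ∧ C.φ j x ∈ closedBall (0 : ℂ) 1) ∧ η j x ≠ 1} :=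
          (measure_union_le _ _).trans (add_le_add_right (measure_biUnion_finset_le T _) _)
      _ ≤ ENNReal.ofReal (|K₀| * δ) + ∑ j ∈ T, ENNReal.ofReal (|K₁ j| * δ) := by
          refine add_le_add (hξ3.trans ?_) (Finset.sum_le_sum fun j _ => (hη3 j).trans ?_)
          · exact ENNReal.ofReal_le_ofReal (mul_le_mul_of_nonneg_right (le_abs_self _) hδ0.le)
          · exact ENNReal.ofReal_le_ofReal (mul_le_mul_of_nonneg_right (le_abs_self _) hδ0.le)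
      _ = ENNReal.ofReal ((|K₀| + ∑ j ∈ T, |K₁ j|) * δ) := by
          rw [add_mul, Finset.sum_mul, ENNReal.ofReal_add (by positivity) (by positivity),
            ENNReal.ofReal_sum_of_nonneg fun j _ => by positivity]

end Pool.Agent.Helper82.CLK
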