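import Pool.Agent.Helper82.CLK.CutFam

/-!
# Cut-off functions of discs and squares (module CL-K13b)
-/

set_option maxSynthPendingDepth 3

namespace Pool.Agent.Helper82.CLK

open MeasureTheory Filter Topology Set Metric Pool.Agent.Helper53.CL Pool.Agent.Helper53.CL.K Pool.Agent.Helper53.CL.H
open Pool.Agent.Helper53.CL.C
open scoped ContDiff Real ENNReal NNReal

variable {S : Type*} [TopologicalSpace S] [T2Space S] [MeasurableSpace S] [BorelSpace S]

/-- Functions in the plane with values in `[0,1]` and derivative at most `L` on the disc of radius `2`. -/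
private structure PF (L : ℝ) (f : ℂ → ℝ) : Prop where
  c1 : ContDiff ℝ 1 f
  nonneg : ∀ y, 0 ≤ f y
  le_one : ∀ y, f y ≤ 1
  bd : ∀ y ∈ closedBall (0 : ℂ) 2, ‖fderiv ℝ f y‖ ≤ L

private theorem PF.mul {L L' : ℝ} {f f' : ℂ → ℝ} (h : PF L f) (h' : PF L' f') : PF (L + L') fun y => f y * f' y where
  c1 := h.c1.mul h'.c1
  nonneg y := mul_nonneg (h.nonneg y) (h'.nonneg y)
  le_one y := mul_le_one₀ (h.le_one y) (h'.nonneg y) (h'.le_one y)
  bd y hy := by
    have h1 := (h.c1.differentiable one_ne_zero) y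
    have h2 := (h'.c1.differentiable one_ne_zero) y
    rw [fderiv_fun_mul h1 h2]
    refine (norm_add_le _ _).trans ?_
    rw [norm_smul, norm_smul, Real.norm_of_nonneg (h.nonneg y), Real.norm_of_nonneg (h'.nonneg y)]
    have h3 := h.bd y hy
    have h4 := h'.bd y hy
    have h5 : f y * ‖fderiv ℝ f' y‖ ≤ 1 * L' := mul_le_mul (h.le_one y) h4 (norm_nonneg _) zero_le_one
    have h6 : f' y * ‖fderiv ℝ f y‖ ≤ 1 * L := mul_le_mul (h'.le_one y) h3 (norm_nonneg _) zero_le_one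
    linarith

private theorem PF.comp {h : ℝ → ℝ} {K : ℝ} (hc : ContDiff ℝ ∞ h) (h01 : ∀ s, 0 ≤ h s ∧ h s ≤ 1) (hd : ∀ s, |deriv h s| ≤ K)
    {g : ℂ → ℝ} (hg : ContDiff ℝ 1 g) {G : ℝ} (hG : ∀ y ∈ closedBall (0 : ℂ) 2, ‖fderiv ℝ g y‖ ≤ G) {δ : ℝ} (hδ : 0 < δ) :
    PF (K * G / δ) fun y => h (g y / δ) where
  c1 := (hc.of_le (by exact_mod_cast le_top)).comp (hg.div_const δ)
  nonneg y := (h01 _).1
  le_one y := (h01 _).2
  bd y hy := by
    have h1 : HasFDerivAt (fun y => g y / δ) (δ⁻¹ • fderiv ℝ g y) y := by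
      have := ((hg.differentiable one_ne_zero) y).hasFDerivAt.const_smul δ⁻¹
      refine this.congr_of_eventuallyEq (Eventually.of_forall fun x => ?_)
      simp [div_eq_inv_mul]
    have h2 : HasDerivAt h (deriv h (g y / δ)) (g y / δ) :=
      ((hc.differentiable (by simp)) _).hasDerivAt
    have h3 := h2.comp_hasFDerivAt y h1
    have h4 : fderiv ℝ (fun y => h (g y / δ)) y = deriv h (g y / δ) • δ⁻¹ • fderiv ℝ g y := h3.fderiv
    rw [h4, norm_smul, norm_smul, Real.norm_eq_abs, Real.norm_of_nonneg (inv_nonneg.2 hδ.le)]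
    have h5 := hd (g y / δ)
    have h6 := hG y hy
    have h7 : 0 ≤ K := (abs_nonneg _).trans h5
    calc |deriv h (g y / δ)| * (δ⁻¹ * ‖fderiv ℝ g y‖) ≤ K * (δ⁻¹ * G) :=
          mul_le_mul h5 (mul_le_mul_of_nonneg_left h6 (inv_nonneg.2 hδ.le)) (by positivity) h7
      _ = K * G / δ := by field_simp

private theorem norm_gr_le (f : ℂ → ℝ) (y : ℂ) : ‖gr f y‖ ≤ 2 * ‖fderiv ℝ f y‖ := by
  have h1 : |(gr f y).re| ≤ ‖fderiv ℝ f y‖ := by
    have := (fderiv ℝ f y).le_opNorm 1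
    rwa [norm_one, mul_one, Real.norm_eq_abs] at this
  have h2 : |(gr f y).im| ≤ ‖fderiv ℝ f y‖ := by
    have := (fderiv ℝ f y).le_opNorm Complex.I
    rwa [Complex.norm_I, mul_one, Real.norm_eq_abs] at this
  have h3 := Complex.norm_le_abs_re_add_abs_im (gr f y)
  linarith

private theorem CutFam.mono {C : CSurf S} {K K' δ : ℝ} (hδ : 0 < δ) (hK : K ≤ K') {χ : S → ℝ} (h : CutFam C K δ χ) :
    CutFam C K' δ χ where
  c1 := h.c1
  nonneg := h.nonneg
  le_one := h.le_one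
  bound x := (h.bound x).trans (div_le_div_of_nonneg_right hK hδ.le)

private theorem exists_rho (C : CSurf S) (i : Fin C.n) : ∃ r R : ℝ, 0 < r ∧ 0 < R ∧ ∀ y ∈ closedBall (0 : ℂ) 2,
    r ≤ C.ρ i y ∧ C.ρ i y ≤ R := by
  have hc : ContinuousOn (C.ρ i) (closedBall 0 2) :=
    (C.ρ_smooth i).continuousOn.mono (closedBall_subset_ball (by norm_num))
  obtain ⟨x, hx, hxm⟩ := (isCompact_closedBall (0 : ℂ) 2).exists_isMinOn ⟨0, by simp⟩ hc
  obtain ⟨x', hx', hxm'⟩ := (isCompact_closedBall (0 : ℂ) 2).exists_isMaxOn ⟨0, by simp⟩ hc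
  have hb : closedBall (0 : ℂ) 2 ⊆ ball 0 3 := closedBall_subset_ball (by norm_num)
  exact ⟨C.ρ i x, C.ρ i x', C.ρ_pos i x (hb hx), C.ρ_pos i x' (hb hx'), fun y hy => ⟨hxm hy, hxm' hy⟩⟩

/-- Extension of a plane function. -/
private theorem ext_cut (C : CSurf S) (i : Fin C.n) {r : ℝ} (hr : 0 < r) (hρ : ∀ y ∈ closedBall (0 : ℂ) 2, r ≤ C.ρ i y)
    {L δ : ℝ} (hδ : 0 < δ) (hL : 0 ≤ L) {f : ℂ → ℝ} (hf : PF (L / δ) f) {c : ℝ} (hc0 : 0 ≤ c) (hc1 : c ≤ 1)
    (hc : ∀ y : ℂ, y ∉ closedBall (0 : ℂ) 2 → f y = c) {F : S → ℝ}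
    (hF : ∀ x ∈ (C.φ i).source, F x = f (C.φ i x)) (hF' : ∀ x, x ∉ (C.φ i).source → F x = c) :
    CutFam C (2 * L / √r) δ F := by
  obtain ⟨h1, h2, h3⟩ := isC1_ext C i hf.c1.contDiffOn (fun y _ hy => hc y hy) hF hF'
  refine ⟨h1, fun x => ?_, fun x => ?_, fun x => ?_⟩
  · by_cases hx : x ∈ (C.φ i).source
    · rw [hF x hx]; exact hf.nonneg _
    · rw [hF' x hx]; exact hc0
  · by_cases hx : x ∈ (C.φ i).source
    · rw [hF x hx]; exact hf.le_one _
    · rw [hF' x hx]; exact hc1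
  · by_cases hx : x ∈ (C.φ i).source
    · have hsr : 0 < √r := Real.sqrt_pos.2 hr
      have hnn : 0 ≤ 2 * L / √r / δ := by positivity
      refine abs_le_of_sq_le_sq' ?_ hnn |>.2
      rw [h2 x hx]
      by_cases hy : C.φ i x ∈ closedBall (0 : ℂ) 2
      · have h4 : ‖gr f (C.φ i x)‖ ≤ 2 * (L / δ) :=
          (norm_gr_le _ _).trans (mul_le_mul_of_nonneg_left (hf.bd _ hy) (by norm_num))
        have h5 : ‖gr f (C.φ i x)‖ ^ 2 ≤ (2 * (L / δ)) ^ 2 := pow_le_pow_left₀ (norm_nonneg _) h4 2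
        calc ‖gr f (C.φ i x)‖ ^ 2 / C.ρ i (C.φ i x) ≤ (2 * (L / δ)) ^ 2 / r :=
              div_le_div₀ (by positivity) h5 hr (hρ _ hy)
          _ = (2 * L / √r / δ) ^ 2 := by
              rw [div_pow, div_pow, Real.sq_sqrt hr.le, mul_pow, div_pow]
              field_simp
      · have h4 : fderiv ℝ f (C.φ i x) = 0 := by
          have : f =ᶠ[𝓝 (C.φ i x)] fun _ => c := by
            filter_upwards [isClosed_closedBall.isOpen_compl.mem_nhds hy] with y hy
            exact hc y hy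
          rw [this.fderiv_eq]; simp
        have h5 : ‖gr f (C.φ i x)‖ = 0 := by
          have := norm_gr_le f (C.φ i x)
          rw [h4, norm_zero, mul_zero] at this
          exact le_antisymm this (norm_nonneg _)
        rw [h5]
        simp only [ne_eq, OfNat.ofNat_ne_zero, not_false_eq_true, zero_pow, zero_div]
        positivity
    · rw [h3 x hx, norm_zero]
      positivity

/-- The area of a subset of a chart. -/
private theorem area_le (C : CSurf S) (i : Fin C.n) {R : ℝ} (hρ : ∀ y ∈ closedBall (0 : ℂ) 2, C.ρ i y ≤ R) {B : Set ℂ}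
    (hB : MeasurableSet B) (hB2 : B ⊆ closedBall 0 2) {s : Set S} (hs : ∀ x ∈ s, x ∈ (C.φ i).source ∧ C.φ i x ∈ B) :
    C.area s ≤ ENNReal.ofReal R * volume B := by
  have hsm : MeasurableSet (C.φ i).source := (C.φ i).open_source.measurableSet
  have hae : AEMeasurable (C.φ i) (C.area.restrict (C.φ i).source) :=
    (C.φ i).continuousOn.aemeasurable hsm
  have h1 : C.area s ≤ C.area.restrict (C.φ i).source ((C.φ i) ⁻¹' B) := by
    rw [Measure.restrict_apply' hsm]
    exact measure_mono fun x hx => ⟨(hs x hx).2, (hs x hx).1⟩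
  refine h1.trans ?_
  rw [← Measure.map_apply_of_aemeasurable hae hB, area_map, withDensity_apply _ hB]
  calc ∫⁻ z in B, ENNReal.ofReal (C.ρ i z) ∂(volume.restrict (ball 0 3))
      ≤ ∫⁻ _z in B, ENNReal.ofReal R ∂(volume.restrict (ball 0 3)) :=
        setLIntegral_mono' hB fun z hz => ENNReal.ofReal_le_ofReal (hρ z (hB2 hz))
    _ = ENNReal.ofReal R * (volume.restrict (ball 0 3)) B := by rw [setLIntegral_const]
    _ ≤ ENNReal.ofReal R * volume B := by gcongr; exact Measure.restrict_le_self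

private theorem measurableSet_ann (s t : ℝ) : MeasurableSet {y : ℂ | s < ‖y‖ ^ 2 ∧ ‖y‖ ^ 2 < t} := by
  have h : Measurable fun y : ℂ => ‖y‖ ^ 2 := by fun_prop
  exact (measurableSet_lt measurable_const h).inter (measurableSet_lt h measurable_const)

private theorem volume_ann {s t : ℝ} (hs : 0 ≤ s) (hst : s ≤ t) :
    volume {y : ℂ | s < ‖y‖ ^ 2 ∧ ‖y‖ ^ 2 < t} ≤ ENNReal.ofReal ((t - s) * π) := by
  have ht : 0 ≤ t := hs.trans hst
  rcases hst.eq_or_lt with h0 | h0
  · have : {y : ℂ | s < ‖y‖ ^ 2 ∧ ‖y‖ ^ 2 < t} = ∅ := by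
      ext y
      simp only [mem_ofPred_eq, mem_empty_iff_false, iff_false, not_and, not_lt]
      intro h; rw [← h0]; exact h.le
    rw [this, measure_empty]
    exact bot_le
  have h1 : {y : ℂ | s < ‖y‖ ^ 2 ∧ ‖y‖ ^ 2 < t} ⊆ ball 0 √t \ closedBall 0 √s := by
    rintro y ⟨h1, h2⟩
    constructor
    · rw [mem_ball, dist_zero_right]
      exact Real.lt_sqrt_of_sq_lt h2
    · rw [mem_closedBall, dist_zero_right, not_le]
      exact (Real.sqrt_lt' (lt_of_le_of_ne (norm_nonneg _) (by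
        intro h; rw [← h] at h1; simp at h1; linarith))).2 h1
  refine (measure_mono h1).trans ?_
  have h2 : closedBall (0 : ℂ) √s ⊆ ball 0 √t := closedBall_subset_ball (Real.sqrt_lt_sqrt hs h0)
  have h3 : volume (closedBall (0 : ℂ) √s) ≠ ⊤ := (isCompact_closedBall _ _).measure_lt_top.ne
  rw [measure_sdiff h2 isClosed_closedBall.measurableSet.nullMeasurableSet h3, Complex.volume_ball,
    Complex.volume_closedBall, ← ENNReal.ofReal_pow (Real.sqrt_nonneg _), ← ENNReal.ofReal_pow (Real.sqrt_nonneg _),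
    Real.sq_sqrt ht, Real.sq_sqrt hs, ENNReal.ofReal_mul (by linarith), ENNReal.ofReal_sub _ hs,
    ENNReal.sub_mul (by intro _ _; exact ENNReal.coe_ne_top)]
  have h4 : ENNReal.ofReal π = (NNReal.pi : ℝ≥0∞) := by
    rw [← NNReal.coe_real_pi, ENNReal.ofReal_coe_nnreal]
  rw [h4]

private theorem volume_strip_re (c : ℝ) {δ : ℝ} (hδ : 0 ≤ δ) :
    volume {y : ℂ | ‖y‖ < 1 ∧ c < y.re ∧ y.re < c + δ} ≤ ENNReal.ofReal (2 * δ) := by
  have h : {y : ℂ | ‖y‖ < 1 ∧ c < y.re ∧ y.re < c + δ} ⊆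
      Complex.measurableEquivRealProd ⁻¹' (Ioo c (c + δ) ×ˢ Ioo (-1) 1) := by
    rintro y ⟨h1, h2, h3⟩
    simp only [mem_preimage, mem_prod, mem_Ioo, Complex.measurableEquivRealProd_apply]
    exact ⟨⟨h2, h3⟩, abs_lt.1 ((Complex.abs_im_le_norm y).trans_lt h1)⟩
  refine (measure_mono h).trans ?_
  rw [Complex.volume_preserving_equiv_real_prod.measure_preimage
    ((measurableSet_Ioo.prod measurableSet_Ioo).nullMeasurableSet), Measure.volume_eq_prod, Measure.prod_prod,
    Real.volume_Ioo, Real.volume_Ioo, ← ENNReal.ofReal_mul (by linarith)]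
  apply ENNReal.ofReal_le_ofReal; linarith

private theorem volume_strip_im (c : ℝ) {δ : ℝ} (hδ : 0 ≤ δ) :
    volume {y : ℂ | ‖y‖ < 1 ∧ c < y.im ∧ y.im < c + δ} ≤ ENNReal.ofReal (2 * δ) := by
  have h : {y : ℂ | ‖y‖ < 1 ∧ c < y.im ∧ y.im < c + δ} ⊆
      Complex.measurableEquivRealProd ⁻¹' (Ioo (-1) 1 ×ˢ Ioo c (c + δ)) := by
    rintro y ⟨h1, h2, h3⟩
    simp only [mem_preimage, mem_prod, mem_Ioo, Complex.measurableEquivRealProd_apply]
    exact ⟨abs_lt.1 ((Complex.abs_re_le_norm y).trans_lt h1), ⟨h2, h3⟩⟩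
  refine (measure_mono h).trans ?_
  rw [Complex.volume_preserving_equiv_real_prod.measure_preimage
    ((measurableSet_Ioo.prod measurableSet_Ioo).nullMeasurableSet), Measure.volume_eq_prod, Measure.prod_prod,
    Real.volume_Ioo, Real.volume_Ioo, ← ENNReal.ofReal_mul (by norm_num)]
  apply ENNReal.ofReal_le_ofReal; linarith

private theorem measurableSet_strip_re (c δ : ℝ) : MeasurableSet {y : ℂ | ‖y‖ < 1 ∧ c < y.re ∧ y.re < c + δ} :=
  (measurableSet_lt measurable_norm measurable_const).inter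
    ((measurableSet_lt measurable_const Complex.measurable_re).inter
      (measurableSet_lt Complex.measurable_re measurable_const))

private theorem measurableSet_strip_im (c δ : ℝ) : MeasurableSet {y : ℂ | ‖y‖ < 1 ∧ c < y.im ∧ y.im < c + δ} :=
  (measurableSet_lt measurable_norm measurable_const).inter
    ((measurableSet_lt measurable_const Complex.measurable_im).inter
      (measurableSet_lt Complex.measurable_im measurable_const))

private theorem fderiv_nsq (y : ℂ) (hy : y ∈ closedBall (0 : ℂ) 2) :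
    ‖fderiv ℝ (fun y : ℂ => ‖y‖ ^ 2 - 1) y‖ ≤ 4 ∧ ‖fderiv ℝ (fun y : ℂ => 1 - ‖y‖ ^ 2) y‖ ≤ 4 := by
  have h0 : HasFDerivAt (fun y : ℂ => ‖y‖ ^ 2) (2 • (innerSL ℝ) y) y := (hasStrictFDerivAt_norm_sq y).hasFDerivAt
  have h1 : ‖(2 • (innerSL ℝ) y : ℂ →L[ℝ] ℝ)‖ ≤ 4 := by
    have h2 : ‖y‖ ≤ 2 := by simpa using hy
    refine (norm_nsmul_le).trans ?_
    rw [innerSL_apply_norm]
    push_cast; linarith
  constructor
  · rw [(h0.sub_const 1).fderiv]; exact h1
  · rw [(h0.const_sub 1).fderiv, norm_neg]; exact h1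

private theorem contDiff_nsq : ContDiff ℝ 1 (fun y : ℂ => ‖y‖ ^ 2) := contDiff_norm_sq ℝ

private theorem fderiv_re (y : ℂ) (c : ℝ) :
    ‖fderiv ℝ (fun y : ℂ => y.re - c) y‖ ≤ 1 ∧ ‖fderiv ℝ (fun y : ℂ => c - y.re) y‖ ≤ 1 := by
  have h0 : HasFDerivAt (fun y : ℂ => y.re) Complex.reCLM y := Complex.reCLM.hasFDerivAt
  constructor
  · rw [(h0.sub_const c).fderiv]; exact Complex.reCLM_norm.le
  · rw [(h0.const_sub c).fderiv, norm_neg]; exact Complex.reCLM_norm.le

private theorem fderiv_im (y : ℂ) (c : ℝ) :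
    ‖fderiv ℝ (fun y : ℂ => y.im - c) y‖ ≤ 1 ∧ ‖fderiv ℝ (fun y : ℂ => c - y.im) y‖ ≤ 1 := by
  have h0 : HasFDerivAt (fun y : ℂ => y.im) Complex.imCLM y := Complex.imCLM.hasFDerivAt
  constructor
  · rw [(h0.sub_const c).fderiv]; exact Complex.imCLM_norm.le
  · rw [(h0.const_sub c).fderiv, norm_neg]; exact Complex.imCLM_norm.le

private theorem contDiff_re' : ContDiff ℝ 1 (fun y : ℂ => y.re) := Complex.reCLM.contDiff

private theorem contDiff_im' : ContDiff ℝ 1 (fun y : ℂ => y.im) := Complex.imCLM.contDiff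

/-- `η x = h ((‖φ j x‖^2 - 1) / δ)` on the source of `φ j`, `1` off it, `h` from `exists_profile` (`isC1_ext`; for `δ < 1` the function is
`1` where `‖φ j x‖^2 ≥ 2`).  `‖gr‖ ≤ K' 2 ‖φ‖ / δ` on `closedBall 0 2`, `ρ` bounded below there.  If `η x ≠ 1` and `x` is not in the
closed unit disc then `1 < ‖φ j x‖^2 < 1 + δ`, a set of area `≤ sup ρ * π δ` (annulus). -/
theorem exists_outer (C : CSurf S) (j : Fin C.n) : ∃ K : ℝ, ∀ δ ∈ Ioo (0 : ℝ) 1, ∃ η : S → ℝ, CutFam C K δ η ∧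
    (∀ x, x ∈ (C.φ j).source → C.φ j x ∈ closedBall (0 : ℂ) 1 → η x = 0) ∧
    C.area {x | ¬ (x ∈ (C.φ j).source ∧ C.φ j x ∈ closedBall (0 : ℂ) 1) ∧ η x ≠ 1} ≤ ENNReal.ofReal (K * δ) := by
  classical
  obtain ⟨r, R, hr, hR, hρ⟩ := exists_rho C j
  obtain ⟨h, K₁, hc, h0, h1, h01, hd⟩ := exists_profile
  have hK₁ : 0 ≤ K₁ := (abs_nonneg _).trans (hd 0)
  refine ⟨max (2 * (K₁ * 4) / √r) (R * π), fun δ hδ => ?_⟩
  have hδ0 : 0 < δ := hδ.1
  have hδ1 : δ < 1 := hδ.2
  have hf : PF (K₁ * 4 / δ) fun y : ℂ => h ((‖y‖ ^ 2 - 1) / δ) :=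
    PF.comp hc h01 hd (contDiff_nsq.sub contDiff_const) (fun y hy => (fderiv_nsq y hy).1) hδ0
  refine ⟨fun x => if x ∈ (C.φ j).source then h ((‖C.φ j x‖ ^ 2 - 1) / δ) else 1, ?_, ?_, ?_⟩
  · refine (ext_cut C j hr (fun y hy => (hρ y hy).1) hδ0 (by positivity) hf zero_le_one le_rfl ?_
      (fun x hx => if_pos hx) (fun x hx => if_neg hx)).mono hδ0 (le_max_left _ _)
    intro y hy
    rw [mem_closedBall, dist_zero_right, not_le] at hy
    apply h1
    rw [le_div_iff₀ hδ0]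
    nlinarith
  · intro x hx hx1
    dsimp only
    rw [if_pos hx]
    rw [mem_closedBall, dist_zero_right] at hx1
    apply h0
    refine div_nonpos_of_nonpos_of_nonneg ?_ hδ0.le
    nlinarith [norm_nonneg (C.φ j x)]
  · refine (area_le C j (fun y hy => (hρ y hy).2) (measurableSet_ann 1 (1 + δ)) ?_ ?_).trans ?_
    · rintro y ⟨_, hy⟩
      rw [mem_closedBall, dist_zero_right]
      nlinarith [norm_nonneg y]
    · rintro x ⟨hx1, hx2⟩
      dsimp only at hx2
      by_cases hx : x ∈ (C.φ j).source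
      · rw [if_pos hx] at hx2
        refine ⟨hx, ?_, ?_⟩
        · have : ¬ C.φ j x ∈ closedBall (0 : ℂ) 1 := fun h => hx1 ⟨hx, h⟩
          rw [mem_closedBall, dist_zero_right, not_le] at this
          nlinarith
        · by_contra hcon
          apply hx2
          apply h1
          rw [le_div_iff₀ hδ0]
          linarith [not_lt.1 hcon]
      · rw [if_neg hx] at hx2
        exact absurd rfl hx2
    · refine (mul_le_mul_right (volume_ann (by norm_num) (by linarith)) _).trans ?_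
      rw [← ENNReal.ofReal_mul hR.le]
      apply ENNReal.ofReal_le_ofReal
      have : R * π * δ ≤ max (2 * (K₁ * 4) / √r) (R * π) * δ := mul_le_mul_of_nonneg_right (le_max_right _ _) hδ0.le
      linarith


/-- `ξ x = h ((1 - ‖y‖^2)/δ) h ((y.re - z.re)/δ) h ((z.re + l - y.re)/δ) h ((y.im - z.im)/δ) h ((z.im + l - y.im)/δ)`, `y = φ i x`, on
the source, `0` off it.  If `ξ x ≠ 1` in the open set then one of the five factors is not `1`: `1 - δ < ‖y‖^2 < 1` (annulus of area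
`π δ`) or `y` in one of four strips of width `δ` in `ball 0 1` (area `≤ 2 δ` each). -/
theorem exists_inner (C : CSurf S) (i : Fin C.n) (z : ℂ) {l : ℝ} (hl : 0 < l) :
    ∃ K : ℝ, ∀ δ ∈ Ioo (0 : ℝ) 1, ∃ ξ : S → ℝ, CutFam C K δ ξ ∧
    (∀ x, ξ x ≠ 0 → x ∈ (C.φ i).source ∧ C.φ i x ∈ ball (0 : ℂ) 1 ∧ C.φ i x ∈ osq z l) ∧
    C.area {x | x ∈ (C.φ i).source ∧ C.φ i x ∈ ball (0 : ℂ) 1 ∧ C.φ i x ∈ osq z l ∧ ξ x ≠ 1} ≤
      ENNReal.ofReal (K * δ) := by
  classical
  obtain ⟨r, R, hr, hR, hρ⟩ := exists_rho C i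
  obtain ⟨h, K₁, hc, h0, h1, h01, hd⟩ := exists_profile
  have hK₁ : 0 ≤ K₁ := (abs_nonneg _).trans (hd 0)
  refine ⟨max (2 * (K₁ * 8) / √r) (R * (π + 8)), fun δ hδ => ?_⟩
  have hδ0 : 0 < δ := hδ.1
  have hδ1 : δ < 1 := hδ.2
  have hf1 : PF (K₁ * 4 / δ) fun y : ℂ => h ((1 - ‖y‖ ^ 2) / δ) :=
    PF.comp hc h01 hd (contDiff_const.sub contDiff_nsq) (fun y hy => (fderiv_nsq y hy).2) hδ0
  have hf2 : PF (K₁ * 1 / δ) fun y : ℂ => h ((y.re - z.re) / δ) :=
    PF.comp hc h01 hd (contDiff_re'.sub contDiff_const) (fun y _ => (fderiv_re y _).1) hδ0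
  have hf3 : PF (K₁ * 1 / δ) fun y : ℂ => h ((z.re + l - y.re) / δ) :=
    PF.comp hc h01 hd (contDiff_const.sub contDiff_re') (fun y _ => (fderiv_re y _).2) hδ0
  have hf4 : PF (K₁ * 1 / δ) fun y : ℂ => h ((y.im - z.im) / δ) :=
    PF.comp hc h01 hd (contDiff_im'.sub contDiff_const) (fun y _ => (fderiv_im y _).1) hδ0
  have hf5 : PF (K₁ * 1 / δ) fun y : ℂ => h ((z.im + l - y.im) / δ) :=
    PF.comp hc h01 hd (contDiff_const.sub contDiff_im') (fun y _ => (fderiv_im y _).2) hδ0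
  set f : ℂ → ℝ := fun y => h ((1 - ‖y‖ ^ 2) / δ) * (h ((y.re - z.re) / δ) * (h ((z.re + l - y.re) / δ) *
    (h ((y.im - z.im) / δ) * h ((z.im + l - y.im) / δ)))) with hfdef
  have hf : PF (K₁ * 8 / δ) f := by
    have h2 := hf1.mul (hf2.mul (hf3.mul (hf4.mul hf5)))
    have h3 : K₁ * 4 / δ + (K₁ * 1 / δ + (K₁ * 1 / δ + (K₁ * 1 / δ + K₁ * 1 / δ))) = K₁ * 8 / δ := by
      field_simp; ring
    rw [h3] at h2
    exact h2
  have hpos : ∀ {t : ℝ}, h (t / δ) ≠ 0 → 0 < t := by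
    intro t ht
    by_contra hcon
    exact ht (h0 _ (div_nonpos_of_nonpos_of_nonneg (not_lt.1 hcon) hδ0.le))
  have hone : ∀ {t : ℝ}, h (t / δ) ≠ 1 → t < δ := by
    intro t ht
    by_contra hcon
    apply ht
    apply h1
    rw [le_div_iff₀ hδ0]
    linarith [not_lt.1 hcon]
  refine ⟨fun x => if x ∈ (C.φ i).source then f (C.φ i x) else 0, ?_, ?_, ?_⟩
  · refine (ext_cut C i hr (fun y hy => (hρ y hy).1) hδ0 (by positivity) hf le_rfl zero_le_one ?_
      (fun x hx => if_pos hx) (fun x hx => if_neg hx)).mono hδ0 (le_max_left _ _)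
    intro y hy
    rw [mem_closedBall, dist_zero_right, not_le] at hy
    have h2 : h ((1 - ‖y‖ ^ 2) / δ) = 0 := by
      apply h0
      refine div_nonpos_of_nonpos_of_nonneg ?_ hδ0.le
      nlinarith
    simp only [hfdef, h2, zero_mul]
  · intro x hx
    dsimp only at hx
    by_cases hs : x ∈ (C.φ i).source
    · rw [if_pos hs] at hx
      simp only [hfdef, ne_eq, mul_eq_zero, not_or] at hx
      obtain ⟨hx1, hx2, hx3, hx4, hx5⟩ := hx
      have h2 := hpos hx1
      have h3 := hpos hx2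
      have h4 := hpos hx3
      have h5 := hpos hx4
      have h6 := hpos hx5
      refine ⟨hs, ?_, by linarith, by linarith, by linarith, by linarith⟩
      rw [mem_ball, dist_zero_right]
      nlinarith [norm_nonneg (C.φ i x)]
    · rw [if_neg hs] at hx
      exact absurd rfl hx
  · set B : Set ℂ := {y | 1 - δ < ‖y‖ ^ 2 ∧ ‖y‖ ^ 2 < 1} ∪ ({y | ‖y‖ < 1 ∧ z.re < y.re ∧ y.re < z.re + δ} ∪
      ({y | ‖y‖ < 1 ∧ z.re + l - δ < y.re ∧ y.re < z.re + l - δ + δ} ∪
        ({y | ‖y‖ < 1 ∧ z.im < y.im ∧ y.im < z.im + δ} ∪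
          {y | ‖y‖ < 1 ∧ z.im + l - δ < y.im ∧ y.im < z.im + l - δ + δ}))) with hB
    have hBm : MeasurableSet B := (measurableSet_ann _ _).union ((measurableSet_strip_re _ _).union
      ((measurableSet_strip_re _ _).union ((measurableSet_strip_im _ _).union (measurableSet_strip_im _ _))))
    have hB2 : B ⊆ closedBall 0 2 := by
      intro y hy
      rw [mem_closedBall, dist_zero_right]
      rcases hy with hy | hy | hy | hy | hy
      · nlinarith [norm_nonneg y, hy.2]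
      · linarith [hy.1]
      · linarith [hy.1]
      · linarith [hy.1]
      · linarith [hy.1]
    refine (area_le C i (fun y hy => (hρ y hy).2) hBm hB2 ?_).trans ?_
    · rintro x ⟨hs, hx1, hx2, hx3⟩
      dsimp only at hx3
      rw [if_pos hs] at hx3
      refine ⟨hs, ?_⟩
      rw [mem_ball, dist_zero_right] at hx1
      obtain ⟨h2, h3, h4, h5⟩ := hx2
      by_contra hcon
      simp only [hB, mem_union, mem_ofPred_eq, not_or, not_and, not_lt] at hcon
      obtain ⟨c1, c2, c3, c4, c5⟩ := hcon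
      apply hx3
      have hsq : ‖C.φ i x‖ ^ 2 < 1 := by nlinarith [norm_nonneg (C.φ i x)]
      have e1 : h ((1 - ‖C.φ i x‖ ^ 2) / δ) = 1 := by
        by_contra hh
        have := c1 (by linarith [hone hh])
        linarith
      have e2 : h (((C.φ i x).re - z.re) / δ) = 1 := by
        by_contra hh
        have := c2 hx1 h2
        linarith [hone hh]
      have e3 : h ((z.re + l - (C.φ i x).re) / δ) = 1 := by
        by_contra hh
        have := c3 hx1 (by linarith [hone hh])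
        linarith
      have e4 : h (((C.φ i x).im - z.im) / δ) = 1 := by
        by_contra hh
        have := c4 hx1 h4
        linarith [hone hh]
      have e5 : h ((z.im + l - (C.φ i x).im) / δ) = 1 := by
        by_contra hh
        have := c5 hx1 (by linarith [hone hh])
        linarith
      simp only [hfdef, e1, e2, e3, e4, e5, mul_one]
    · have hv : volume B ≤ ENNReal.ofReal ((π + 8) * δ) := by
        have v1 := volume_ann (s := 1 - δ) (t := 1) (by linarith) (by linarith)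
        have v2 := volume_strip_re z.re hδ0.le
        have v3 := volume_strip_re (z.re + l - δ) hδ0.le
        have v4 := volume_strip_im z.im hδ0.le
        have v5 := volume_strip_im (z.im + l - δ) hδ0.le
        have hπ := Real.pi_pos
        have e : (π + 8) * δ = (1 - (1 - δ)) * π + (2 * δ + (2 * δ + (2 * δ + 2 * δ))) := by ring
        rw [e, ENNReal.ofReal_add (by nlinarith) (by positivity), ENNReal.ofReal_add (by positivity) (by positivity),
          ENNReal.ofReal_add (by positivity) (by positivity), ENNReal.ofReal_add (by positivity) (by positivity)]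
        refine (measure_union_le _ _).trans (add_le_add v1 ?_)
        refine (measure_union_le _ _).trans (add_le_add v2 ?_)
        refine (measure_union_le _ _).trans (add_le_add v3 ?_)
        exact (measure_union_le _ _).trans (add_le_add v4 v5)
      refine (mul_le_mul_right hv _).trans ?_
      rw [← ENNReal.ofReal_mul hR.le]
      apply ENNReal.ofReal_le_ofReal
      have : R * (π + 8) * δ ≤ max (2 * (K₁ * 8) / √r) (R * (π + 8)) * δ :=
        mul_le_mul_of_nonneg_right (le_max_right _ _) hδ0.le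
      linarith

end Pool.Agent.Helper82.CLK
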