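import Pool.Agent.Helper82.CLK.Tile

/-!
# Cut-off functions: calculus (module CL-K13a)
-/

set_option maxSynthPendingDepth 3

namespace Pool.Agent.Helper82.CLK

open MeasureTheory Filter Topology Set Metric Pool.Agent.Helper53.CL Pool.Agent.Helper53.CL.K Pool.Agent.Helper53.CL.H
open Pool.Agent.Helper53.CL.C
open scoped ContDiff Real ENNReal NNReal

variable {S : Type*} [TopologicalSpace S] [MeasurableSpace S]

/-- Cut-off functions of scale `δ`: of class `C¹`, values in `[0,1]`, gradient at most `K / δ`. -/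
structure CutFam (C : CSurf S) (K δ : ℝ) (χ : S → ℝ) : Prop where
  c1 : C.IsC1 χ
  nonneg : ∀ x, 0 ≤ χ x
  le_one : ∀ x, χ x ≤ 1
  bound : ∀ x, ‖C.grad χ x‖ ≤ K / δ

theorem k13_idx_spec (C : CSurf S) (x : S) :
    x ∈ (C.φ (C.idx x)).source ∧ C.φ (C.idx x) x ∈ ball (0 : ℂ) 1 := by
  classical
  have h := Finset.min'_mem (Finset.univ.filter fun i =>
    x ∈ (C.φ i).source ∧ C.φ i x ∈ ball (0 : ℂ) 1)
    (let ⟨i, hi⟩ := C.cover x; ⟨i, Finset.mem_filter.2 ⟨Finset.mem_univ i, hi⟩⟩)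
  have h2 := (Finset.mem_filter.1 h).2
  convert h2 using 2 <;> unfold CSurf.idx <;> congr!

theorem k13_diff (C : CSurf S) {f : S → ℝ} (hf : C.IsC1 f) (x : S) :
    DifferentiableAt ℝ (f ∘ (C.φ (C.idx x)).symm) (C.φ (C.idx x) x) := by
  have h := (k13_idx_spec C x).2
  have h3 : C.φ (C.idx x) x ∈ ball (0 : ℂ) 3 := ball_subset_ball (by norm_num) h
  exact ((hf (C.idx x)).contDiffAt (isOpen_ball.mem_nhds h3)).differentiableAt (by norm_num)

/-- Product rule for `C.grad` (`gr` of a product in the chart `idx x`). -/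
theorem grad_mul (C : CSurf S) {f g : S → ℝ} (hf : C.IsC1 f) (hg : C.IsC1 g) (x : S) :
    C.grad (fun x => f x * g x) x = (f x : ℂ) * C.grad g x + (g x : ℂ) * C.grad f x := by
  have hs := (k13_idx_spec C x).1
  have h1 := k13_diff C hf x
  have h2 := k13_diff C hg x
  set φ := C.φ (C.idx x) with hφ
  have h3 : (fun x => f x * g x) ∘ φ.symm = fun y => (f ∘ φ.symm) y * (g ∘ φ.symm) y := rfl
  have h4 : fderiv ℝ ((fun x => f x * g x) ∘ φ.symm) (φ x) =
      (f ∘ φ.symm) (φ x) • fderiv ℝ (g ∘ φ.symm) (φ x) + (g ∘ φ.symm) (φ x) • fderiv ℝ (f ∘ φ.symm) (φ x) := by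
    rw [h3]
    exact fderiv_fun_mul h1 h2
  have h5 : (f ∘ φ.symm) (φ x) = f x := by rw [Function.comp_apply, φ.left_inv hs]
  have h6 : (g ∘ φ.symm) (φ x) = g x := by rw [Function.comp_apply, φ.left_inv hs]
  rw [h5, h6] at h4
  have h7 : gr ((fun x => f x * g x) ∘ φ.symm) (φ x) =
      (f x : ℂ) * gr (g ∘ φ.symm) (φ x) + (g x : ℂ) * gr (f ∘ φ.symm) (φ x) := by
    unfold gr dx dy
    rw [h4]
    apply Complex.ext <;> simp
  show gr ((fun x => f x * g x) ∘ φ.symm) (φ x) / _ = (f x : ℂ) * (gr (g ∘ φ.symm) (φ x) / _) +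
    (g x : ℂ) * (gr (f ∘ φ.symm) (φ x) / _)
  rw [h7]
  ring

theorem isC1_mul (C : CSurf S) {f g : S → ℝ} (hf : C.IsC1 f) (hg : C.IsC1 g) : C.IsC1 fun x => f x * g x :=
  fun i => (hf i).mul (hg i)

/-- The gradient vanishes at a local extremum, in particular where `χ = 0` or `χ = 1`. -/
theorem CutFam.grad_eq_zero {C : CSurf S} {K δ : ℝ} {χ : S → ℝ} (h : CutFam C K δ χ) {x : S}
    (hx : χ x = 0 ∨ χ x = 1) : C.grad χ x = 0 := by
  have hs := (k13_idx_spec C x).1
  have h0 : fderiv ℝ (χ ∘ (C.φ (C.idx x)).symm) (C.φ (C.idx x) x) = 0 := by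
    have h5 : (χ ∘ (C.φ (C.idx x)).symm) (C.φ (C.idx x) x) = χ x := by
      rw [Function.comp_apply, (C.φ (C.idx x)).left_inv hs]
    rcases hx with hx | hx
    · refine IsLocalMin.fderiv_eq_zero (Eventually.of_forall fun y => ?_)
      show (χ ∘ (C.φ (C.idx x)).symm) (C.φ (C.idx x) x) ≤ (χ ∘ (C.φ (C.idx x)).symm) y
      rw [h5, hx]
      exact h.nonneg _
    · refine IsLocalMax.fderiv_eq_zero (Eventually.of_forall fun y => ?_)
      show (χ ∘ (C.φ (C.idx x)).symm) y ≤ (χ ∘ (C.φ (C.idx x)).symm) (C.φ (C.idx x) x)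
      rw [h5, hx]
      exact h.le_one _
  unfold CSurf.grad gr dx dy
  rw [h0]
  have : (⟨(0 : ℂ →L[ℝ] ℝ) 1, (0 : ℂ →L[ℝ] ℝ) Complex.I⟩ : ℂ) = 0 := rfl
  rw [this, zero_div]

theorem CutFam.mul {C : CSurf S} {K K' δ : ℝ} (hδ : 0 < δ) {χ χ' : S → ℝ} (h : CutFam C K δ χ)
    (h' : CutFam C K' δ χ') : CutFam C (K + K') δ fun x => χ x * χ' x := by
  refine ⟨isC1_mul C h.c1 h'.c1, fun x => mul_nonneg (h.nonneg x) (h'.nonneg x),
    fun x => mul_le_one₀ (h.le_one x) (h'.nonneg x) (h'.le_one x), fun x => ?_⟩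
  rw [grad_mul C h.c1 h'.c1]
  refine (norm_add_le _ _).trans ?_
  rw [norm_mul, norm_mul, Complex.norm_real, Complex.norm_real, Real.norm_of_nonneg (h.nonneg x),
    Real.norm_of_nonneg (h'.nonneg x)]
  have h1 : χ x * ‖C.grad χ' x‖ ≤ 1 * (K' / δ) :=
    mul_le_mul (h.le_one x) (h'.bound x) (norm_nonneg _) zero_le_one
  have h2 : χ' x * ‖C.grad χ x‖ ≤ 1 * (K / δ) :=
    mul_le_mul (h'.le_one x) (h.bound x) (norm_nonneg _) zero_le_one
  calc χ x * ‖C.grad χ' x‖ + χ' x * ‖C.grad χ x‖ ≤ 1 * (K' / δ) + 1 * (K / δ) := add_le_add h1 h2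
    _ = (K + K') / δ := by ring

theorem CutFam.one (C : CSurf S) {δ : ℝ} (hδ : 0 < δ) : CutFam C 0 δ fun _ => 1 := by
  refine ⟨fun i => contDiffOn_const, fun _ => zero_le_one, fun _ => le_rfl, fun x => ?_⟩
  have h1 : (fun _ : S => (1 : ℝ)) ∘ (C.φ (C.idx x)).symm = fun _ => 1 := rfl
  have h0 : C.grad (fun _ => 1) x = 0 := by
    unfold CSurf.grad gr dx dy
    rw [h1, fderiv_fun_const]
    have : (⟨((0 : ℂ → ℂ →L[ℝ] ℝ) (C.φ (C.idx x) x)) 1, ((0 : ℂ → ℂ →L[ℝ] ℝ) (C.φ (C.idx x) x)) Complex.I⟩ : ℂ) = 0 :=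
      rfl
    rw [this, zero_div]
  rw [h0, norm_zero, zero_div]

theorem CutFam.prod {C : CSurf S} {ι : Type*} (s : Finset ι) {K : ι → ℝ} {δ : ℝ} (hδ : 0 < δ) {χ : ι → S → ℝ}
    (h : ∀ j ∈ s, CutFam C (K j) δ (χ j)) : CutFam C (∑ j ∈ s, K j) δ fun x => ∏ j ∈ s, χ j x := by
  classical
  induction s using Finset.induction_on with
  | empty =>
    simp only [Finset.sum_empty, Finset.prod_empty]
    exact CutFam.one C hδ
  | insert a s ha ih =>
    simp only [Finset.sum_insert ha, Finset.prod_insert ha]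
    exact CutFam.mul hδ (h a (Finset.mem_insert_self a s)) (ih fun j hj => h j (Finset.mem_insert_of_mem hj))

/-- The profile (`Real.smoothTransition`, derivative bounded since it is continuous and vanishes off `[0,1]`). -/
theorem exists_profile : ∃ (h : ℝ → ℝ) (K : ℝ), ContDiff ℝ ∞ h ∧ (∀ s, s ≤ 0 → h s = 0) ∧ (∀ s, 1 ≤ s → h s = 1) ∧
    (∀ s, 0 ≤ h s ∧ h s ≤ 1) ∧ ∀ s, |deriv h s| ≤ K := by
  have hc : ContDiff ℝ ∞ Real.smoothTransition := Real.smoothTransition.contDiff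
  have hd : Continuous (deriv Real.smoothTransition) := hc.continuous_deriv (by simp)
  obtain ⟨K, hK⟩ := (isCompact_Icc (a := (0 : ℝ)) (b := 1)).exists_bound_of_continuousOn hd.continuousOn
  have hK0 : 0 ≤ K := (norm_nonneg _).trans (hK 0 ⟨le_rfl, zero_le_one⟩)
  refine ⟨Real.smoothTransition, K, hc, fun s hs => Real.smoothTransition.zero_of_nonpos hs,
    fun s hs => Real.smoothTransition.one_of_one_le hs,
    fun s => ⟨Real.smoothTransition.nonneg s, Real.smoothTransition.le_one s⟩, fun s => ?_⟩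
  by_cases hs : s ∈ Icc (0 : ℝ) 1
  · exact hK s hs
  · rw [mem_Icc, not_and_or, not_le, not_le] at hs
    have h0 : deriv Real.smoothTransition s = 0 := by
      rcases hs with hs | hs
      · have h1 : Real.smoothTransition =ᶠ[𝓝 s] fun _ => 0 := by
          filter_upwards [Iio_mem_nhds hs] with t ht
          exact Real.smoothTransition.zero_of_nonpos (le_of_lt ht)
        rw [h1.deriv_eq, deriv_const]
      · have h1 : Real.smoothTransition =ᶠ[𝓝 s] fun _ => 1 := by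
          filter_upwards [Ioi_mem_nhds hs] with t ht
          exact Real.smoothTransition.one_of_one_le (le_of_lt ht)
        rw [h1.deriv_eq, deriv_const]
    rw [h0, abs_zero]
    exact hK0

/-- A function given in one chart and constant near the boundary of the source: if `f : ℂ → ℝ` is of class `C¹` on `ball 0 3` and equal
to the constant `c` off the closed ball of radius `2`, then its extension by `c` is of class `C¹` on `S`, with gradient of norm
`‖gr f (φ i x)‖ / √(ρ i (φ i x))` on the source (`norm_grad`) and `0` off it. -/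
theorem isC1_ext [T2Space S] (C : CSurf S) (i : Fin C.n) {f : ℂ → ℝ} (hf : ContDiffOn ℝ 1 f (ball 0 3)) {c : ℝ}
    (hc : ∀ y ∈ ball (0 : ℂ) 3, y ∉ closedBall (0 : ℂ) 2 → f y = c) {F : S → ℝ}
    (hF : ∀ x ∈ (C.φ i).source, F x = f (C.φ i x)) (hF' : ∀ x, x ∉ (C.φ i).source → F x = c) :
    C.IsC1 F ∧ (∀ x ∈ (C.φ i).source, ‖C.grad F x‖ ^ 2 = ‖gr f (C.φ i x)‖ ^ 2 / C.ρ i (C.φ i x)) ∧
      ∀ x, x ∉ (C.φ i).source → C.grad F x = 0 := by
  have hsub : closedBall (0 : ℂ) 2 ⊆ (C.φ i).target := by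
    rw [C.target i]
    exact closedBall_subset_ball (by norm_num)
  have hcomp : IsCompact ((C.φ i).symm '' closedBall (0 : ℂ) 2) :=
    (isCompact_closedBall _ _).image_of_continuousOn ((C.φ i).continuousOn_symm.mono hsub)
  have hcl : IsClosed ((C.φ i).symm '' closedBall (0 : ℂ) 2) := hcomp.isClosed
  -- off the compact set, `F = c`
  have hoff : ∀ y ∉ (C.φ i).symm '' closedBall (0 : ℂ) 2, F y = c := by
    intro y hy
    by_cases hys : y ∈ (C.φ i).source
    · rw [hF y hys]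
      refine hc _ ?_ ?_
      · rw [← C.target i]
        exact (C.φ i).map_source hys
      · intro h1
        exact hy ⟨_, h1, (C.φ i).left_inv hys⟩
    · exact hF' y hys
  have hnear : ∀ x ∉ (C.φ i).source, ∀ᶠ y in 𝓝 x, F y = c := by
    intro x hx
    have hx2 : x ∉ (C.φ i).symm '' closedBall (0 : ℂ) 2 := by
      rintro ⟨z, hz, rfl⟩
      exact hx ((C.φ i).map_target (hsub hz))
    filter_upwards [hcl.isOpen_compl.mem_nhds hx2] with y hy
    exact hoff y hy
  have hC1 : C.IsC1 F := by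
    intro j z hz
    refine ContDiffAt.contDiffWithinAt ?_
    have hzt : z ∈ (C.φ j).target := by
      rw [C.target j]
      exact hz
    have hcont : Tendsto (C.φ j).symm (𝓝 z) (𝓝 ((C.φ j).symm z)) := (C.φ j).continuousAt_symm hzt
    by_cases hx : (C.φ j).symm z ∈ (C.φ i).source
    · have h1 : ∀ᶠ w in 𝓝 z, (C.φ j).symm w ∈ (C.φ i).source := hcont ((C.φ i).open_source.mem_nhds hx)
      have h2 : F ∘ (C.φ j).symm =ᶠ[𝓝 z] f ∘ (C.φ i ∘ (C.φ j).symm) := by
        filter_upwards [h1] with w hw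
        exact hF _ hw
      refine ContDiffAt.congr_of_eventuallyEq ?_ h2
      have h3 : z ∈ ((C.φ j).symm.trans (C.φ i)).source := by
        rw [OpenPartialHomeomorph.trans_source]
        exact ⟨hzt, hx⟩
      have h4 : ContDiffAt ℝ 1 (C.φ i ∘ (C.φ j).symm) z :=
        (((C.trans_smooth j i).contDiffAt (((C.φ j).symm.trans (C.φ i)).open_source.mem_nhds h3))).of_le (by simp)
      have h5 : (C.φ i ∘ (C.φ j).symm) z ∈ ball (0 : ℂ) 3 := by
        rw [← C.target i]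
        exact (C.φ i).map_source hx
      exact (hf.contDiffAt (isOpen_ball.mem_nhds h5)).comp z h4
    · have h2 : F ∘ (C.φ j).symm =ᶠ[𝓝 z] fun _ => c := hcont.eventually (hnear _ hx)
      exact contDiffAt_const.congr_of_eventuallyEq h2
  refine ⟨hC1, fun x hx => ?_, fun x hx => ?_⟩
  · rw [norm_grad C hC1 hx]
    have h1 : F ∘ (C.φ i).symm =ᶠ[𝓝 (C.φ i x)] f := by
      filter_upwards [(C.φ i).open_target.mem_nhds ((C.φ i).map_source hx)] with w hw
      show F ((C.φ i).symm w) = f w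
      rw [hF _ ((C.φ i).map_target hw), (C.φ i).right_inv hw]
    have h2 : gr (F ∘ (C.φ i).symm) (C.φ i x) = gr f (C.φ i x) := by
      unfold gr dx dy
      rw [h1.fderiv_eq]
    rw [h2]
  · have hs := (k13_idx_spec C x).1
    have hcont : Tendsto (C.φ (C.idx x)).symm (𝓝 (C.φ (C.idx x) x)) (𝓝 x) := by
      have := (C.φ (C.idx x)).continuousAt_symm ((C.φ (C.idx x)).map_source hs)
      rwa [ContinuousAt, (C.φ (C.idx x)).left_inv hs] at this
    have h2 : F ∘ (C.φ (C.idx x)).symm =ᶠ[𝓝 (C.φ (C.idx x) x)] fun _ => c := hcont.eventually (hnear _ hx)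
    unfold CSurf.grad gr dx dy
    rw [h2.fderiv_eq, fderiv_fun_const]
    have : (⟨((0 : ℂ → ℂ →L[ℝ] ℝ) (C.φ (C.idx x) x)) 1, ((0 : ℂ → ℂ →L[ℝ] ℝ) (C.φ (C.idx x) x)) Complex.I⟩ : ℂ) = 0 :=
      rfl
    rw [this, zero_div]

end Pool.Agent.Helper82.CLK
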