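import Pool.Agent.Helper82.CLK.Cut

/-!
# Transplantation of a function from a square of the grid (module CL-K14a)
-/

set_option maxSynthPendingDepth 3

namespace Pool.Agent.Helper82.CLK

open MeasureTheory Filter Topology Set Metric Pool.Agent.Helper53.CL Pool.Agent.Helper53.CL.K Pool.Agent.Helper53.CL.H
open Pool.Agent.Helper53.CL.C
open scoped ContDiff Real ENNReal NNReal

variable {S : Type*} [TopologicalSpace S] [T2Space S] [MeasurableSpace S] [BorelSpace S] [CompactSpace S]

/-- The map from the chart to the square of the grid with corner `c` and side `1/M`. -/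
noncomputable def Psi (C : CSurf S) (i : Fin C.n) (z : ℂ) (l : ℝ) (c : ℂ) (M : ℕ) (x : S) : ℂ :=
  c + (C.φ i x - z) / ((l * M : ℝ) : ℂ)

theorem Psi_mem (C : CSurf S) (i : Fin C.n) {z : ℂ} {l : ℝ} (hl : 0 < l) (c : ℂ) {M : ℕ} (hM : 1 ≤ M) {x : S}
    (hx : x ∈ otile C i z l) : Psi C i z l c M x ∈ osq c (1 / (M : ℝ)) := by
  have hM' : (0 : ℝ) < M := by exact_mod_cast hM
  have hlM : 0 < l * M := by positivity
  obtain ⟨_, h1, h2, h3, h4⟩ := hx
  have hre : (Psi C i z l c M x).re = c.re + ((C.φ i x).re - z.re) / (l * M) := by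
    unfold Psi
    rw [Complex.add_re, Complex.div_ofReal_re, Complex.sub_re]
  have him : (Psi C i z l c M x).im = c.im + ((C.φ i x).im - z.im) / (l * M) := by
    unfold Psi
    rw [Complex.add_im, Complex.div_ofReal_im, Complex.sub_im]
  have key : ∀ t : ℝ, 0 < t → t < l → 0 < t / (l * M) ∧ t / (l * M) < 1 / M := by
    intro t ht0 ht1
    refine ⟨by positivity, ?_⟩
    rw [div_lt_div_iff₀ hlM hM']
    nlinarith
  obtain ⟨k1, k2⟩ := key ((C.φ i x).re - z.re) (by linarith) (by linarith)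
  obtain ⟨k3, k4⟩ := key ((C.φ i x).im - z.im) (by linarith) (by linarith)
  refine ⟨?_, ?_, ?_, ?_⟩
  · rw [hre]; linarith
  · rw [hre]; linarith
  · rw [him]; linarith
  · rw [him]; linarith

private theorem ext_piece_open (C : CSurf S) (i : Fin C.n) (z : ℂ) (l : ℝ) : IsOpen (piece C i z l) :=
  (isOpen_Dp C i).inter (isOpen_otile C i z l)

private theorem ext_piece_source {C : CSurf S} {i : Fin C.n} {z : ℂ} {l : ℝ} {x : S} (hx : x ∈ piece C i z l) :
    x ∈ (C.φ i).source := hx.2.1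

private theorem ext_piece_ball {C : CSurf S} {i : Fin C.n} {z : ℂ} {l : ℝ} {x : S} (hx : x ∈ piece C i z l) :
    C.φ i x ∈ ball (0 : ℂ) 1 := hx.1.1.2

private theorem ext_osq_meas (z : ℂ) (l : ℝ) : MeasurableSet (osq z l) := by
  have h1 : osq z l = {y : ℂ | z.re < y.re} ∩ ({y : ℂ | y.re < z.re + l} ∩
      ({y : ℂ | z.im < y.im} ∩ {y : ℂ | y.im < z.im + l})) := by
    ext y; simp [osq]
  rw [h1]
  exact (measurableSet_lt measurable_const Complex.measurable_re).inter
    ((measurableSet_lt Complex.measurable_re measurable_const).inter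
      ((measurableSet_lt measurable_const Complex.measurable_im).inter
        (measurableSet_lt Complex.measurable_im measurable_const)))

/-- The image of the area of the piece: `ρ` is bounded above on the closed unit disc. -/
theorem map_Psi_le (C : CSurf S) (i : Fin C.n) {z : ℂ} {l : ℝ} (hl : 0 < l) {c : ℂ} {M : ℕ} (hM : 1 ≤ M)
    (hc : sq c (1 / (M : ℝ)) ⊆ Qs) :
    AEMeasurable (Psi C i z l c M) (C.area.restrict (piece C i z l)) ∧
      ∃ K : ℝ≥0, (C.area.restrict (piece C i z l)).map (Psi C i z l c M) ≤ K • mQ := by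
  have hM' : (0 : ℝ) < M := by exact_mod_cast hM
  have hlM : 0 < l * M := by positivity
  have hPo := ext_piece_open C i z l
  have hPm : MeasurableSet (piece C i z l) := hPo.measurableSet
  have hsrc : MeasurableSet (C.φ i).source := (C.φ i).open_source.measurableSet
  have hPs : piece C i z l ⊆ (C.φ i).source := fun x hx => ext_piece_source hx
  -- the affine map
  set g : ℂ → ℂ := fun y => c + (y - z) / ((l * M : ℝ) : ℂ) with hg
  have hgm : Measurable g := by
    have : Continuous g := by rw [hg]; fun_prop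
    exact this.measurable
  have hφs : AEMeasurable (C.φ i) (C.area.restrict (C.φ i).source) :=
    (C.φ i).continuousOn.aemeasurable hsrc
  have hφP : AEMeasurable (C.φ i) (C.area.restrict (piece C i z l)) :=
    ((C.φ i).continuousOn.mono hPs).aemeasurable hPm
  have hPsi : Psi C i z l c M = g ∘ C.φ i := rfl
  refine ⟨by rw [hPsi]; exact hgm.comp_aemeasurable hφP, ?_⟩
  obtain ⟨K1, hK1⟩ := (isCompact_closedBall (0 : ℂ) 1).exists_bound_of_continuousOn
    ((C.ρ_smooth i).continuousOn.mono (closedBall_subset_ball (by norm_num : (1 : ℝ) < 3)))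
  refine ⟨Real.toNNReal K1 * Real.toNNReal ((l * M) ^ 2), ?_⟩
  refine Measure.le_iff.2 fun B hB => ?_
  rw [hPsi, Measure.map_apply_of_aemeasurable (hgm.comp_aemeasurable hφP) hB, Measure.smul_apply]
  -- the set in the chart
  set U : Set ℂ := g ⁻¹' B ∩ (ball (0 : ℂ) 1 ∩ osq z l) with hU
  have hUm : MeasurableSet U := (hgm hB).inter (measurableSet_ball.inter (ext_osq_meas z l))
  have h1 : (C.area.restrict (piece C i z l)) (g ∘ C.φ i ⁻¹' B) ≤
      (C.area.restrict (C.φ i).source) (C.φ i ⁻¹' U) := by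
    have e1 : (C.area.restrict (piece C i z l)) (g ∘ C.φ i ⁻¹' B) =
        C.area ((g ∘ C.φ i ⁻¹' B) ∩ piece C i z l) := by
      rw [Measure.restrict_apply' hPm]
    have e2 : (C.area.restrict (C.φ i).source) (C.φ i ⁻¹' U) =
        C.area ((C.φ i ⁻¹' U) ∩ (C.φ i).source) := by
      rw [Measure.restrict_apply' hsrc]
    rw [e1, e2]
    apply measure_mono
    rintro x ⟨hx1, hx2⟩
    exact ⟨⟨hx1, ext_piece_ball hx2, hx2.2.2⟩, hPs hx2⟩
  have h2 : (C.area.restrict (C.φ i).source) (C.φ i ⁻¹' U) =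
      ∫⁻ y in U, ENNReal.ofReal (C.ρ i y) ∂(volume.restrict (ball (0 : ℂ) 3)) := by
    rw [← Measure.map_apply_of_aemeasurable hφs hUm, area_map, withDensity_apply _ hUm]
  have h3 : ∫⁻ y in U, ENNReal.ofReal (C.ρ i y) ∂(volume.restrict (ball (0 : ℂ) 3)) ≤
      ENNReal.ofReal K1 * volume U := by
    calc _ ≤ ∫⁻ y in U, ENNReal.ofReal K1 ∂(volume.restrict (ball (0 : ℂ) 3)) := by
          apply setLIntegral_mono measurable_const
          intro y hy
          apply ENNReal.ofReal_le_ofReal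
          exact (le_abs_self _).trans (hK1 y (ball_subset_closedBall hy.2.1))
      _ = ENNReal.ofReal K1 * (volume.restrict (ball (0 : ℂ) 3)) U := by
          rw [setLIntegral_const]
      _ ≤ ENNReal.ofReal K1 * volume U := by
          gcongr
          exact Measure.restrict_le_self
  -- the affine map
  have h4 : volume U ≤ ENNReal.ofReal ((l * M) ^ 2) * mQ B := by
    have hsub : U ⊆ g ⁻¹' (B ∩ Qs) := by
      rintro y ⟨hy1, hy2, hy3⟩
      refine ⟨hy1, hc ?_⟩
      obtain ⟨q1, q2, q3, q4⟩ := hy3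
      have hre : (g y).re = c.re + (y.re - z.re) / (l * M) := by
        simp only [hg]
        rw [Complex.add_re, Complex.div_ofReal_re, Complex.sub_re]
      have him : (g y).im = c.im + (y.im - z.im) / (l * M) := by
        simp only [hg]
        rw [Complex.add_im, Complex.div_ofReal_im, Complex.sub_im]
      have key : ∀ t : ℝ, 0 < t → t < l → 0 < t / (l * M) ∧ t / (l * M) < 1 / M := by
        intro t ht0 ht1
        refine ⟨by positivity, ?_⟩
        rw [div_lt_div_iff₀ hlM hM']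
        nlinarith
      obtain ⟨k1, k2⟩ := key (y.re - z.re) (by linarith) (by linarith)
      obtain ⟨k3, k4⟩ := key (y.im - z.im) (by linarith) (by linarith)
      refine ⟨?_, ?_, ?_, ?_⟩
      · rw [hre]; linarith
      · rw [hre]; linarith
      · rw [him]; linarith
      · rw [him]; linarith
    have hpre : g ⁻¹' (B ∩ Qs) = (fun y => y + (-z)) ⁻¹' ((fun y : ℂ => (l * M)⁻¹ • y) ⁻¹'
        ((fun y => c + y) ⁻¹' (B ∩ Qs))) := by
      ext y
      simp only [mem_preimage, hg]
      have : c + (y - z) / ((l * M : ℝ) : ℂ) = c + (l * M)⁻¹ • (y + -z) := by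
        rw [Complex.real_smul, Complex.ofReal_inv, div_eq_inv_mul, sub_eq_add_neg]
      rw [this]
    refine (measure_mono hsub).trans ?_
    rw [hpre, measure_preimage_add_right, Measure.addHaar_preimage_smul _ (inv_ne_zero hlM.ne'),
      measure_preimage_add, Complex.finrank_real_complex]
    have e3 : |((l * M)⁻¹ ^ 2)⁻¹| = (l * M) ^ 2 := by
      rw [inv_pow, inv_inv, abs_of_nonneg (sq_nonneg _)]
    rw [e3, mQ, Measure.restrict_apply hB]
  calc _ ≤ _ := h1
    _ = _ := h2
    _ ≤ _ := h3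
    _ ≤ ENNReal.ofReal K1 * (ENNReal.ofReal ((l * M) ^ 2) * mQ B) := by gcongr
    _ = _ := by
      rw [← mul_assoc, ENNReal.smul_def, smul_eq_mul, ENNReal.coe_mul]
      rfl

section gradc

private theorem gr_mul' {a b : ℂ → ℝ} {y : ℂ} (ha : DifferentiableAt ℝ a y) (hb : DifferentiableAt ℝ b y) :
    gr (fun y => a y * b y) y = (a y : ℂ) * gr b y + (b y : ℂ) * gr a y := by
  have h := (ha.hasFDerivAt.mul hb.hasFDerivAt).fderiv
  have h' : fderiv ℝ (fun y => a y * b y) y = a y • fderiv ℝ b y + b y • fderiv ℝ a y := h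
  apply Complex.ext
  · simp [gr, dx, dy, h']
  · simp [gr, dx, dy, h']

private theorem gr_comp_aff {v : ℂ → ℝ} {c z : ℂ} {r : ℝ} {y : ℂ}
    (hv : DifferentiableAt ℝ v (c + (y - z) / (r : ℂ))) :
    gr (fun y => v (c + (y - z) / (r : ℂ))) y = gr v (c + (y - z) / (r : ℂ)) / (r : ℂ) := by
  have hg : HasFDerivAt (fun y : ℂ => c + (y - z) / (r : ℂ)) (r⁻¹ • ContinuousLinearMap.id ℝ ℂ) y := by
    have h1 : HasFDerivAt (fun y : ℂ => c + r⁻¹ • (y - z)) (r⁻¹ • ContinuousLinearMap.id ℝ ℂ) y :=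
      (((hasFDerivAt_id y).sub_const z).const_smul r⁻¹).const_add c
    refine h1.congr_of_eventuallyEq (Eventually.of_forall fun y => ?_)
    simp only
    rw [Complex.real_smul, Complex.ofReal_inv, div_eq_inv_mul]
  have h2 := hv.hasFDerivAt.comp y hg
  have h3 : fderiv ℝ (fun y => v (c + (y - z) / (r : ℂ))) y =
      (fderiv ℝ v (c + (y - z) / (r : ℂ))).comp (r⁻¹ • ContinuousLinearMap.id ℝ ℂ) := h2.fderiv
  apply Complex.ext
  · rw [Complex.div_ofReal_re]
    change fderiv ℝ (fun y => v (c + (y - z) / (r : ℂ))) y 1 =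
      fderiv ℝ v (c + (y - z) / (r : ℂ)) 1 / r
    rw [h3, ContinuousLinearMap.comp_apply, smul_apply,
      ContinuousLinearMap.id_apply, map_smul, smul_eq_mul]
    ring
  · rw [Complex.div_ofReal_im]
    change fderiv ℝ (fun y => v (c + (y - z) / (r : ℂ))) y Complex.I =
      fderiv ℝ v (c + (y - z) / (r : ℂ)) Complex.I / r
    rw [h3, ContinuousLinearMap.comp_apply, smul_apply,
      ContinuousLinearMap.id_apply, map_smul, smul_eq_mul]
    ring

end gradc

/-- Three applications of `exists_op` with `P = piece C i z l`, `ψ = Psi` (`map_Psi_le`): `u ↦ χ u∘Ψ`; `g ↦ χ/(l M √ρ) g∘Ψ`;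
`u ↦ (u∘Ψ) grad χ` (bounded multipliers: `ρ` is bounded below on the closed unit disc, `CutFam.bound`).  Off the piece `χ = 0` and
`grad χ = 0` (`CutFam.grad_eq_zero`), so the indicators can be omitted.  `L` maps `HQ` to `HS` by `map_HQ`: for `v` of class `C¹` on `ℂ` the
function `f x = χ x * v (Ψ x)` is of class `C¹` on `S` (its support is in the compact set `(φ i).symm '' closedBall 0 1`) and its gradient
is the second component (in the piece `idx = i`, `idx_Dp`; off the piece both vanish). -/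
theorem exists_ext (C : CSurf S) (i : Fin C.n) {z : ℂ} {l : ℝ} (hl : 0 < l) {c : ℂ} {M : ℕ} (hM : 1 ≤ M)
    (hc : sq c (1 / (M : ℝ)) ⊆ Qs) {K δ : ℝ} {χ : S → ℝ} (hχ : CutFam C K δ χ) (hχ0 : ∀ x, χ x ≠ 0 → x ∈ piece C i z l) :
    ∃ (L : JetSp mQ →L[ℝ] JetSp C.area) (L₁ : Lp ℝ 2 mQ →L[ℝ] Lp ℝ 2 C.area), (∀ U, (L U).fst = L₁ U.fst) ∧
      (∀ U, IsJet (L U) (fun x => χ x * U.fst (Psi C i z l c M x))
        (fun x => ((χ x / (l * M * √(C.ρ i (C.φ i x))) : ℝ) : ℂ) * U.snd (Psi C i z l c M x) +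
          ((U.fst (Psi C i z l c M x) : ℝ) : ℂ) * C.grad χ x)) ∧
      ∀ U ∈ HQ, L U ∈ C.HS := by
  have hM' : (0 : ℝ) < M := by exact_mod_cast hM
  have hlM : 0 < l * M := by positivity
  obtain ⟨hΨ, KΨ, hKΨ⟩ := map_Psi_le C i hl (c := c) hM hc
  have hPo := ext_piece_open C i z l
  have hPm : MeasurableSet (piece C i z l) := hPo.measurableSet
  have hPs : piece C i z l ⊆ (C.φ i).source := fun x hx => ext_piece_source hx
  have hχc : Continuous χ := continuous_of_isC1 C hχ.c1
  -- lower bound of the metric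
  obtain ⟨c0, hc0, hc0'⟩ : ∃ c0 : ℝ, 0 < c0 ∧ ∀ y ∈ closedBall (0 : ℂ) 1, c0 ≤ C.ρ i y := by
    have hne : (closedBall (0 : ℂ) 1).Nonempty := ⟨0, by simp⟩
    obtain ⟨y0, hy0, hmin⟩ := (isCompact_closedBall (0 : ℂ) 1).exists_isMinOn hne
      ((C.ρ_smooth i).continuousOn.mono (closedBall_subset_ball (by norm_num : (1 : ℝ) < 3)))
    exact ⟨C.ρ i y0, C.ρ_pos i y0 (closedBall_subset_ball (by norm_num : (1 : ℝ) < 3) hy0),
      fun y hy => hmin hy⟩
  have hρc : ContinuousOn (fun x => χ x / (l * M * √(C.ρ i (C.φ i x)))) (piece C i z l) := by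
    have e1 : ContinuousOn (fun x => C.ρ i (C.φ i x)) (piece C i z l) :=
      (C.ρ_smooth i).continuousOn.comp ((C.φ i).continuousOn.mono hPs)
        (fun x hx => ball_subset_ball (by norm_num) (ext_piece_ball hx))
    refine hχc.continuousOn.div (continuousOn_const.mul (Real.continuous_sqrt.comp_continuousOn e1)) ?_
    intro x hx
    have := C.ρ_pos i (C.φ i x) (ball_subset_ball (by norm_num) (ext_piece_ball hx))
    have := Real.sqrt_pos.2 this
    positivity
  -- the operators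
  obtain ⟨L₁, hL₁⟩ := exists_op (E := ℝ) (F := ℝ) hPm hΨ hKΨ (m := fun x => χ x • ContinuousLinearMap.id ℝ ℝ)
    ((hχc.aestronglyMeasurable).smul_const _) (B := 1) (by
      intro x _
      rw [norm_smul, Real.norm_of_nonneg (hχ.nonneg x)]
      have h1 : ‖ContinuousLinearMap.id ℝ ℝ‖ ≤ 1 := ContinuousLinearMap.norm_id_le
      calc χ x * ‖ContinuousLinearMap.id ℝ ℝ‖ ≤ 1 * 1 := by
            gcongr
            exact hχ.le_one x
        _ = 1 := one_mul 1)
  obtain ⟨T₂, hT₂⟩ := exists_op (E := ℂ) (F := ℂ) hPm hΨ hKΨ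
    (m := fun x => (χ x / (l * M * √(C.ρ i (C.φ i x)))) • ContinuousLinearMap.id ℝ ℂ)
    ((hρc.aestronglyMeasurable hPm).smul_const _) (B := 1 / (l * M * √c0)) (by
      intro x hx
      have hb := hc0' _ (ball_subset_closedBall (ext_piece_ball hx))
      have hs0 : 0 < √c0 := Real.sqrt_pos.2 hc0
      have hs : √c0 ≤ √(C.ρ i (C.φ i x)) := Real.sqrt_le_sqrt hb
      rw [norm_smul, Real.norm_of_nonneg (div_nonneg (hχ.nonneg x) (by positivity))]
      have h1 : ‖ContinuousLinearMap.id ℝ ℂ‖ ≤ 1 := ContinuousLinearMap.norm_id_le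
      calc _ ≤ 1 / (l * M * √c0) * 1 := by
            gcongr
            exact hχ.le_one x
        _ = 1 / (l * M * √c0) := mul_one _)
  obtain ⟨T₃, hT₃⟩ := exists_op (E := ℝ) (F := ℂ) hPm hΨ hKΨ
    (m := fun x => (ContinuousLinearMap.smulRightL ℝ ℝ ℂ (ContinuousLinearMap.id ℝ ℝ)) (C.grad χ x))
    ((ContinuousLinearMap.continuous _).comp_aestronglyMeasurable
      ((measurable_grad C hχ.c1).aestronglyMeasurable)) (B := K / δ) (by
      intro x _
      refine le_trans ?_ (hχ.bound x)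
      change ‖(ContinuousLinearMap.id ℝ ℝ).smulRight (C.grad χ x)‖ ≤ _
      rw [ContinuousLinearMap.norm_smulRight_apply]
      have h1 : ‖ContinuousLinearMap.id ℝ ℝ‖ ≤ 1 := ContinuousLinearMap.norm_id_le
      exact mul_le_of_le_one_left (norm_nonneg _) h1)
  let L : JetSp mQ →L[ℝ] JetSp C.area :=
    ((WithLp.prodContinuousLinearEquiv 2 ℝ (Lp ℝ 2 C.area) (Lp ℂ 2 C.area)).symm : _ →L[ℝ] JetSp C.area) ∘L
      ((L₁ ∘L ContinuousLinearMap.fst ℝ (Lp ℝ 2 mQ) (Lp ℂ 2 mQ)).prod
        (T₂ ∘L ContinuousLinearMap.snd ℝ (Lp ℝ 2 mQ) (Lp ℂ 2 mQ) +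
          T₃ ∘L ContinuousLinearMap.fst ℝ (Lp ℝ 2 mQ) (Lp ℂ 2 mQ))) ∘L
      ((WithLp.prodContinuousLinearEquiv 2 ℝ (Lp ℝ 2 mQ) (Lp ℂ 2 mQ)) : JetSp mQ →L[ℝ] _)
  have hLfst : ∀ U, (L U).fst = L₁ U.fst := fun _ => rfl
  have hLsnd : ∀ U, (L U).snd = T₂ U.snd + T₃ U.fst := fun _ => rfl
  have hχP : ∀ x, x ∉ piece C i z l → χ x = 0 := fun x hx => by
    by_contra h
    exact hx (hχ0 x h)
  have hgP : ∀ x, x ∉ piece C i z l → C.grad χ x = 0 := fun x hx =>
    hχ.grad_eq_zero (Or.inl (hχP x hx))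
  have hjet : ∀ U, IsJet (L U) (fun x => χ x * U.fst (Psi C i z l c M x))
        (fun x => ((χ x / (l * M * √(C.ρ i (C.φ i x))) : ℝ) : ℂ) * U.snd (Psi C i z l c M x) +
          ((U.fst (Psi C i z l c M x) : ℝ) : ℂ) * C.grad χ x) := by
    intro U
    refine ⟨?_, ?_⟩
    · rw [hLfst]
      filter_upwards [hL₁ U.fst] with x hx
      rw [hx]
      by_cases hxP : x ∈ piece C i z l
      · rw [indicator_of_mem hxP]
        simp
      · rw [indicator_of_notMem hxP, hχP x hxP, zero_mul]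
    · rw [hLsnd]
      filter_upwards [hT₂ U.snd, hT₃ U.fst, Lp.coeFn_add (T₂ U.snd) (T₃ U.fst)] with x h2 h3 hadd
      rw [hadd, Pi.add_apply, h2, h3]
      by_cases hxP : x ∈ piece C i z l
      · rw [indicator_of_mem hxP, indicator_of_mem hxP]
        congr 1
      · rw [indicator_of_notMem hxP, indicator_of_notMem hxP, hχP x hxP, hgP x hxP, zero_div]
        simp
  refine ⟨L, L₁, hLfst, hjet, ?_⟩
  -- `HQ` is mapped to `HS`
  have hclosed : IsClosed (C.HS : Set (JetSp C.area)) := Submodule.isClosed_topologicalClosure _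
  refine map_HQ hclosed L fun v hv U hU => ?_
  -- the function on the surface
  set F : S → ℝ := fun x => χ x * v (Psi C i z l c M x) with hF
  set f : ℂ → ℝ := fun y => (χ ∘ (C.φ i).symm) y * v (c + (y - z) / ((l * M : ℝ) : ℂ)) with hf
  have hχi : ContDiffOn ℝ 1 (χ ∘ (C.φ i).symm) (ball 0 3) := hχ.c1 i
  have hvg : ContDiff ℝ 1 (fun y : ℂ => v (c + (y - z) / ((l * M : ℝ) : ℂ))) := by
    refine hv.comp ?_
    have : (fun y : ℂ => c + (y - z) / ((l * M : ℝ) : ℂ)) =
        fun y : ℂ => c + (l * M : ℝ)⁻¹ • (y - z) := by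
      funext y
      rw [Complex.real_smul, Complex.ofReal_inv, div_eq_inv_mul]
    rw [this]
    exact contDiff_const.add ((contDiff_id.sub contDiff_const).const_smul _)
  have hfc : ContDiffOn ℝ 1 f (ball 0 3) := hχi.mul hvg.contDiffOn
  have htgt : ∀ y ∈ ball (0 : ℂ) 3, y ∈ (C.φ i).target := fun y hy => by rw [C.target i]; exact hy
  have hF1 : ∀ x ∈ (C.φ i).source, F x = f (C.φ i x) := by
    intro x hx
    simp only [hF, hf, Function.comp, (C.φ i).left_inv hx]
    rfl
  have hF2 : ∀ x, x ∉ (C.φ i).source → F x = 0 := by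
    intro x hx
    simp only [hF]
    rw [hχP x (fun h => hx (hPs h)), zero_mul]
  have hf0 : ∀ y ∈ ball (0 : ℂ) 3, y ∉ closedBall (0 : ℂ) 2 → f y = 0 := by
    intro y hy hy2
    simp only [hf, Function.comp]
    rw [hχP, zero_mul]
    intro hP
    have := ext_piece_ball hP
    rw [(C.φ i).right_inv (htgt y hy)] at this
    exact hy2 (ball_subset_closedBall (ball_subset_ball (by norm_num) this))
  obtain ⟨hFC, hFg, hFg0⟩ := isC1_ext C i hfc hf0 hF1 hF2
  have hball : ∀ x ∈ (C.φ i).source, C.φ i x ∈ ball (0 : ℂ) 3 := fun x hx => by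
    rw [← C.target i]; exact (C.φ i).map_source hx
  have hgrf : ∀ x ∈ (C.φ i).source, gr f (C.φ i x) =
      (χ x : ℂ) * (gr v (Psi C i z l c M x) / ((l * M : ℝ) : ℂ)) +
        (v (Psi C i z l c M x) : ℂ) * gr (χ ∘ (C.φ i).symm) (C.φ i x) := by
    intro x hx
    have hy := hball x hx
    have d1 : DifferentiableAt ℝ (χ ∘ (C.φ i).symm) (C.φ i x) :=
      (hχi.contDiffAt (isOpen_ball.mem_nhds hy)).differentiableAt (by norm_num)
    have d2 : DifferentiableAt ℝ (fun y : ℂ => v (c + (y - z) / ((l * M : ℝ) : ℂ))) (C.φ i x) :=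
      hvg.differentiable (by norm_num) _
    have e1 := gr_mul' d1 d2
    rw [gr_comp_aff (hv.differentiable (by norm_num) _)] at e1
    simp only [Function.comp, (C.φ i).left_inv hx] at e1
    exact e1
  have hgrad : ∀ x, C.grad F x = ((χ x / (l * M * √(C.ρ i (C.φ i x))) : ℝ) : ℂ) *
      gr v (Psi C i z l c M x) + (v (Psi C i z l c M x) : ℂ) * C.grad χ x := by
    intro x
    by_cases hxP : x ∈ piece C i z l
    · have hx := hPs hxP
      have hidx : C.idx x = i := idx_Dp C hxP.1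
      have hy := hball x hx
      have hρ := C.ρ_pos i _ hy
      have hs : (√(C.ρ i (C.φ i x)) : ℂ) ≠ 0 := by
        exact_mod_cast (Real.sqrt_pos.2 hρ).ne'
      have hEq : (F ∘ (C.φ i).symm) =ᶠ[𝓝 (C.φ i x)] f := by
        filter_upwards [isOpen_ball.mem_nhds hy] with y hy'
        simp only [Function.comp]
        rw [hF1 _ ((C.φ i).map_target (htgt y hy')), (C.φ i).right_inv (htgt y hy')]
      have hgrF : gr (F ∘ (C.φ i).symm) (C.φ i x) = gr f (C.φ i x) := by
        unfold gr dx dy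
        rw [hEq.fderiv_eq]
      have e1 : C.grad F x = gr (F ∘ (C.φ i).symm) (C.φ i x) / (√(C.ρ i (C.φ i x)) : ℂ) := by
        unfold CSurf.grad
        rw [hidx]
      have e2 : C.grad χ x = gr (χ ∘ (C.φ i).symm) (C.φ i x) / (√(C.ρ i (C.φ i x)) : ℂ) := by
        unfold CSurf.grad
        rw [hidx]
      have hlM' : ((l * M : ℝ) : ℂ) ≠ 0 := by exact_mod_cast hlM.ne'
      rw [e1, hgrF, hgrf x hx, e2]
      push_cast at hlM' ⊢
      field_simp
    · rw [hχP x hxP, hgP x hxP]
      have hz : C.grad F x = 0 := by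
        by_cases hx : x ∈ (C.φ i).source
        · have hρ := C.ρ_pos i _ (hball x hx)
          have h1 := norm_grad C hχ.c1 hx
          rw [hgP x hxP, norm_zero, zero_pow two_ne_zero] at h1
          have h2 : gr (χ ∘ (C.φ i).symm) (C.φ i x) = 0 := by
            have h3 : ‖gr (χ ∘ (C.φ i).symm) (C.φ i x)‖ ^ 2 = 0 := by
              rcases div_eq_zero_iff.1 h1.symm with h | h
              · exact h
              · exact absurd h hρ.ne'
            exact norm_eq_zero.1 (pow_eq_zero_iff two_ne_zero |>.1 h3)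
          have h4 : gr f (C.φ i x) = 0 := by
            rw [hgrf x hx, h2, hχP x hxP]
            simp
          have h5 := hFg x hx
          rw [h4, norm_zero, zero_pow two_ne_zero, zero_div] at h5
          exact norm_eq_zero.1 (pow_eq_zero_iff two_ne_zero |>.1 h5)
        · exact hFg0 x hx
      rw [hz]
      simp
  -- almost everywhere equality
  have hac : (C.area.restrict (piece C i z l)).map (Psi C i z l c M) ≪ mQ :=
    Measure.absolutelyContinuous_of_le_smul (c := (KΨ : ℝ≥0∞)) hKΨ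
  have hae : ∀ p : ℂ → Prop, (∀ᵐ y ∂mQ, p y) → ∀ᵐ x ∂C.area, x ∈ piece C i z l → p (Psi C i z l c M x) := by
    intro p hp
    have h1 : ∀ᵐ y ∂((C.area.restrict (piece C i z l)).map (Psi C i z l c M)), p y := hac.ae_le hp
    have h2 : ∀ᵐ x ∂(C.area.restrict (piece C i z l)), p (Psi C i z l c M x) := ae_of_ae_map hΨ h1
    exact (ae_restrict_iff' hPm).1 h2
  apply Submodule.le_topologicalClosure
  apply Submodule.subset_span
  refine ⟨F, hFC, ?_, ?_⟩
  · filter_upwards [(hjet U).1, hae _ hU.1] with x h1 h2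
    rw [h1]
    by_cases hxP : x ∈ piece C i z l
    · rw [h2 hxP]
    · simp only [hF]
      rw [hχP x hxP, zero_mul, zero_mul]
  · filter_upwards [(hjet U).2, hae _ hU.1, hae _ hU.2] with x h1 h2 h3
    rw [h1, hgrad]
    by_cases hxP : x ∈ piece C i z l
    · rw [h2 hxP, h3 hxP]
    · rw [hχP x hxP, hgP x hxP]
      simp

end Pool.Agent.Helper82.CLK
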