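import Pool.Agent.Helper82.CLK.Ext

/-!
# Energy of the transplanted functions (module CL-K14b)
-/

set_option maxSynthPendingDepth 3

namespace Pool.Agent.Helper82.CLK

open MeasureTheory Filter Topology Set Metric Pool.Agent.Helper53.CL Pool.Agent.Helper53.CL.K Pool.Agent.Helper53.CL.H
open Pool.Agent.Helper53.CL.C
open scoped ContDiff Real ENNReal NNReal

variable {S : Type*} [TopologicalSpace S] [T2Space S] [MeasurableSpace S] [BorelSpace S] [CompactSpace S]

theorem k14_osq_sub (c : ℂ) (r : ℝ) : osq c r ⊆ sq c r := fun _ h => ⟨h.1.le, h.2.1.le, h.2.2.1.le, h.2.2.2.le⟩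

theorem k14_meas_sq (c : ℂ) (r : ℝ) : MeasurableSet (sq c r) := by
  have h : IsClosed (sq c r) := by
    have h1 : sq c r = {y : ℂ | c.re ≤ y.re} ∩ ({y : ℂ | y.re ≤ c.re + r} ∩
        ({y : ℂ | c.im ≤ y.im} ∩ {y : ℂ | y.im ≤ c.im + r})) := by
      ext y
      rfl
    rw [h1]
    exact (isClosed_le continuous_const Complex.continuous_re).inter
      ((isClosed_le Complex.continuous_re continuous_const).inter
        ((isClosed_le continuous_const Complex.continuous_im).inter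
          (isClosed_le Complex.continuous_im continuous_const)))
  exact h.measurableSet

theorem k14_piece_source (C : CSurf S) (i : Fin C.n) (z : ℂ) (l : ℝ) : piece C i z l ⊆ (C.φ i).source :=
  fun _ h => h.1.1.1

theorem k14_isOpen_piece (C : CSurf S) (i : Fin C.n) (z : ℂ) (l : ℝ) : IsOpen (piece C i z l) :=
  (isOpen_Dp C i).inter (isOpen_otile C i z l)

theorem k14_rho_pos (C : CSurf S) (i : Fin C.n) {x : S} (hx : x ∈ (C.φ i).source) : 0 < C.ρ i (C.φ i x) := by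
  refine C.ρ_pos i _ ?_
  rw [← C.target i]
  exact (C.φ i).map_source hx

/-- Change of variables on the piece: for a nonnegative integrable `F` on the square of the grid,
`∫ over the piece of (ρ i (φ i x))⁻¹ F (Ψ x) dA = ∫ over (φ i) '' piece of F (c + (y - z)/(l M)) dy ≤ (l M)^2 ∫ over sq c (1/M) of F`. -/
theorem integral_piece_le (C : CSurf S) (i : Fin C.n) {z : ℂ} {l : ℝ} (hl : 0 < l) {c : ℂ} {M : ℕ} (hM : 1 ≤ M)
    (hc : sq c (1 / (M : ℝ)) ⊆ Qs) {F : ℂ → ℝ} (hF : Integrable F mQ) (hF0 : ∀ y, 0 ≤ F y) :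
    IntegrableOn (fun x => (C.ρ i (C.φ i x))⁻¹ * F (Psi C i z l c M x)) (piece C i z l) C.area ∧
    ∫ x in piece C i z l, (C.ρ i (C.φ i x))⁻¹ * F (Psi C i z l c M x) ∂C.area ≤
      (l * M) ^ 2 * ∫ y in sq c (1 / (M : ℝ)), F y := by
  have hM0 : (0 : ℝ) < M := by exact_mod_cast hM
  have hlM : 0 < l * M := mul_pos hl hM0
  -- the function `F`, cut off
  set F2 : ℂ → ℝ := (sq c (1 / (M : ℝ))).indicator F with hF2
  have hF2i : Integrable F2 := by
    rw [hF2, integrable_indicator_iff (k14_meas_sq _ _)]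
    have h1 : IntegrableOn F Qs := hF
    exact h1.mono_set hc
  have hF20 : ∀ y, 0 ≤ F2 y := fun y => indicator_nonneg (fun _ _ => hF0 _) _
  set A : ℂ → ℂ := fun y => c + (y - z) / ((l * M : ℝ) : ℂ) with hA
  have hAeq : ∀ y, A y = (c - z / ((l * M : ℝ) : ℂ)) + (l * M)⁻¹ • y := by
    intro y
    rw [Complex.real_smul]
    push_cast
    simp only [hA]
    push_cast
    ring
  have hAi : Integrable fun y => F2 (A y) := by
    have h1 := (hF2i.comp_add_left (c - z / ((l * M : ℝ) : ℂ))).comp_smul (R := (l * M)⁻¹) (by positivity)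
    refine h1.congr (Eventually.of_forall fun y => ?_)
    show F2 _ = F2 _
    rw [hAeq]
  have hAint : ∫ y, F2 (A y) = (l * M) ^ 2 * ∫ y in sq c (1 / (M : ℝ)), F y := by
    have h1 : ∫ y, F2 (A y) = ∫ y, (fun t => F2 ((c - z / ((l * M : ℝ) : ℂ)) + t)) ((l * M)⁻¹ • y) := by
      refine integral_congr_ae (Eventually.of_forall fun y => ?_)
      show F2 _ = F2 _
      rw [hAeq]
    rw [h1, Measure.integral_comp_smul volume (fun t => F2 ((c - z / ((l * M : ℝ) : ℂ)) + t)) (l * M)⁻¹,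
      Complex.finrank_real_complex, integral_add_left_eq_self F2,
      abs_of_nonneg (by positivity), smul_eq_mul, hF2, integral_indicator (k14_meas_sq _ _)]
    congr 1
    field_simp
  -- the open set
  set G : S → ℝ := fun x => (C.ρ i (C.φ i x))⁻¹ * F (Psi C i z l c M x) with hG
  set P := piece C i z l with hP
  have hPs : P ⊆ (C.φ i).source := k14_piece_source C i z l
  have hPo : IsOpen P := k14_isOpen_piece C i z l
  set U : Set ℂ := ball (0 : ℂ) 3 ∩ (C.φ i).symm ⁻¹' P with hU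
  have hUo : IsOpen U := by
    rw [hU, ← C.target i]
    exact (C.φ i).symm.isOpen_inter_preimage hPo
  have hkey : ∀ y ∈ ball (0 : ℂ) 3, C.ρ i y • (P.indicator G) ((C.φ i).symm y) = U.indicator (fun y => F2 (A y)) y := by
    intro y hy
    have hyt : y ∈ (C.φ i).target := by
      rw [C.target i]
      exact hy
    by_cases h : (C.φ i).symm y ∈ P
    · rw [indicator_of_mem h, indicator_of_mem (show y ∈ U from ⟨hy, h⟩)]
      have h1 : Psi C i z l c M ((C.φ i).symm y) = A y := by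
        unfold Psi
        rw [(C.φ i).right_inv hyt]
      have h2 : Psi C i z l c M ((C.φ i).symm y) ∈ osq c (1 / (M : ℝ)) := Psi_mem C i hl c hM h.2
      have h3 : F2 (A y) = F (A y) := by
        rw [hF2, indicator_of_mem]
        rw [← h1]
        exact k14_osq_sub _ _ h2
      rw [h3]
      simp only [hG, smul_eq_mul]
      rw [h1, (C.φ i).right_inv hyt, ← mul_assoc, mul_inv_cancel₀ (C.ρ_pos i y hy).ne', one_mul]
    · rw [indicator_of_notMem h, indicator_of_notMem (fun h' => h h'.2), smul_zero]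
  have hHi : IntegrableOn (fun y => C.ρ i y • (P.indicator G) ((C.φ i).symm y)) (ball (0 : ℂ) 3) := by
    refine IntegrableOn.congr_fun (f := U.indicator fun y => F2 (A y)) ?_ (fun y hy => (hkey y hy).symm)
      measurableSet_ball
    exact (hAi.indicator hUo.measurableSet).integrableOn
  have hint : IntegrableOn G P C.area := by
    have h1 : IntegrableOn (P.indicator G) (C.φ i).source C.area := (integrable_chart C i _).2 hHi
    have h2 : IntegrableOn (P.indicator G) P C.area := h1.mono_set hPs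
    exact h2.congr_fun (fun x hx => indicator_of_mem hx G) hPo.measurableSet
  refine ⟨hint, ?_⟩
  have h1 : ∫ x in P, G x ∂C.area = ∫ x in (C.φ i).source, P.indicator G x ∂C.area := by
    rw [setIntegral_indicator hPo.measurableSet, inter_eq_right.2 hPs]
  rw [h1, integral_chart]
  calc ∫ y in ball (0 : ℂ) 3, C.ρ i y • P.indicator G ((C.φ i).symm y)
      = ∫ y in ball (0 : ℂ) 3, U.indicator (fun y => F2 (A y)) y :=
        setIntegral_congr_fun measurableSet_ball hkey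
    _ ≤ ∫ y, U.indicator (fun y => F2 (A y)) y :=
        setIntegral_le_integral (hAi.indicator hUo.measurableSet)
          (Eventually.of_forall fun y => indicator_nonneg (fun _ _ => hF20 _) _)
    _ ≤ ∫ y, F2 (A y) := by
        refine integral_mono (hAi.indicator hUo.measurableSet) hAi fun y => ?_
        exact indicator_le_self' (fun _ _ => hF20 _) y
    _ = _ := hAint

theorem k14_ae (C : CSurf S) (i : Fin C.n) {z : ℂ} {l : ℝ} (hl : 0 < l) {c : ℂ} {M : ℕ} (hM : 1 ≤ M)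
    (hc : sq c (1 / (M : ℝ)) ⊆ Qs) {p : ℂ → Prop} (hp : ∀ᵐ y ∂mQ, p y) :
    ∀ᵐ x ∂C.area.restrict (piece C i z l), p (Psi C i z l c M x) := by
  obtain ⟨h1, K, hK⟩ := map_Psi_le C i hl hM hc
  have h2 : (C.area.restrict (piece C i z l)).map (Psi C i z l c M) ≪ mQ :=
    Measure.absolutelyContinuous_of_le_smul hK
  exact ae_of_ae_map h1 (h2.ae_le hp)

theorem k14_ind (C : CSurf S) {P : Set S} (hP : MeasurableSet P) {K δ : ℝ} (hK : 0 ≤ K) (hδ : 0 < δ) {χ : S → ℝ}
    (hχ : CutFam C K δ χ) (hχ1 : C.area {x | x ∈ P ∧ χ x ≠ 1} ≤ ENNReal.ofReal (K * δ)) {B : ℝ} (hB : 0 ≤ B) :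
    IntegrableOn ({x | χ x ≠ 1}.indicator fun _ => B) P C.area ∧
      ∫ x in P, {x | χ x ≠ 1}.indicator (fun _ => B) x ∂C.area ≤ B * (K * δ) := by
  have hfin := area_finite C
  have hm : MeasurableSet {x | χ x ≠ 1} :=
    (isOpen_ne.preimage (continuous_of_isC1 C hχ.c1)).measurableSet
  refine ⟨((integrable_const B).indicator hm).integrableOn, ?_⟩
  rw [integral_indicator_const _ hm, smul_eq_mul, mul_comm]
  refine mul_le_mul_of_nonneg_left ?_ hB
  rw [measureReal_def, Measure.restrict_apply hm]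
  refine ENNReal.toReal_le_of_le_ofReal (by positivity) ?_
  have h1 : {x | χ x ≠ 1} ∩ P = {x | x ∈ P ∧ χ x ≠ 1} := by
    ext x
    exact and_comm
  rw [h1]
  exact hχ1

/-- Dirichlet part on one piece: `‖a + b‖^2 ≤ (1 + d') ‖a‖^2 + (1 + 1/d') ‖b‖^2`; the first term by `integral_piece_le` with
`F = ‖V.snd‖^2` (`χ ≤ 1`); the second: `grad χ ≠ 0` only where `χ ≠ 1` in the piece, `‖grad χ‖ ≤ K/δ`, `|V.fst| ≤ π + 1`, area
`≤ K δ`. -/
theorem ext_dirichlet (C : CSurf S) (i : Fin C.n) {z : ℂ} {l : ℝ} (hl : 0 < l) {c : ℂ} {M : ℕ} (hM : 1 ≤ M)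
    (hc : sq c (1 / (M : ℝ)) ⊆ Qs) {K δ : ℝ} (hK : 0 ≤ K) (hδ : 0 < δ) {χ : S → ℝ} (hχ : CutFam C K δ χ)
    (hχ0 : ∀ x, χ x ≠ 0 → x ∈ piece C i z l)
    (hχ1 : C.area {x | x ∈ piece C i z l ∧ χ x ≠ 1} ≤ ENNReal.ofReal (K * δ)) {V : JetSp mQ}
    (hV : ∀ᵐ y ∂mQ, |V.fst y| ≤ π + 1) {d' : ℝ} (hd' : 0 < d') :
    ∫ x in piece C i z l, ‖((χ x / (l * M * √(C.ρ i (C.φ i x))) : ℝ) : ℂ) * V.snd (Psi C i z l c M x) +
          ((V.fst (Psi C i z l c M x) : ℝ) : ℂ) * C.grad χ x‖ ^ 2 ∂C.area ≤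
      (1 + d') * (∫ y in sq c (1 / (M : ℝ)), ‖V.snd y‖ ^ 2) + (1 + 1 / d') * (π + 1) ^ 2 * K ^ 3 / δ := by
  have hpi := Real.pi_pos
  have hM0 : (0 : ℝ) < M := by exact_mod_cast hM
  have hlM : 0 < l * M := mul_pos hl hM0
  have hPm : MeasurableSet (piece C i z l) := (k14_isOpen_piece C i z l).measurableSet
  have hsq : Integrable (fun y => ‖V.snd y‖ ^ 2) mQ := (Lp.memLp V.snd).integrable_norm_pow (by norm_num)
  obtain ⟨i1, e1⟩ := integral_piece_le C i (z := z) hl hM hc hsq (fun y => by positivity)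
  obtain ⟨i2, e2⟩ := k14_ind C hPm hK hδ hχ hχ1 (B := (1 + 1 / d') * ((π + 1) ^ 2 * (K / δ) ^ 2)) (by positivity)
  have hb := k14_ae C i (z := z) hl hM hc hV
  have hint := (i1.const_mul ((1 + d') * ((l * M) ^ 2)⁻¹)).add i2
  calc ∫ x in piece C i z l, ‖((χ x / (l * M * √(C.ρ i (C.φ i x))) : ℝ) : ℂ) * V.snd (Psi C i z l c M x) +
          ((V.fst (Psi C i z l c M x) : ℝ) : ℂ) * C.grad χ x‖ ^ 2 ∂C.area
      ≤ ∫ x in piece C i z l, ((1 + d') * ((l * M) ^ 2)⁻¹ * ((C.ρ i (C.φ i x))⁻¹ * ‖V.snd (Psi C i z l c M x)‖ ^ 2) +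
          {x | χ x ≠ 1}.indicator (fun _ => (1 + 1 / d') * ((π + 1) ^ 2 * (K / δ) ^ 2)) x) ∂C.area := by
        refine integral_mono_of_nonneg (Eventually.of_forall fun x => by positivity) hint ?_
        filter_upwards [hb, ae_restrict_mem hPm] with x hx hxP
        have hρ := k14_rho_pos C i (k14_piece_source C i z l hxP)
        set a : ℂ := ((χ x / (l * M * √(C.ρ i (C.φ i x))) : ℝ) : ℂ) * V.snd (Psi C i z l c M x) with ha
        set b : ℂ := ((V.fst (Psi C i z l c M x) : ℝ) : ℂ) * C.grad χ x with hb'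
        have h1 : ‖a + b‖ ^ 2 ≤ (1 + d') * ‖a‖ ^ 2 + (1 + 1 / d') * ‖b‖ ^ 2 := by
          have h2 : ‖a + b‖ ^ 2 ≤ (‖a‖ + ‖b‖) ^ 2 := pow_le_pow_left₀ (norm_nonneg _) (norm_add_le _ _) 2
          have h3 : 0 ≤ (d' * ‖a‖ - ‖b‖) ^ 2 / d' := by positivity
          have h4 : (d' * ‖a‖ - ‖b‖) ^ 2 / d' = d' * ‖a‖ ^ 2 - 2 * ‖a‖ * ‖b‖ + 1 / d' * ‖b‖ ^ 2 := by
            field_simp
            ring
          rw [h4] at h3
          nlinarith
        have h5 : ‖a‖ ^ 2 ≤ ((l * M) ^ 2)⁻¹ * ((C.ρ i (C.φ i x))⁻¹ * ‖V.snd (Psi C i z l c M x)‖ ^ 2) := by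
          rw [ha, norm_mul, Complex.norm_real, Real.norm_eq_abs, mul_pow, sq_abs, div_pow, mul_pow, Real.sq_sqrt hρ.le]
          have h6 : χ x ^ 2 ≤ 1 := pow_le_one₀ (hχ.nonneg x) (hχ.le_one x)
          have h7 : χ x ^ 2 / ((l * M) ^ 2 * C.ρ i (C.φ i x)) ≤ 1 / ((l * M) ^ 2 * C.ρ i (C.φ i x)) :=
            div_le_div_of_nonneg_right h6 (by positivity)
          calc χ x ^ 2 / ((l * M) ^ 2 * C.ρ i (C.φ i x)) * ‖V.snd (Psi C i z l c M x)‖ ^ 2
              ≤ 1 / ((l * M) ^ 2 * C.ρ i (C.φ i x)) * ‖V.snd (Psi C i z l c M x)‖ ^ 2 :=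
                mul_le_mul_of_nonneg_right h7 (by positivity)
            _ = _ := by
                rw [one_div, mul_inv]
                ring
        have h8 : (1 + 1 / d') * ‖b‖ ^ 2 ≤
            {x | χ x ≠ 1}.indicator (fun _ => (1 + 1 / d') * ((π + 1) ^ 2 * (K / δ) ^ 2)) x := by
          by_cases hx1 : χ x = 1
          · have h9 : C.grad χ x = 0 := hχ.grad_eq_zero (Or.inr hx1)
            rw [hb', h9, mul_zero, norm_zero, indicator_of_notMem (show x ∉ {x | χ x ≠ 1} from fun h => h hx1)]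
            simp
          · rw [indicator_of_mem (show x ∈ {x | χ x ≠ 1} from hx1)]
            refine mul_le_mul_of_nonneg_left ?_ (by positivity)
            rw [hb', norm_mul, Complex.norm_real, Real.norm_eq_abs, mul_pow]
            exact mul_le_mul (pow_le_pow_left₀ (abs_nonneg _) hx 2)
              (pow_le_pow_left₀ (norm_nonneg _) (hχ.bound x) 2) (by positivity) (by positivity)
        have h10 : (1 + d') * ‖a‖ ^ 2 ≤ (1 + d') *
            (((l * M) ^ 2)⁻¹ * ((C.ρ i (C.φ i x))⁻¹ * ‖V.snd (Psi C i z l c M x)‖ ^ 2)) :=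
          mul_le_mul_of_nonneg_left h5 (by positivity)
        rw [← mul_assoc] at h10
        show ‖a + b‖ ^ 2 ≤ _
        linarith
    _ = (1 + d') * ((l * M) ^ 2)⁻¹ * ∫ x in piece C i z l, (C.ρ i (C.φ i x))⁻¹ * ‖V.snd (Psi C i z l c M x)‖ ^ 2 ∂C.area +
          ∫ x in piece C i z l,
            {x | χ x ≠ 1}.indicator (fun _ => (1 + 1 / d') * ((π + 1) ^ 2 * (K / δ) ^ 2)) x ∂C.area := by
        rw [integral_add (i1.const_mul _) i2, integral_const_mul]
    _ ≤ (1 + d') * ((l * M) ^ 2)⁻¹ * ((l * M) ^ 2 * ∫ y in sq c (1 / (M : ℝ)), ‖V.snd y‖ ^ 2) +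
          (1 + 1 / d') * ((π + 1) ^ 2 * (K / δ) ^ 2) * (K * δ) :=
        add_le_add (mul_le_mul_of_nonneg_left e1 (by positivity)) e2
    _ = _ := by
        field_simp

theorem k14_Wt_le {s : ℝ} (h : |s| ≤ π + 1) : Wt s ≤ 2 := by
  unfold Wt
  split_ifs with h1
  · have := Real.cos_le_one s
    linarith
  · have h2 : 0 ≤ |s| - π := by linarith [not_le.1 h1]
    have h3 : |s| - π ≤ 1 := by linarith
    nlinarith

/-- Potential part on one piece: where `χ = 1` use `integral_piece_le` with `F = Wt (V.fst)` and `C.a w i y * l^2 ≤ l₀^2`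
(`w x = a (φ x) ρ⁻¹`); where `χ ≠ 1`: `Wt ≤ 2` on `[-π-1, π+1]` (`|χ V.fst| ≤ π + 1`), `w ≤ Cw`, area `≤ K δ`. -/
theorem ext_potential (C : CSurf S) (i : Fin C.n) {z : ℂ} {l : ℝ} (hl : 0 < l) {c : ℂ} {M : ℕ} (hM : 1 ≤ M)
    (hc : sq c (1 / (M : ℝ)) ⊆ Qs) {K δ : ℝ} (hK : 0 ≤ K) (hδ : 0 < δ) {χ : S → ℝ} (hχ : CutFam C K δ χ)
    (hχ1 : C.area {x | x ∈ piece C i z l ∧ χ x ≠ 1} ≤ ENNReal.ofReal (K * δ)) {V : JetSp mQ}
    (hV : ∀ᵐ y ∂mQ, |V.fst y| ≤ π + 1) {w : S → ℝ} (hw : IsWeight w) (hw0 : ∀ x, 0 ≤ w x) {Cw : ℝ} (hCw : ∀ x, w x ≤ Cw) {l₀ : ℝ}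
    (ha : ∀ y ∈ sq z l, C.a w i y * l ^ 2 ≤ l₀ ^ 2) :
    ∫ x in piece C i z l, w x * Wt (χ x * V.fst (Psi C i z l c M x)) ∂C.area ≤
      (l₀ * M) ^ 2 * (∫ y in sq c (1 / (M : ℝ)), Wt (V.fst y)) + 2 * Cw * K * δ := by
  have hpi := Real.pi_pos
  have hM0 : (0 : ℝ) < M := by exact_mod_cast hM
  have hlM : 0 < l * M := mul_pos hl hM0
  have hfinQ : IsFiniteMeasure mQ := inferInstance
  have hPm : MeasurableSet (piece C i z l) := (k14_isOpen_piece C i z l).measurableSet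
  have hCw0 : 0 ≤ Cw := by
    have h0 : (0 : ℂ) ∈ (C.φ i).target := by
      rw [C.target i]
      exact mem_ball_self (by norm_num)
    exact (hw0 _).trans (hCw ((C.φ i).symm 0))
  have hw1 : IsWeight (fun _ : ℂ => (1 : ℝ)) := ⟨measurable_const, 1, 1, one_pos, fun _ => ⟨le_rfl, le_rfl⟩⟩
  have hWi : Integrable (fun y => Wt (V.fst y)) mQ := by
    have := integrable_Wt hw1 V.fst
    simpa using this
  obtain ⟨i1, e1⟩ := integral_piece_le C i (z := z) hl hM hc hWi (fun y => Wt_nonneg _)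
  obtain ⟨i2, e2⟩ := k14_ind C hPm hK hδ hχ hχ1 (B := 2 * Cw) (by positivity)
  have hb := k14_ae C i (z := z) hl hM hc hV
  have hint := (i1.const_mul ((l₀ / l) ^ 2)).add i2
  calc ∫ x in piece C i z l, w x * Wt (χ x * V.fst (Psi C i z l c M x)) ∂C.area
      ≤ ∫ x in piece C i z l, ((l₀ / l) ^ 2 * ((C.ρ i (C.φ i x))⁻¹ * Wt (V.fst (Psi C i z l c M x))) +
          {x | χ x ≠ 1}.indicator (fun _ => 2 * Cw) x) ∂C.area := by
        refine integral_mono_of_nonneg (Eventually.of_forall fun x => mul_nonneg (hw0 x) (Wt_nonneg _)) hint ?_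
        filter_upwards [hb, ae_restrict_mem hPm] with x hx hxP
        have hxs := k14_piece_source C i z l hxP
        have hρ := k14_rho_pos C i hxs
        have hWn := Wt_nonneg (V.fst (Psi C i z l c M x))
        show w x * Wt (χ x * V.fst (Psi C i z l c M x)) ≤ _
        by_cases hx1 : χ x = 1
        · rw [hx1, one_mul, indicator_of_notMem (show x ∉ {x | χ x ≠ 1} from fun h => h hx1), add_zero, ← mul_assoc]
          refine mul_le_mul_of_nonneg_right ?_ hWn
          have h1 : C.φ i x ∈ sq z l := k14_osq_sub _ _ hxP.2.2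
          have h2 := ha _ h1
          unfold CSurf.a at h2
          rw [(C.φ i).left_inv hxs] at h2
          rw [div_pow, ← div_eq_mul_inv, div_div, le_div_iff₀ (by positivity)]
          nlinarith
        · rw [indicator_of_mem (show x ∈ {x | χ x ≠ 1} from hx1)]
          have h1 : |χ x * V.fst (Psi C i z l c M x)| ≤ π + 1 := by
            rw [abs_mul, abs_of_nonneg (hχ.nonneg x)]
            calc χ x * |V.fst (Psi C i z l c M x)| ≤ 1 * (π + 1) :=
                  mul_le_mul (hχ.le_one x) hx (abs_nonneg _) zero_le_one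
              _ = π + 1 := one_mul _
          have h2 := k14_Wt_le h1
          have h3 : w x * Wt (χ x * V.fst (Psi C i z l c M x)) ≤ Cw * 2 :=
            mul_le_mul (hCw x) h2 (Wt_nonneg _) hCw0
          have h4 : 0 ≤ (l₀ / l) ^ 2 * ((C.ρ i (C.φ i x))⁻¹ * Wt (V.fst (Psi C i z l c M x))) := by positivity
          linarith
    _ = (l₀ / l) ^ 2 * ∫ x in piece C i z l, (C.ρ i (C.φ i x))⁻¹ * Wt (V.fst (Psi C i z l c M x)) ∂C.area +
          ∫ x in piece C i z l, {x | χ x ≠ 1}.indicator (fun _ => 2 * Cw) x ∂C.area := by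
        rw [integral_add (i1.const_mul _) i2, integral_const_mul]
    _ ≤ (l₀ / l) ^ 2 * ((l * M) ^ 2 * ∫ y in sq c (1 / (M : ℝ)), Wt (V.fst y)) + 2 * Cw * (K * δ) :=
        add_le_add (mul_le_mul_of_nonneg_left e1 (by positivity)) e2
    _ = _ := by
        field_simp

end Pool.Agent.Helper82.CLK
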