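import Pool.Agent.Helper82.CLK.Upper
import Pool.Agent.Helper53.CL.K.K07
import Pool.Agent.Helper53.CL.Iface

/-!
# Sublevel sets of large genus on the surface (module CL-K16)
-/

set_option maxSynthPendingDepth 3

namespace Pool.Agent.Helper82.CLK

open MeasureTheory Filter Topology Set Metric Pool.Agent.Helper53.CL Pool.Agent.Helper53.CL.K Pool.Agent.Helper53.CL.H
open Pool.Agent.Helper53.CL.C
open scoped ContDiff Real ENNReal NNReal

variable {S : Type*} [TopologicalSpace S] [T2Space S] [MeasurableSpace S] [BorelSpace S] [CompactSpace S]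

/-- `upper` for `w = 1`, `ε = 1/2`, `d = d' = 1`; `large_HQ` (K07) for the square, `pull_bound`, then `large_of` for general `ε`, `w`. -/
theorem large_HS (hB : BUprop) (hQ : IsESpace HQ) (hQc : CompStable HQ) (C : CSurf S) : Iface.Large C.HS := by
  intro ε hε w hw p
  have _ := hQ
  haveI : IsFiniteMeasure C.area := area_finite C
  have hw1 : IsWeight (fun _ : S => (1 : ℝ)) := ⟨measurable_const, 1, 1, one_pos, fun _ => ⟨le_rfl, le_rfl⟩⟩
  have hwQ : IsWeight (fun _ : ℂ => (1 : ℝ)) := ⟨measurable_const, 1, 1, one_pos, fun _ => ⟨le_rfl, le_rfl⟩⟩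
  obtain ⟨l₀, hl₀, M, hM, -, β, hβ, hT⟩ := upper C hQc (w := fun _ => 1) (fun i => contDiffOn_const)
    (fun _ => one_pos) (d := 1) one_pos (d' := 1) one_pos
  obtain ⟨T, hTc, hTo, hE⟩ := hT (1 / 2) ⟨by norm_num, by norm_num⟩
  have hM0 : (0 : ℝ) < M := by exact_mod_cast hM
  have hα : (0 : ℝ) ≤ (1 + 1) * (M * l₀) := by positivity
  obtain ⟨c, hc⟩ := large_HQ hB (1 / 2 / (M * l₀)) (by positivity) (fun _ => 1) hwQ p
  have h1 := pull_bound hTc hTo hα hE hc
  exact large_of (by norm_num) hε hw1 hw ⟨_, h1⟩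

end Pool.Agent.Helper82.CLK
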