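import Pool.Agent.Helper82.CLK.Restr
import Pool.Agent.Helper53.CL.K.K01

/-!
# Lower bound of the widths of the surface (module CL-K12)
-/

set_option maxSynthPendingDepth 3

namespace Pool.Agent.Helper82.CLK

open MeasureTheory Filter Topology Set Metric Pool.Agent.Helper53.CL Pool.Agent.Helper53.CL.K Pool.Agent.Helper53.CL.H
open Pool.Agent.Helper53.CL.C
open scoped ContDiff Real ENNReal NNReal

variable {S : Type*} [TopologicalSpace S] [T2Space S] [MeasurableSpace S] [BorelSpace S] [CompactSpace S]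

private theorem norm_snd_sq {Ω : Type*} [MeasurableSpace Ω] {A : Measure Ω} (u : Lp ℂ 2 A) :
    ‖u‖ ^ 2 = ∫ x, ‖u x‖ ^ 2 ∂A := by
  rw [← real_inner_self_eq_norm_sq, L2.inner_def]
  simp only [real_inner_self_eq_norm_sq]

private theorem integrable_snd_sq {Ω : Type*} [MeasurableSpace Ω] {A : Measure Ω} (u : Lp ℂ 2 A) :
    Integrable (fun x => ‖u x‖ ^ 2) A :=
  (memLp_two_iff_integrable_sq_norm (Lp.aestronglyMeasurable u)).1 (Lp.memLp u)

omit [CompactSpace S] in
private theorem otile_sub_Dp (C : CSurf S) {i : Fin C.n} {z : ℂ} {l : ℝ} (h : sq z l ⊆ Gp C i) :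
    otile C i z l ⊆ Dp C i := by
  rintro x ⟨hx, hy⟩
  have h1 : C.φ i x ∈ sq z l := ⟨hy.1.le, hy.2.1.le, hy.2.2.1.le, hy.2.2.2.le⟩
  have h2 := h h1
  have h3 : C.φ i x ∈ ball (0 : ℂ) 3 := by
    rw [← C.target i]
    exact (C.φ i).map_source hx
  have h4 := (mem_Gp C i h3).1 h2
  rwa [(C.φ i).left_inv hx] at h4

omit [CompactSpace S] in
/-- The sum of the integrals over the tiles is at most the integral over the surface. -/
private theorem sum_tile_le (C : CSurf S) {N : ℕ} {i : Fin N → Fin C.n} {z : Fin N → ℂ} {lam : Fin N → ℝ}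
    (hsub : ∀ k, sq (z k) (lam k) ⊆ Gp C (i k))
    (hdisj : ∀ k k', k ≠ k' → i k = i k' → Disjoint (osq (z k) (lam k)) (osq (z k') (lam k')))
    {f : S → ℝ} (hf : Integrable f C.area) (h0 : ∀ x, 0 ≤ f x) :
    ∑ k, ∫ x in tile C (i k) (z k) (lam k), f x ∂C.area ≤ ∫ x, f x ∂C.area := by
  have h3 : ∀ k, sq (z k) (lam k) ⊆ ball (0 : ℂ) 3 := fun k =>
    (hsub k).trans ((Gp_subset C (i k)).trans (ball_subset_ball (by norm_num)))
  have h1 : ∀ k, ∫ x in tile C (i k) (z k) (lam k), f x ∂C.area =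
      ∫ x in otile C (i k) (z k) (lam k), f x ∂C.area := fun k => by
    rw [restrict_otile C (i k) (h3 k)]
  have h2 : Pairwise (Function.onFun Disjoint fun k => otile C (i k) (z k) (lam k)) := by
    intro k k' hkk
    rw [Function.onFun, Set.disjoint_left]
    intro x hx hx'
    have e1 : i k = i k' :=
      (idx_Dp C (otile_sub_Dp C (hsub k) hx)).symm.trans (idx_Dp C (otile_sub_Dp C (hsub k') hx'))
    have e2 := hdisj k k' hkk e1
    rw [Set.disjoint_left] at e2
    have e3 : C.φ (i k) x ∈ osq (z k') (lam k') := by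
      rw [e1]
      exact hx'.2
    exact e2 hx.2 e3
  simp only [h1]
  rw [← integral_iUnion_fintype (fun k => (isOpen_otile C (i k) (z k) (lam k)).measurableSet) h2
    fun k => hf.integrableOn]
  exact setIntegral_le_integral hf (Eventually.of_forall h0)

/-- `exists_pack` for `G = Gp C`, `a = C.a w` (`isOpen_Gp`, `Gp_subset`), `∑ ∫ over Gp of a = ∫ w` (`integral_Dp`).  `R k` from
`exists_restr`, energies by `restr_energy`; the tiles `tile C (i k) (z k) (lam k) ⊆ Dp C (i k)` are disjoint up to null sets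
(`restrict_otile`, the open squares are disjoint for equal `i k`, the `Dp C i` are disjoint by `idx_Dp`), so the sum of the
integrals over the tiles is at most the integral over `S`.  Then `superadd` with `κ = l₀`, `ε' = ε / l₀`, `w' = 1`. -/
theorem lower (C : CSurf S) (hQ : IsESpace HQ) {w : S → ℝ} (hw : C.IsSmooth w) (hpos : ∀ x, 0 < w x) {d : ℝ}
    (hd : 0 < d) : ∃ l₀ > 0, ∃ N : ℕ, ∫ x, w x ∂C.area - d ≤ N * l₀ ^ 2 ∧ ∀ ε > 0, ∀ q : ℕ,
      (∃ c, ¬ GenusLE (sub C.HS ε w c) (N * q)) →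
      l₀ * N * width HQ (ε / l₀) (fun _ => 1) q ≤ width C.HS ε w (N * q) := by
  have hfin : IsFiniteMeasure C.area := area_finite C
  have hwW : IsWeight w := isWeight_smooth C hw hpos
  have hw1 : IsWeight (fun _ : ℂ => (1 : ℝ)) := ⟨measurable_const, 1, 1, one_pos, fun _ => ⟨le_rfl, le_rfl⟩⟩
  have hcb : closedBall (0 : ℂ) 2 ⊆ ball 0 3 := closedBall_subset_ball (by norm_num)
  have ha : ∀ i, ContinuousOn (C.a w i) (closedBall 0 2) := fun i =>
    ((C.ρ_smooth i).continuousOn.mul (hw i).continuousOn).mono hcb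
  have hp : ∀ i, ∀ z ∈ closedBall (0 : ℂ) 2, 0 < C.a w i z := fun i z hz =>
    mul_pos (C.ρ_pos i z (hcb hz)) (hpos _)
  have hwi : Integrable w C.area := by
    obtain ⟨c, K, hc, hK⟩ := hwW.2
    refine Integrable.of_bound hwW.1.aestronglyMeasurable K (Eventually.of_forall fun x => ?_)
    rw [Real.norm_eq_abs, abs_of_pos (hpos x)]
    exact (hK x).2
  obtain ⟨l, N, i, z, lam, hl, hlam, hsub, hdisj, hl2, hsum⟩ :=
    exists_pack (isOpen_Gp C) (Gp_subset C) ha hp hd
  refine ⟨l, hl, N, ?_, fun ε hε q hL => ?_⟩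
  · rw [integral_Dp C hwi]
    exact hsum
  choose R R₁ e1 e2 e3 using fun k => exists_restr C (i k) (hlam k) (hsub k)
  refine superadd (H := C.HS) (H' := HQ) hQ hε (div_pos hε hl) hwW hw1 (fun k => R₁ k)
    (fun k => (R₁ k).continuous) (fun k u => map_neg (R₁ k) u) hl ?_ hL
  intro U hU
  refine ⟨fun k => R k U, fun k => ⟨e3 k U hU, e1 k U⟩, ?_⟩
  have g1 : ∀ k, l * en (ε / l) (fun _ => 1) (R k U) ≤
      ε / 2 * ∫ x in tile C (i k) (z k) (lam k), ‖U.snd x‖ ^ 2 ∂C.area +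
      1 / ε * ∫ x in tile C (i k) (z k) (lam k), w x * Wt (U.fst x) ∂C.area := fun k =>
    restr_energy C (i k) (hlam k) (hsub k) hwW hl (hl2 k) hε (e2 k U)
  have g2 := sum_tile_le C hsub hdisj (integrable_snd_sq U.snd) fun x => sq_nonneg _
  have g3 := sum_tile_le C hsub hdisj (integrable_Wt hwW U.fst) fun x =>
    mul_nonneg (hpos x).le (Wt_nonneg _)
  calc l * ∑ k, en (ε / l) (fun _ => 1) (R k U) = ∑ k, l * en (ε / l) (fun _ => 1) (R k U) :=
        Finset.mul_sum _ _ _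
    _ ≤ ∑ k, (ε / 2 * ∫ x in tile C (i k) (z k) (lam k), ‖U.snd x‖ ^ 2 ∂C.area +
        1 / ε * ∫ x in tile C (i k) (z k) (lam k), w x * Wt (U.fst x) ∂C.area) :=
        Finset.sum_le_sum fun k _ => g1 k
    _ = ε / 2 * ∑ k, ∫ x in tile C (i k) (z k) (lam k), ‖U.snd x‖ ^ 2 ∂C.area +
        1 / ε * ∑ k, ∫ x in tile C (i k) (z k) (lam k), w x * Wt (U.fst x) ∂C.area := by
        rw [Finset.sum_add_distrib, Finset.mul_sum, Finset.mul_sum]
    _ ≤ en ε w U := by
        unfold en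
        rw [norm_snd_sq U.snd]
        gcongr

end Pool.Agent.Helper82.CLK
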