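import Pool.Agent.Helper82.CLK.Tile

/-!
# Restriction of a function to a tile (module CL-K12a)
-/

set_option maxSynthPendingDepth 3

namespace Pool.Agent.Helper82.CLK

open MeasureTheory Filter Topology Set Metric Pool.Agent.Helper53.CL Pool.Agent.Helper53.CL.K Pool.Agent.Helper53.CL.H
open Pool.Agent.Helper53.CL.C
open scoped ContDiff Real ENNReal NNReal

variable {S : Type*} [TopologicalSpace S] [T2Space S] [MeasurableSpace S] [BorelSpace S] [CompactSpace S]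

private theorem rs_mQ : mQ.restrict Qs = mQ := by
  rw [mQ, Measure.restrict_restrict tl_Qs.measurableSet, inter_self]

omit [TopologicalSpace S] [T2Space S] [MeasurableSpace S] [BorelSpace S] [CompactSpace S] in
private theorem rs_gr {f : ℂ → ℝ} {z : ℂ} {l : ℝ} {y : ℂ} (hd : DifferentiableAt ℝ f (aff z l y)) :
    gr (fun y => f (aff z l y)) y = (l : ℂ) * gr f (aff z l y) := by
  have h1 : HasFDerivAt (aff z l) (l • ContinuousLinearMap.id ℝ ℂ) y := by
    have h2 : aff z l = fun y => z + l • y := by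
      funext y
      simp [aff]
    rw [h2]
    exact ((hasFDerivAt_id y).const_smul l).const_add _
  have h3 : fderiv ℝ (fun y => f (aff z l y)) y =
      (fderiv ℝ f (aff z l y)).comp (l • ContinuousLinearMap.id ℝ ℂ) := (hd.hasFDerivAt.comp y h1).fderiv
  unfold gr dx dy
  rw [h3]
  apply Complex.ext
  · simp
  · simp

/-- A function of class `C^1` near the unit square coincides there with a function of class `C^1` on the plane. -/
private theorem rs_ext {Ω : Set ℂ} (hΩ : IsOpen Ω) (hQ : Qs ⊆ Ω) {g : ℂ → ℝ} (hg : ContDiffOn ℝ 1 g Ω) :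
    ∃ f : ℂ → ℝ, ContDiff ℝ 1 f ∧ ∀ y ∈ Qs, f =ᶠ[𝓝 y] g := by
  obtain ⟨t, ht, hQt, htΩ⟩ := exists_compact_between tl_comp hΩ hQ
  obtain ⟨χ, hχ1, hχ0, -⟩ := exists_contMDiffMap_one_nhds_of_subset_interior (n := ⊤)
    (modelWithCornersSelf ℝ ℂ) tl_Qs hQt
  have hχ : ContDiff ℝ ∞ χ := χ.contMDiff.contDiff
  refine ⟨fun y => χ y * g y, ?_, ?_⟩
  · rw [contDiff_iff_contDiffAt]
    intro x
    by_cases hx : x ∈ Ω
    · exact (hχ.contDiffAt.of_le (by simp)).mul (hg.contDiffAt (hΩ.mem_nhds hx))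
    · have h1 : (fun y => χ y * g y) =ᶠ[𝓝 x] fun _ => 0 := by
        filter_upwards [ht.isClosed.isOpen_compl.mem_nhds (fun h => hx (htΩ h))] with y hy
        rw [hχ0 y hy, zero_mul]
      exact contDiffAt_const.congr_of_eventuallyEq h1
  · intro y hy
    have h1 : ∀ᶠ x in 𝓝 y, χ x = 1 := hχ1.filter_mono (nhds_le_nhdsSet hy)
    filter_upwards [h1] with x hx
    rw [hx, one_mul]

/-- Two applications of `exists_op` with `P = univ`, `ψ = psi C i z l` (`aemeasurable_psi`, `map_psi_le`): `m = id` for the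
function, `m y = multiplication by l √ρ(z + l y)` for the gradient; build `R` with `WithLp.prodContinuousLinearEquiv` (or
`WithLp.linearEquiv` and continuity), as in K02.  `R` maps `HS` to `HQ` by `map_HS`: for `v` of class `C¹` on `S` the function
`v ∘ psi` is of class `C¹` on a neighbourhood of the unit square (where `aff z l y ∈ ball 0 3`); multiply it by a smooth cutoff equal
to `1` near `Qs` to get `f : ℂ → ℝ` of class `C¹`, with `f = v ∘ psi` and `gr f y = l * gr (v ∘ (φ i).symm) (aff z l y)` on `Qs`; on the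
tile `idx = i` (`idx_Dp`, `mem_Gp`), so `C.grad v (psi y) = gr (v ∘ (φ i).symm) (aff z l y) / √ρ`. -/
theorem exists_restr (C : CSurf S) (i : Fin C.n) {z : ℂ} {l : ℝ} (hl : 0 < l) (hsq : sq z l ⊆ Gp C i) :
    ∃ (R : JetSp C.area →L[ℝ] JetSp mQ) (R₁ : Lp ℝ 2 C.area →L[ℝ] Lp ℝ 2 mQ), (∀ U, (R U).fst = R₁ U.fst) ∧
      (∀ U, IsJet (R U) (fun y => U.fst (psi C i z l y))
        (fun y => ((l * √(C.ρ i (aff z l y)) : ℝ) : ℂ) * U.snd (psi C i z l y))) ∧
      ∀ U ∈ C.HS, R U ∈ HQ := by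
  have h3 : sq z l ⊆ ball 0 3 := (hsq.trans (Gp_subset C i)).trans (ball_subset_ball (by norm_num))
  have hψ := aemeasurable_psi C i hl h3
  obtain ⟨K, hK⟩ := map_psi_le C i hl h3
  have hψr : AEMeasurable (psi C i z l) (mQ.restrict Qs) := by rw [rs_mQ]; exact hψ
  have hKr : (mQ.restrict Qs).map (psi C i z l) ≤ K • C.area := by rw [rs_mQ]; exact hK
  have hac : mQ.map (psi C i z l) ≪ C.area := by
    have hK' : mQ.map (psi C i z l) ≤ (K : ℝ≥0∞) • C.area := hK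
    exact Measure.absolutelyContinuous_of_le_smul hK'
  have hc : ContinuousOn (fun y => ((l * √(C.ρ i (aff z l y)) : ℝ)) • ContinuousLinearMap.id ℝ ℂ) Qs := by
    refine ContinuousOn.smul (continuousOn_const.mul (Real.continuous_sqrt.comp_continuousOn
      ((C.ρ_smooth i).continuousOn.comp (f := aff z l) ?_ ?_))) continuousOn_const
    · unfold aff
      fun_prop
    · intro y hy
      exact h3 ((aff_mem_sq hl y).2 hy)
  obtain ⟨B, hB⟩ := tl_comp.exists_bound_of_continuousOn hc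
  obtain ⟨T₁, h1⟩ := exists_op (E := ℝ) (F := ℝ) (A := C.area) (A' := mQ) tl_Qs.measurableSet hψr hKr
    (m := fun _ => ContinuousLinearMap.id ℝ ℝ) aestronglyMeasurable_const
    (B := ‖ContinuousLinearMap.id ℝ ℝ‖) (fun _ _ => le_rfl)
  obtain ⟨T₂, h2⟩ := exists_op (E := ℂ) (F := ℂ) (A := C.area) (A' := mQ) tl_Qs.measurableSet hψr hKr
    (m := fun y => ((l * √(C.ρ i (aff z l y)) : ℝ)) • ContinuousLinearMap.id ℝ ℂ)
    (by rw [rs_mQ]; exact hc.aestronglyMeasurable tl_Qs.measurableSet) hB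
  have hmem : ∀ᵐ y ∂mQ, y ∈ Qs := ae_restrict_mem tl_Qs.measurableSet
  have h1' : ∀ u, T₁ u =ᵐ[mQ] fun y => u (psi C i z l y) := fun u => by
    filter_upwards [h1 u, hmem] with y hy hy'
    rw [hy, indicator_of_mem hy']
    rfl
  have h2' : ∀ u, T₂ u =ᵐ[mQ] fun y => ((l * √(C.ρ i (aff z l y)) : ℝ) : ℂ) * u (psi C i z l y) := fun u => by
    filter_upwards [h2 u, hmem] with y hy hy'
    rw [hy, indicator_of_mem hy']
    simp
  let T : JetSp C.area →L[ℝ] JetSp mQ :=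
    ((WithLp.prodContinuousLinearEquiv 2 ℝ (Lp ℝ 2 mQ) (Lp ℂ 2 mQ)).symm : _ →L[ℝ] JetSp mQ) ∘L
      (T₁.prodMap T₂) ∘L
        ((WithLp.prodContinuousLinearEquiv 2 ℝ (Lp ℝ 2 C.area) (Lp ℂ 2 C.area)) : JetSp C.area →L[ℝ] _)
  have hT : ∀ U, T U = WithLp.toLp 2 (T₁ U.fst, T₂ U.snd) := fun _ => rfl
  refine ⟨T, T₁, fun U => rfl, fun U => ⟨h1' _, h2' _⟩, ?_⟩
  refine map_HS C (A := mQ) (H := HQ) (Submodule.isClosed_topologicalClosure _) T ?_
  intro v hv U hU
  -- the function on the plane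
  have hΩ : IsOpen (aff z l ⁻¹' ball (0 : ℂ) 3) := isOpen_ball.preimage (by unfold aff; fun_prop)
  have hQΩ : Qs ⊆ aff z l ⁻¹' ball (0 : ℂ) 3 := fun y hy => h3 ((aff_mem_sq hl y).2 hy)
  have hvc : ContDiffOn ℝ 1 (fun y => (v ∘ (C.φ i).symm) (aff z l y)) (aff z l ⁻¹' ball (0 : ℂ) 3) := by
    refine (hv i).comp (f := aff z l) ?_ fun y hy => hy
    unfold aff
    fun_prop
  obtain ⟨f, hf, hfe⟩ := rs_ext hΩ hQΩ hvc
  apply Submodule.le_topologicalClosure
  apply Submodule.subset_span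
  refine ⟨f, hf, ?_, ?_⟩
  · rw [hT]
    refine (h1' _).trans ?_
    filter_upwards [ae_of_ae_map hψ (hac.ae_le hU.1), hmem] with y hy hy'
    rw [hy, (hfe y hy').eq_of_nhds]
    rfl
  · rw [hT]
    refine (h2' _).trans ?_
    filter_upwards [ae_of_ae_map hψ (hac.ae_le hU.2), hmem] with y hy hy'
    have hsqy : aff z l y ∈ sq z l := (aff_mem_sq hl y).2 hy'
    have h4 : (aff z l y) ∈ (C.φ i).target := by
      rw [C.target i]
      exact h3 hsqy
    have hidx : C.idx (psi C i z l y) = i := idx_Dp C ((mem_Gp C i (h3 hsqy)).1 (hsq hsqy))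
    have hφ : C.φ i (psi C i z l y) = aff z l y := (C.φ i).right_inv h4
    have hd : DifferentiableAt ℝ (v ∘ (C.φ i).symm) (aff z l y) :=
      ((hv i).contDiffAt (isOpen_ball.mem_nhds (h3 hsqy))).differentiableAt one_ne_zero
    have hgr : gr f y = (l : ℂ) * gr (v ∘ (C.φ i).symm) (aff z l y) := by
      rw [← rs_gr hd]
      unfold gr dx dy
      rw [(hfe y hy').fderiv_eq]
    rw [hy, hgr, CSurf.grad, hidx, hφ]
    have hρ : 0 < C.ρ i (aff z l y) := C.ρ_pos i _ (h3 hsqy)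
    have hs : ((√(C.ρ i (aff z l y)) : ℝ) : ℂ) ≠ 0 := by
      have := Real.sqrt_pos.2 hρ
      exact_mod_cast this.ne'
    push_cast
    field_simp

private theorem rs_nsq {A : Measure ℂ} (u : Lp ℂ 2 A) : ‖u‖ ^ 2 = ∫ x, ‖u x‖ ^ 2 ∂A := by
  rw [← real_inner_self_eq_norm_sq, L2.inner_def]
  apply integral_congr_ae
  filter_upwards with x
  rw [real_inner_self_eq_norm_sq]

/-- Energy of the restriction.  `‖V.snd‖^2 = ∫ l^2 ρ ‖U.snd ∘ psi‖^2 ∂mQ = ∫ over the tile of ‖U.snd‖^2` (`integral_tile`) and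
`l₀^2 ∫ Wt (U.fst ∘ psi) ≤ ∫ l^2 a Wt (U.fst ∘ psi) = ∫ over the tile of w Wt (U.fst)` (`C.a w i y = ρ w`). -/
theorem restr_energy (C : CSurf S) (i : Fin C.n) {z : ℂ} {l : ℝ} (hl : 0 < l) (hsq : sq z l ⊆ Gp C i) {w : S → ℝ}
    (hw : IsWeight w) {l₀ : ℝ} (hl₀ : 0 < l₀) (ha : ∀ y ∈ sq z l, l₀ ^ 2 ≤ C.a w i y * l ^ 2) {ε : ℝ} (hε : 0 < ε)
    {U : JetSp C.area} {V : JetSp mQ} (hV : IsJet V (fun y => U.fst (psi C i z l y))
      (fun y => ((l * √(C.ρ i (aff z l y)) : ℝ) : ℂ) * U.snd (psi C i z l y))) :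
    l₀ * en (ε / l₀) (fun _ => 1) V ≤ ε / 2 * ∫ x in tile C i z l, ‖U.snd x‖ ^ 2 ∂C.area +
      1 / ε * ∫ x in tile C i z l, w x * Wt (U.fst x) ∂C.area := by
  have h3 : sq z l ⊆ ball 0 3 := (hsq.trans (Gp_subset C i)).trans (ball_subset_ball (by norm_num))
  have := area_finite C
  have hmem : ∀ᵐ y ∂mQ, y ∈ Qs := ae_restrict_mem tl_Qs.measurableSet
  have hi1 : Integrable (fun x => ‖U.snd x‖ ^ 2) C.area := (Lp.memLp U.snd).norm.integrable_sq
  have hi2 : Integrable (fun x => w x * Wt (U.fst x)) C.area := integrable_Wt hw U.fst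
  have e1 : ‖V.snd‖ ^ 2 = ∫ x in tile C i z l, ‖U.snd x‖ ^ 2 ∂C.area := by
    rw [rs_nsq, integral_tile C i hl h3 hi1.aestronglyMeasurable]
    refine integral_congr_ae ?_
    filter_upwards [hV.2, hmem] with y hy hy'
    have hρ : 0 < C.ρ i (aff z l y) := C.ρ_pos i _ (h3 ((aff_mem_sq hl y).2 hy'))
    rw [hy, norm_mul, mul_pow, Complex.norm_real, Real.norm_eq_abs, sq_abs, mul_pow, Real.sq_sqrt hρ.le]
  have hw1 : IsWeight (fun _ : ℂ => (1 : ℝ)) := ⟨measurable_const, 1, 1, one_pos, fun _ => ⟨le_rfl, le_rfl⟩⟩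
  have hi3 : Integrable (fun y => 1 * Wt (V.fst y)) mQ := integrable_Wt hw1 V.fst
  have e2 : l₀ ^ 2 * ∫ y, 1 * Wt (V.fst y) ∂mQ ≤ ∫ x in tile C i z l, w x * Wt (U.fst x) ∂C.area := by
    rw [integral_tile C i hl h3 hi2.aestronglyMeasurable, ← integral_const_mul]
    refine integral_mono_ae (hi3.const_mul _) (integrable_tile C i hl h3 hi2) ?_
    filter_upwards [hV.1, hmem] with y hy hy'
    have h4 := ha _ ((aff_mem_sq hl y).2 hy')
    have h5 := Wt_nonneg (U.fst (psi C i z l y))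
    rw [hy, one_mul]
    have h6 : C.a w i (aff z l y) = C.ρ i (aff z l y) * w (psi C i z l y) := rfl
    rw [h6] at h4
    have h7 := mul_le_mul_of_nonneg_right h4 h5
    beta_reduce
    nlinarith [h7]
  have e3 : l₀ * en (ε / l₀) (fun _ => 1) V = ε / 2 * ‖V.snd‖ ^ 2 +
      1 / ε * (l₀ ^ 2 * ∫ y, 1 * Wt (V.fst y) ∂mQ) := by
    unfold en
    field_simp
  rw [e3, e1]
  have h8 : 0 ≤ 1 / ε := by positivity
  have := mul_le_mul_of_nonneg_left e2 h8
  linarith

end Pool.Agent.Helper82.CLK
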