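import Pool.Agent.Helper82.CLK.Sq
import Pool.Agent.Helper53.CL.K.K09

/-!
# Tiles of the surface: change of variables (module CL-K11b)
-/

set_option maxSynthPendingDepth 3

namespace Pool.Agent.Helper82.CLK

open MeasureTheory Filter Topology Set Metric Pool.Agent.Helper53.CL Pool.Agent.Helper53.CL.K Pool.Agent.Helper53.CL.H
open Pool.Agent.Helper53.CL.C
open scoped ContDiff Real ENNReal NNReal

variable {S : Type*} [TopologicalSpace S] [MeasurableSpace S]

/-- The parametrisation of a tile by the unit square. -/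
noncomputable def psi (C : CSurf S) (i : Fin C.n) (z : ℂ) (l : ℝ) (y : ℂ) : S := (C.φ i).symm (aff z l y)

/-- The closed tile. -/
def tile (C : CSurf S) (i : Fin C.n) (z : ℂ) (l : ℝ) : Set S := {x | x ∈ (C.φ i).source ∧ C.φ i x ∈ sq z l}

/-- The open tile. -/
def otile (C : CSurf S) (i : Fin C.n) (z : ℂ) (l : ℝ) : Set S := {x | x ∈ (C.φ i).source ∧ C.φ i x ∈ osq z l}

theorem tl_osq (z : ℂ) (l : ℝ) : IsOpen (osq z l) := by
  have h : osq z l = {y : ℂ | z.re < y.re} ∩ ({y : ℂ | y.re < z.re + l} ∩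
      ({y : ℂ | z.im < y.im} ∩ {y : ℂ | y.im < z.im + l})) := rfl
  rw [h]
  exact (isOpen_lt continuous_const Complex.continuous_re).inter
    ((isOpen_lt Complex.continuous_re continuous_const).inter
      ((isOpen_lt continuous_const Complex.continuous_im).inter
        (isOpen_lt Complex.continuous_im continuous_const)))

theorem tl_sq (z : ℂ) (l : ℝ) : IsClosed (sq z l) := by
  have h : sq z l = {y : ℂ | z.re ≤ y.re} ∩ ({y : ℂ | y.re ≤ z.re + l} ∩
      ({y : ℂ | z.im ≤ y.im} ∩ {y : ℂ | y.im ≤ z.im + l})) := rfl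
  rw [h]
  exact (isClosed_le continuous_const Complex.continuous_re).inter
    ((isClosed_le Complex.continuous_re continuous_const).inter
      ((isClosed_le continuous_const Complex.continuous_im).inter
        (isClosed_le Complex.continuous_im continuous_const)))

theorem tl_Qs : IsClosed Qs := by
  have h : Qs = {y : ℂ | 0 ≤ y.re} ∩ ({y : ℂ | y.re ≤ 1} ∩
      ({y : ℂ | 0 ≤ y.im} ∩ {y : ℂ | y.im ≤ 1})) := rfl
  rw [h]
  exact (isClosed_le continuous_const Complex.continuous_re).inter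
    ((isClosed_le Complex.continuous_re continuous_const).inter
      ((isClosed_le continuous_const Complex.continuous_im).inter
        (isClosed_le Complex.continuous_im continuous_const)))

theorem tl_comp : IsCompact Qs := by
  refine (isCompact_closedBall (0 : ℂ) 2).of_isClosed_subset tl_Qs ?_
  intro y hy
  obtain ⟨h1, h2, h3, h4⟩ := hy
  rw [mem_closedBall_zero_iff]
  refine (Complex.norm_le_abs_re_add_abs_im y).trans ?_
  rw [abs_of_nonneg h1, abs_of_nonneg h3]
  linarith

theorem tl_osq_sub (z : ℂ) (l : ℝ) : osq z l ⊆ sq z l := fun _ hy =>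
  ⟨hy.1.le, hy.2.1.le, hy.2.2.1.le, hy.2.2.2.le⟩

theorem isOpen_otile (C : CSurf S) (i : Fin C.n) (z : ℂ) (l : ℝ) : IsOpen (otile C i z l) :=
  (C.φ i).isOpen_inter_preimage (tl_osq z l)

variable [T2Space S] [BorelSpace S]

/-- `(φ i).symm '' (sq z l)` is compact. -/
theorem measurableSet_tile (C : CSurf S) (i : Fin C.n) {z : ℂ} {l : ℝ} (h : sq z l ⊆ ball 0 3) :
    MeasurableSet (tile C i z l) := by
  have h1 : tile C i z l = (C.φ i).source \ ((C.φ i).source ∩ C.φ i ⁻¹' (sq z l)ᶜ) := by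
    ext x
    simp only [tile, mem_ofPred_eq, Set.mem_sdiff, mem_inter_iff, mem_preimage, mem_compl_iff]
    tauto
  rw [h1]
  exact (C.φ i).open_source.measurableSet.diff
    ((C.φ i).isOpen_inter_preimage (tl_sq z l).isOpen_compl).measurableSet

theorem tl_null (z : ℂ) (l : ℝ) : volume (sq z l \ osq z l) = 0 := by
  have h1 := congrArg (fun m : Measure ℂ => m (sq z l \ osq z l)) (restrict_osq z l)
  beta_reduce at h1
  have hm : MeasurableSet (sq z l \ osq z l) := (tl_sq z l).measurableSet.diff (tl_osq z l).measurableSet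
  rw [Measure.restrict_apply hm, Measure.restrict_apply hm, sdiff_inter_self, measure_empty,
    inter_eq_left.2 sdiff_subset] at h1
  exact h1.symm

theorem restrict_otile (C : CSurf S) (i : Fin C.n) {z : ℂ} {l : ℝ} (h : sq z l ⊆ ball 0 3) :
    C.area.restrict (otile C i z l) = C.area.restrict (tile C i z l) := by
  have hsub : otile C i z l ⊆ tile C i z l := fun x hx => ⟨hx.1, tl_osq_sub z l hx.2⟩
  have hm : MeasurableSet (tile C i z l \ otile C i z l) :=
    (measurableSet_tile C i h).diff (isOpen_otile C i z l).measurableSet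
  have h0 : C.area (tile C i z l \ otile C i z l) = 0 := by
    rw [C.area_eq i _ hm fun x hx => hx.1.1]
    refine setLIntegral_measure_zero _ _ (measure_mono_null ?_ (tl_null z l))
    rintro _ ⟨x, ⟨hx1, hx2⟩, rfl⟩
    exact ⟨hx1.2, fun h3 => hx2 ⟨hx1.1, h3⟩⟩
  refine Measure.restrict_congr_set ?_
  refine (ae_eq_set.2 ⟨?_, h0⟩)
  rw [sdiff_eq_empty.2 hsub, measure_empty]

theorem aemeasurable_psi (C : CSurf S) (i : Fin C.n) {z : ℂ} {l : ℝ} (hl : 0 < l) (h : sq z l ⊆ ball 0 3) :
    AEMeasurable (psi C i z l) mQ := by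
  have hc : ContinuousOn (psi C i z l) Qs := by
    refine (C.φ i).continuousOn_symm.comp (f := aff z l) ?_ ?_
    · unfold aff
      fun_prop
    · intro y hy
      rw [C.target i]
      exact h ((aff_mem_sq hl y).2 hy)
  exact hc.aemeasurable tl_Qs.measurableSet

theorem tl_ae (z : ℂ) {l : ℝ} (hl : 0 < l) : ∀ᵐ y ∂mQ, aff z l y ∈ sq z l := by
  filter_upwards [ae_restrict_mem tl_Qs.measurableSet] with y hy
  exact (aff_mem_sq hl y).2 hy

theorem tl_rho (C : CSurf S) (i : Fin C.n) {z : ℂ} {l : ℝ} (hl : 0 < l) (h : sq z l ⊆ ball 0 3) :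
    AEMeasurable (fun y => C.ρ i (aff z l y)) mQ := by
  have hc : ContinuousOn (fun y => C.ρ i (aff z l y)) Qs := by
    refine (C.ρ_smooth i).continuousOn.comp (f := aff z l) ?_ ?_
    · unfold aff
      fun_prop
    · intro y hy
      exact h ((aff_mem_sq hl y).2 hy)
  exact hc.aemeasurable tl_Qs.measurableSet

theorem tl_dens (C : CSurf S) (i : Fin C.n) {z : ℂ} {l : ℝ} (hl : 0 < l) (h : sq z l ⊆ ball 0 3) :
    AEMeasurable (fun y => ENNReal.ofReal (l ^ 2 * C.ρ i (aff z l y))) mQ :=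
  ((tl_rho C i hl h).const_mul (l ^ 2)).ennreal_ofReal

/-- The change of variables, from `area_map` (or `area_eq`) and `map_aff`. -/
theorem area_tile (C : CSurf S) (i : Fin C.n) {z : ℂ} {l : ℝ} (hl : 0 < l) (h : sq z l ⊆ ball 0 3) :
    C.area.restrict (tile C i z l) =
      (mQ.withDensity fun y => ENNReal.ofReal (l ^ 2 * C.ρ i (aff z l y))).map (psi C i z l) := by
  classical
  have hψ := aemeasurable_psi C i hl h
  have hψ' : AEMeasurable (psi C i z l) (mQ.withDensity fun y => ENNReal.ofReal (l ^ 2 * C.ρ i (aff z l y))) :=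
    hψ.mono_ac (withDensity_absolutelyContinuous _ _)
  ext B hB
  rw [Measure.restrict_apply hB, Measure.map_apply_of_aemeasurable hψ' hB,
    withDensity_apply₀ _ (hψ.nullMeasurableSet_preimage hB),
    C.area_eq i _ (hB.inter (measurableSet_tile C i h)) fun x hx => hx.2.1]
  -- the image in the chart
  set B' : Set ℂ := C.φ i '' (B ∩ tile C i z l) with hB'
  have hmem : ∀ w ∈ sq z l, (w ∈ B' ↔ (C.φ i).symm w ∈ B) := by
    intro w hw
    have hwt : w ∈ (C.φ i).target := by
      rw [C.target i]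
      exact h hw
    constructor
    · rintro ⟨x, hx, rfl⟩
      rw [(C.φ i).left_inv hx.2.1]
      exact hx.1
    · intro hwB
      refine ⟨(C.φ i).symm w, ⟨hwB, (C.φ i).map_target hwt, ?_⟩, (C.φ i).right_inv hwt⟩
      rw [(C.φ i).right_inv hwt]
      exact hw
  have hsub : B' ⊆ sq z l := by
    rintro _ ⟨x, hx, rfl⟩
    exact hx.2.2
  have hB'm : MeasurableSet B' := by
    have hc : ContinuousOn (C.φ i).symm (sq z l) := (C.φ i).continuousOn_symm.mono fun w hw => by
      rw [C.target i]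
      exact h hw
    have e : B' = Subtype.val '' ((fun w : sq z l => (C.φ i).symm (w : ℂ)) ⁻¹' B) := by
      ext w
      constructor
      · intro hw
        exact ⟨⟨w, hsub hw⟩, (hmem w (hsub hw)).1 hw, rfl⟩
      · rintro ⟨⟨w, hw⟩, hw2, rfl⟩
        exact (hmem w hw).2 hw2
    rw [e]
    have hm : Measurable (fun w : sq z l => (C.φ i).symm (w : ℂ)) :=
      (continuousOn_iff_continuous_domRestrict.1 hc).measurable
    exact (MeasurableEmbedding.subtype_coe (tl_sq z l).measurableSet).measurableSet_image.2 (hm hB)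
  let ρ' : ℂ → ℝ := (ball (0 : ℂ) 3).piecewise (C.ρ i) fun _ => 0
  have hρ' : Measurable ρ' :=
    ContinuousOn.measurable_piecewise (C.ρ_smooth i).continuousOn continuousOn_const measurableSet_ball
  have hρe : ∀ w ∈ sq z l, ρ' w = C.ρ i w := fun w hw => Set.piecewise_eq_of_mem _ _ _ (h hw)
  let f : ℂ → ℝ≥0∞ := B'.indicator fun w => ENNReal.ofReal (ρ' w)
  have hfm : Measurable f := hρ'.ennreal_ofReal.indicator hB'm
  have e1 : ∫⁻ w in B', ENNReal.ofReal (C.ρ i w) = ∫⁻ w in sq z l, f w := by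
    rw [setLIntegral_indicator hB'm, inter_eq_left.2 hsub]
    refine setLIntegral_congr_fun hB'm fun w hw => ?_
    rw [hρe w (hsub hw)]
  rw [e1]
  rw [lintegral_sq hl hfm]
  rw [← lintegral_const_mul' _ _ ENNReal.ofReal_ne_top]
  rw [← lintegral_indicator₀ (hψ.nullMeasurableSet_preimage hB)]
  refine lintegral_congr_ae ?_
  filter_upwards [tl_ae z hl] with y hy
  by_cases hyB : psi C i z l y ∈ B
  · have h1 : aff z l y ∈ B' := (hmem _ hy).2 hyB
    have h2 : y ∈ psi C i z l ⁻¹' B := hyB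
    simp only [f, indicator_of_mem h1, indicator_of_mem h2]
    rw [hρe _ hy, ENNReal.ofReal_mul (by positivity)]
  · have h1 : aff z l y ∉ B' := fun h3 => hyB ((hmem _ hy).1 h3)
    have h2 : y ∉ psi C i z l ⁻¹' B := hyB
    simp only [f, indicator_of_notMem h1, indicator_of_notMem h2, mul_zero]

theorem integral_tile (C : CSurf S) (i : Fin C.n) {z : ℂ} {l : ℝ} (hl : 0 < l) (h : sq z l ⊆ ball 0 3) {f : S → ℝ}
    (hf : AEStronglyMeasurable f C.area) :
    ∫ x in tile C i z l, f x ∂C.area = ∫ y, l ^ 2 * C.ρ i (aff z l y) * f (psi C i z l y) ∂mQ := by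
  have hψ := aemeasurable_psi C i hl h
  have hψ' : AEMeasurable (psi C i z l) (mQ.withDensity fun y => ENNReal.ofReal (l ^ 2 * C.ρ i (aff z l y))) :=
    hψ.mono_ac (withDensity_absolutelyContinuous _ _)
  have hf' := hf.restrict (s := tile C i z l)
  rw [area_tile C i hl h] at hf' ⊢
  rw [integral_map hψ' hf', integral_withDensity_eq_integral_toReal_smul₀ (tl_dens C i hl h)
    (Eventually.of_forall fun z => ENNReal.ofReal_lt_top)]
  refine integral_congr_ae ?_
  filter_upwards [tl_ae z hl] with y hy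
  have h1 : 0 < C.ρ i (aff z l y) := C.ρ_pos i _ (h hy)
  rw [ENNReal.toReal_ofReal (by positivity), smul_eq_mul]

/-- Integrability in the change of variables. -/
theorem integrable_tile (C : CSurf S) (i : Fin C.n) {z : ℂ} {l : ℝ} (hl : 0 < l) (h : sq z l ⊆ ball 0 3) {f : S → ℝ}
    (hf : Integrable f C.area) : Integrable (fun y => l ^ 2 * C.ρ i (aff z l y) * f (psi C i z l y)) mQ := by
  have hψ := aemeasurable_psi C i hl h
  have hψ' : AEMeasurable (psi C i z l) (mQ.withDensity fun y => ENNReal.ofReal (l ^ 2 * C.ρ i (aff z l y))) :=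
    hψ.mono_ac (withDensity_absolutelyContinuous _ _)
  have hf' := hf.restrict (s := tile C i z l)
  rw [area_tile C i hl h] at hf'
  have h1 := (integrable_map_measure hf'.1 hψ').1 hf'
  rw [integrable_withDensity_iff_integrable_smul₀' (tl_dens C i hl h)
    (Eventually.of_forall fun z => ENNReal.ofReal_lt_top)] at h1
  refine h1.congr ?_
  filter_upwards [tl_ae z hl] with y hy
  have h1 : 0 < C.ρ i (aff z l y) := C.ρ_pos i _ (h hy)
  rw [ENNReal.toReal_ofReal (by positivity), smul_eq_mul]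
  rfl

/-- `ρ` is bounded below on the compact square. -/
theorem map_psi_le (C : CSurf S) (i : Fin C.n) {z : ℂ} {l : ℝ} (hl : 0 < l) (h : sq z l ⊆ ball 0 3) :
    ∃ K : ℝ≥0, mQ.map (psi C i z l) ≤ K • C.area := by
  have hψ := aemeasurable_psi C i hl h
  have hψ' : AEMeasurable (psi C i z l) (mQ.withDensity fun y => ENNReal.ofReal (l ^ 2 * C.ρ i (aff z l y))) :=
    hψ.mono_ac (withDensity_absolutelyContinuous _ _)
  have hc : ContinuousOn (fun y => l ^ 2 * C.ρ i (aff z l y)) Qs := by
    refine continuousOn_const.mul ((C.ρ_smooth i).continuousOn.comp (f := aff z l) ?_ ?_)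
    · unfold aff
      fun_prop
    · intro y hy
      exact h ((aff_mem_sq hl y).2 hy)
  have hne : Qs.Nonempty := ⟨0, by simp [Qs]⟩
  obtain ⟨y₀, hy₀, hmin⟩ := tl_comp.exists_isMinOn hne hc
  set c : ℝ := l ^ 2 * C.ρ i (aff z l y₀) with hcdef
  have hc0 : 0 < c := by
    have := C.ρ_pos i _ (h ((aff_mem_sq hl y₀).2 hy₀))
    positivity
  refine ⟨Real.toNNReal c⁻¹, Measure.le_iff.2 fun B hB => ?_⟩
  have h1 : (C.area.restrict (tile C i z l)) B ≤ C.area B := Measure.restrict_apply_le _ _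
  rw [area_tile C i hl h, Measure.map_apply_of_aemeasurable hψ' hB,
    withDensity_apply₀ _ (hψ.nullMeasurableSet_preimage hB)] at h1
  have h2 : ENNReal.ofReal c * mQ (psi C i z l ⁻¹' B) ≤
      ∫⁻ y in psi C i z l ⁻¹' B, ENNReal.ofReal (l ^ 2 * C.ρ i (aff z l y)) ∂mQ := by
    rw [← setLIntegral_const]
    refine lintegral_mono_ae ?_
    have h3 : ∀ᵐ y ∂mQ, ENNReal.ofReal c ≤ ENNReal.ofReal (l ^ 2 * C.ρ i (aff z l y)) := by
      filter_upwards [ae_restrict_mem tl_Qs.measurableSet] with y hy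
      exact ENNReal.ofReal_le_ofReal (hmin hy)
    exact ae_restrict_of_ae h3
  rw [Measure.map_apply_of_aemeasurable hψ hB, Measure.smul_apply, ENNReal.smul_def, smul_eq_mul]
  have h4 : ((Real.toNNReal c⁻¹ : ℝ≥0) : ℝ≥0∞) = (ENNReal.ofReal c)⁻¹ := by
    rw [← ENNReal.ofReal_inv_of_pos hc0]
    rfl
  rw [h4, ← ENNReal.div_eq_inv_mul, ENNReal.le_div_iff_mul_le (Or.inl (by simpa using hc0))
    (Or.inl ENNReal.ofReal_ne_top), mul_comm]
  exact h2.trans h1

variable [CompactSpace S]

/-- A positive smooth function is a weight. -/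
theorem isWeight_smooth (C : CSurf S) {w : S → ℝ} (hw : C.IsSmooth w) (hpos : ∀ x, 0 < w x) : IsWeight w := by
  have hc : Continuous w := continuous_of_isC1 C (isC1_of_isSmooth C hw)
  refine ⟨hc.measurable, ?_⟩
  rcases isEmpty_or_nonempty S with hS | hS
  · exact ⟨1, 1, one_pos, fun x => (hS.false x).elim⟩
  · obtain ⟨x₀, -, h₀⟩ := isCompact_univ.exists_isMinOn univ_nonempty hc.continuousOn
    obtain ⟨x₁, -, h₁⟩ := isCompact_univ.exists_isMaxOn univ_nonempty hc.continuousOn
    exact ⟨w x₀, w x₁, hpos x₀, fun x => ⟨h₀ (mem_univ x), h₁ (mem_univ x)⟩⟩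

end Pool.Agent.Helper82.CLK
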