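import Pool.Agent.Helper82.CLK.ExtE
import Pool.Agent.Helper53.CL.K.K01

/-!
# Upper bound of the widths of the surface (module CL-K14)
-/

set_option maxSynthPendingDepth 3

namespace Pool.Agent.Helper82.CLK

open MeasureTheory Filter Topology Set Metric Pool.Agent.Helper53.CL Pool.Agent.Helper53.CL.K Pool.Agent.Helper53.CL.H
open Pool.Agent.Helper53.CL.C
open scoped ContDiff Real ENNReal NNReal

variable {S : Type*} [TopologicalSpace S] [T2Space S] [MeasurableSpace S] [BorelSpace S] [CompactSpace S]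

/-- The pieces cover the surface up to a null set (`Dp_null`, and every point of `Gp j` lies in a closed square, the sides of the
squares are null: `restrict_otile`). -/
theorem cover_ae (C : CSurf S) {n : ℕ} {i : Fin n → Fin C.n} {z : Fin n → ℂ} {lam : Fin n → ℝ}
    (hsq : ∀ k, sq (z k) (lam k) ⊆ ball 0 2) (hcov : ∀ j, ∀ y ∈ Gp C j, ∃ k, i k = j ∧ y ∈ sq (z k) (lam k)) :
    C.area (⋃ k, piece C (i k) (z k) (lam k))ᶜ = 0 := by
  have hside : ∀ k, C.area (tile C (i k) (z k) (lam k) \ otile C (i k) (z k) (lam k)) = 0 := by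
    intro k
    have h3 : sq (z k) (lam k) ⊆ ball 0 3 := (hsq k).trans (ball_subset_ball (by norm_num))
    have hm := measurableSet_tile C (i k) h3
    have hmo := (isOpen_otile C (i k) (z k) (lam k)).measurableSet
    have h1 : C.area.restrict (otile C (i k) (z k) (lam k))
          (tile C (i k) (z k) (lam k) \ otile C (i k) (z k) (lam k)) =
        C.area.restrict (tile C (i k) (z k) (lam k))
          (tile C (i k) (z k) (lam k) \ otile C (i k) (z k) (lam k)) := by
      rw [restrict_otile C (i k) h3]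
    rw [Measure.restrict_apply' hmo, Measure.restrict_apply' hm, sdiff_inter_self, measure_empty,
      inter_eq_left.mpr sdiff_subset] at h1
    exact h1.symm
  refine measure_mono_null ?_ (measure_union_null (Dp_null C) (measure_iUnion_null hside))
  intro x hx
  by_cases hD : x ∈ ⋃ j, Dp C j
  · right
    obtain ⟨j, hj⟩ := mem_iUnion.mp hD
    obtain ⟨k, hk, hy⟩ := hcov j (C.φ j x) ⟨x, hj, rfl⟩
    subst hk
    refine mem_iUnion.mpr ⟨k, ⟨hj.1.1, hy⟩, fun ho => ?_⟩
    exact hx (mem_iUnion.mpr ⟨k, hj, ho⟩)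
  · left
    exact hD

/-- Sum of integrals over the pieces. -/
private theorem integral_pieces {Ω : Type*} [MeasurableSpace Ω] {A : Measure Ω} {n : ℕ} {P : Fin n → Set Ω}
    (hPm : ∀ k, MeasurableSet (P k)) (hPd : ∀ k k', k ≠ k' → Disjoint (P k) (P k')) (hPc : A (⋃ k, P k)ᶜ = 0)
    {f : Ω → ℝ} (hf : Integrable f A) : ∫ x, f x ∂A = ∑ k, ∫ x in P k, f x ∂A := by
  have h1 : A.restrict (⋃ k, P k) = A := by
    apply Measure.restrict_eq_self_of_ae_mem
    rw [ae_iff]
    exact hPc
  rw [← integral_iUnion_fintype hPm (fun k k' h => hPd k k' h) (fun k => hf.integrableOn), h1]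

private theorem coe_sum {Ω E : Type*} [MeasurableSpace Ω] [NormedAddCommGroup E] {A : Measure Ω} {ι : Type*}
    (s : Finset ι) (u : ι → Lp E 2 A) :
    ((∑ k ∈ s, u k : Lp E 2 A) : Ω → E) =ᵐ[A] fun x => ∑ k ∈ s, u k x := by
  classical
  induction s using Finset.induction_on with
  | empty =>
    rw [Finset.sum_empty]
    filter_upwards [Lp.coeFn_zero E 2 A] with x hx
    rw [hx, Finset.sum_empty, Pi.zero_apply]
  | insert a s ha ih =>
    rw [Finset.sum_insert ha]
    filter_upwards [Lp.coeFn_add (u a) (∑ k ∈ s, u k), ih] with x h1 h2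
    rw [h1, Pi.add_apply, h2, Finset.sum_insert ha]

private theorem fst_sum {Ω : Type*} [MeasurableSpace Ω] {A : Measure Ω} {ι : Type*}
    (s : Finset ι) (U : ι → JetSp A) : (∑ k ∈ s, U k).fst = ∑ k ∈ s, (U k).fst := by
  classical
  induction s using Finset.induction_on with
  | empty => rfl
  | insert a s ha ih => rw [Finset.sum_insert ha, Finset.sum_insert ha, WithLp.add_fst, ih]

private theorem snd_sum {Ω : Type*} [MeasurableSpace Ω] {A : Measure Ω} {ι : Type*}
    (s : Finset ι) (U : ι → JetSp A) : (∑ k ∈ s, U k).snd = ∑ k ∈ s, (U k).snd := by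
  classical
  induction s using Finset.induction_on with
  | empty => rfl
  | insert a s ha ih => rw [Finset.sum_insert ha, Finset.sum_insert ha, WithLp.add_snd, ih]

private theorem norm_sq_int {Ω : Type*} [MeasurableSpace Ω] {A : Measure Ω} (u : Lp ℂ 2 A) :
    ‖u‖ ^ 2 = ∫ x, ‖u x‖ ^ 2 ∂A := by
  have h1 : ‖u‖ ^ 2 = RCLike.re (inner ℂ u u) := (inner_self_eq_norm_sq (𝕜 := ℂ) u).symm
  rw [h1, L2.inner_def]
  have h2 : ∀ x, inner ℂ (u x) (u x) = ((‖u x‖ ^ 2 : ℝ) : ℂ) := fun x => by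
    rw [inner_self_eq_norm_sq_to_K]
    norm_cast
  simp only [h2]
  rw [integral_complex_ofReal]
  exact Complex.ofReal_re _

private theorem integrable_norm_sq {Ω : Type*} [MeasurableSpace Ω] {A : Measure Ω} (u : Lp ℂ 2 A) :
    Integrable (fun x => ‖u x‖ ^ 2) A := (Lp.memLp u).integrable_norm_pow (by norm_num)

/-- The pieces are disjoint. -/
private theorem piece_disjoint (C : CSurf S) {n : ℕ} {i : Fin n → Fin C.n} {z : Fin n → ℂ} {lam : Fin n → ℝ}
    (hd : ∀ k k', k ≠ k' → i k = i k' → Disjoint (osq (z k) (lam k)) (osq (z k') (lam k'))) {k k' : Fin n}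
    (h : k ≠ k') : Disjoint (piece C (i k) (z k) (lam k)) (piece C (i k') (z k') (lam k')) := by
  rw [Set.disjoint_left]
  intro x hx hx'
  have h1 : i k = i k' := by rw [← idx_Dp C hx.1, ← idx_Dp C hx'.1]
  have h2 := Set.disjoint_left.mp (hd k k' h h1) hx.2.2
  apply h2
  rw [h1]
  exact hx'.2.2

/-- `exists_cover` for `G = Gp C`, `a = C.a w` (`frontier_Gp`, `integral_Dp`), squares of the grid `gridc M k`.  Let `K` be the maximum of
the constants of `exists_cut` for the `n` pieces.  For `ε ∈ (0,1)` take `δ = ε`, `χ k` from `exists_cut`, `L k` from `exists_ext`,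
`L = ∑ k, L k`, and `T u = ∑ k, L₁ k (κ ∘ u)` with the clamp `κ` (`exists_clamp`; `u ↦ κ ∘ u` is `LipschitzWith.compLp`, continuous and
odd).  For `U ∈ HQ` let `V` be the clamped jet (`clamp_mem`), `|V.fst| ≤ π + 1`; then `L V ∈ HS`, `(L V).fst = T U.fst`.  Since the pieces
are disjoint (`Psi`-terms vanish off the pieces) and cover `S` up to a null set (`cover_ae`), `‖(L V).snd‖^2` and `∫ w Wt ((L V).fst)` are
the sums over the pieces of the integrals of `ext_dirichlet`, `ext_potential`; `sum_grid_le`.  Result: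
`en ε w (L V) ≤ (ε/2) (1 + d') ‖V.snd‖^2 + (1/ε) (M l₀)^2 ∫ Wt (V.fst) + β ≤ (1 + d') (M l₀) en (ε/(M l₀)) 1 V + β` with
`β = n ((1 + 1/d') (π + 1)^2 K^3 / 2 + 2 Cw K)`, and `en _ 1 V ≤ en _ 1 U` (`clamp_mem`). -/
theorem upper (C : CSurf S) (hQc : CompStable HQ) {w : S → ℝ} (hw : C.IsSmooth w) (hpos : ∀ x, 0 < w x) {d : ℝ}
    (hd : 0 < d) {d' : ℝ} (hd' : 0 < d') : ∃ l₀ > 0, ∃ M : ℕ, 1 ≤ M ∧ M ^ 2 * l₀ ^ 2 ≤ ∫ x, w x ∂C.area + d ∧ ∃ β : ℝ,
      0 ≤ β ∧ ∀ ε ∈ Ioo (0 : ℝ) 1, ∃ T : Lp ℝ 2 mQ → Lp ℝ 2 C.area, Continuous T ∧ (∀ u, T (-u) = -T u) ∧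
        ∀ U ∈ HQ, ∃ V ∈ C.HS, V.fst = T U.fst ∧
          en ε w V ≤ (1 + d') * (M * l₀) * en (ε / (M * l₀)) (fun _ => 1) U + β := by
  have hW := isWeight_smooth C hw hpos
  have hfin := area_finite C
  -- the cover
  have ha : ∀ i, ContinuousOn (C.a w i) (closedBall 0 2) := fun i =>
    ((C.ρ_smooth i).continuousOn.mul (hw i).continuousOn).mono (closedBall_subset_ball (by norm_num))
  have hp : ∀ i, ∀ z ∈ closedBall (0 : ℂ) 2, 0 < C.a w i z := fun i z hz =>
    mul_pos (C.ρ_pos i z (closedBall_subset_ball (by norm_num) hz)) (hpos _)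
  obtain ⟨l₀, M, n, i, z, lam, hl₀, hM, hn, hlam, hsq, hdis, hcov, hle, hsum⟩ :=
    exists_cover (isOpen_Gp C) (Gp_subset C) (frontier_Gp C) ha hp hd
  obtain ⟨cw, Cw₀, hcw, hcwle, hCw₀⟩ := c02_bd hW
  have hwint : Integrable w C.area :=
    Integrable.of_bound hW.1.aestronglyMeasurable Cw₀ (Eventually.of_forall fun x => by
      rw [Real.norm_eq_abs]
      exact hCw₀ x)
  rw [← integral_Dp C hwint] at hsum
  set Cw := max Cw₀ 0 with hCwdef
  have hCw : ∀ x, w x ≤ Cw := fun x => (le_abs_self _).trans ((hCw₀ x).trans (le_max_left _ _))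
  have hCw0 : 0 ≤ Cw := le_max_right _ _
  -- the cut-off functions
  choose K hK0 hK using fun k => exists_cut C (i k) (z k) (hlam k)
  have hMr : (0 : ℝ) < M := by exact_mod_cast hM
  refine ⟨l₀, hl₀, M, hM, hsum, ∑ k, (1 / 2 * ((1 + 1 / d') * (π + 1) ^ 2 * K k ^ 3) + 2 * Cw * K k), ?_, ?_⟩
  · refine Finset.sum_nonneg fun k _ => ?_
    have := hK0 k
    positivity
  intro ε hε
  choose χ hχ hχ0 hχ1 using fun k => hK k ε hε
  have hc : ∀ k : Fin n, sq (gridc M k) (1 / (M : ℝ)) ⊆ Qs := fun k =>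
    gridc_sub hM (lt_of_lt_of_le k.2 hn)
  choose L L₁ hL1 hL2 hL3 using fun k => exists_ext C (i k) (hlam k) (c := gridc M k) hM (hc k) (hχ k) (hχ0 k)
  obtain ⟨κ, hκ1, hκo, hκd, hκb, hκW, hκi⟩ := exists_clamp
  have hκ0 : κ 0 = 0 := hκi 0 (by rw [abs_zero]; exact Real.pi_pos.le)
  have hκL : LipschitzWith 1 κ := by
    refine lipschitzWith_of_nnnorm_deriv_le (hκ1.differentiable (by norm_num)) fun x => ?_
    rw [← NNReal.coe_le_coe, coe_nnnorm, Real.norm_eq_abs]
    exact hκd x
  refine ⟨fun u => (∑ k, L₁ k) (hκL.compLp hκ0 u), ?_, ?_, ?_⟩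
  · exact (∑ k, L₁ k).continuous.comp (hκL.continuous_compLp hκ0)
  · intro u
    have h1 : hκL.compLp hκ0 (-u) = -hκL.compLp hκ0 u := by
      apply Lp.ext
      filter_upwards [hκL.coeFn_compLp hκ0 (-u), hκL.coeFn_compLp hκ0 u, Lp.coeFn_neg u,
        Lp.coeFn_neg (hκL.compLp hκ0 u)] with x h1 h2 h3 h4
      rw [h1, h4, Pi.neg_apply, h2, Function.comp_apply, Function.comp_apply, h3, Pi.neg_apply, hκo]
    simp only [h1, map_neg]
  · intro U hU
    obtain ⟨V, hV, hJ, hnorm, hen⟩ := clamp_mem hQc hκ1 hκd hκW hU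
    refine ⟨∑ k, L k V, Submodule.sum_mem _ fun k _ => hL3 k V hV, ?_, ?_⟩
    · have h1 : V.fst = hκL.compLp hκ0 U.fst := by
        apply Lp.ext
        filter_upwards [hκL.coeFn_compLp hκ0 U.fst, hJ.1] with x h1 h2
        rw [h1, h2, Function.comp_apply]
      show (∑ k, L k V).fst = (∑ k, L₁ k) (hκL.compLp hκ0 U.fst)
      rw [fst_sum, ← h1, sum_apply]
      exact Finset.sum_congr rfl fun k _ => hL1 k V
    · have hVb : ∀ᵐ y ∂mQ, |V.fst y| ≤ π + 1 := by
        filter_upwards [hJ.1] with y hy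
        rw [hy]
        exact hκb _
      set f : Fin n → S → ℝ := fun k x => χ k x * V.fst (Psi C (i k) (z k) (lam k) (gridc M k) M x) with hf
      set g : Fin n → S → ℂ := fun k x =>
        ((χ k x / (lam k * M * √(C.ρ (i k) (C.φ (i k) x))) : ℝ) : ℂ) *
            V.snd (Psi C (i k) (z k) (lam k) (gridc M k) M x) +
          ((V.fst (Psi C (i k) (z k) (lam k) (gridc M k) M x) : ℝ) : ℂ) * C.grad (χ k) x with hg
      have hχz : ∀ k x, x ∉ piece C (i k) (z k) (lam k) → χ k x = 0 := fun k x hx => by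
        by_contra h
        exact hx (hχ0 k x h)
      have hf0 : ∀ k x, x ∉ piece C (i k) (z k) (lam k) → f k x = 0 := fun k x hx => by
        simp only [hf, hχz k x hx, zero_mul]
      have hg0 : ∀ k x, x ∉ piece C (i k) (z k) (lam k) → g k x = 0 := fun k x hx => by
        simp only [hg, hχz k x hx, (hχ k).grad_eq_zero (Or.inl (hχz k x hx)), zero_div, Complex.ofReal_zero,
          zero_mul, mul_zero, add_zero]
      have hPm : ∀ k, MeasurableSet (piece C (i k) (z k) (lam k)) := fun k =>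
        ((isOpen_Dp C (i k)).inter (isOpen_otile C (i k) (z k) (lam k))).measurableSet
      have hPd : ∀ k k', k ≠ k' → Disjoint (piece C (i k) (z k) (lam k)) (piece C (i k') (z k') (lam k')) :=
        fun k k' h => piece_disjoint C hdis h
      have hPc := cover_ae C hsq hcov
      have hfV : ((∑ k, L k V).fst : S → ℝ) =ᵐ[C.area] fun x => ∑ k, f k x := by
        rw [fst_sum]
        filter_upwards [coe_sum Finset.univ fun k => (L k V).fst,
          ae_all_iff.mpr fun k => (hL2 k V).1] with x h1 h2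
        rw [h1]
        exact Finset.sum_congr rfl fun k _ => h2 k
      have hgV : ((∑ k, L k V).snd : S → ℂ) =ᵐ[C.area] fun x => ∑ k, g k x := by
        rw [snd_sum]
        filter_upwards [coe_sum Finset.univ fun k => (L k V).snd,
          ae_all_iff.mpr fun k => (hL2 k V).2] with x h1 h2
        rw [h1]
        exact Finset.sum_congr rfl fun k _ => h2 k
      have hfP : ∀ k, ∀ᵐ x ∂C.area, x ∈ piece C (i k) (z k) (lam k) → (∑ k, L k V).fst x = f k x := by
        intro k
        filter_upwards [hfV] with x hx hxk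
        rw [hx]
        exact Finset.sum_eq_single k (fun j _ hj => hf0 j x fun h =>
          Set.disjoint_left.mp (hPd j k hj) h hxk) (fun h => absurd (Finset.mem_univ k) h)
      have hgP : ∀ k, ∀ᵐ x ∂C.area, x ∈ piece C (i k) (z k) (lam k) → (∑ k, L k V).snd x = g k x := by
        intro k
        filter_upwards [hgV] with x hx hxk
        rw [hx]
        exact Finset.sum_eq_single k (fun j _ hj => hg0 j x fun h =>
          Set.disjoint_left.mp (hPd j k hj) h hxk) (fun h => absurd (Finset.mem_univ k) h)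
      -- the Dirichlet part
      have hD : ‖(∑ k, L k V).snd‖ ^ 2 ≤ (1 + d') * ‖V.snd‖ ^ 2 +
          ∑ k, (1 + 1 / d') * (π + 1) ^ 2 * K k ^ 3 / ε := by
        rw [norm_sq_int, integral_pieces hPm hPd hPc (integrable_norm_sq _)]
        have h1 : ∀ k, ∫ x in piece C (i k) (z k) (lam k), ‖(∑ k, L k V).snd x‖ ^ 2 ∂C.area ≤
            (1 + d') * (∫ y in sq (gridc M k) (1 / (M : ℝ)), ‖V.snd y‖ ^ 2) +
              (1 + 1 / d') * (π + 1) ^ 2 * K k ^ 3 / ε := by
          intro k
          have h2 : ∫ x in piece C (i k) (z k) (lam k), ‖(∑ k, L k V).snd x‖ ^ 2 ∂C.area =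
              ∫ x in piece C (i k) (z k) (lam k), ‖g k x‖ ^ 2 ∂C.area := by
            apply setIntegral_congr_ae (hPm k)
            filter_upwards [hgP k] with x hx hxk
            rw [hx hxk]
          rw [h2]
          exact ext_dirichlet C (i k) (hlam k) hM (hc k) (hK0 k) hε.1 (hχ k) (hχ0 k) (hχ1 k) hVb hd'
        refine (Finset.sum_le_sum fun k _ => h1 k).trans ?_
        rw [Finset.sum_add_distrib, ← Finset.mul_sum]
        have h3 := sum_grid_le hM hn (integrable_norm_sq V.snd) (fun y => sq_nonneg _)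
        rw [← norm_sq_int] at h3
        have h4 := mul_le_mul_of_nonneg_left h3 (show 0 ≤ 1 + d' by linarith)
        linarith
      -- the potential part
      have hWt1 : IsWeight (fun _ : ℂ => (1 : ℝ)) := ⟨measurable_const, 1, 1, one_pos, fun _ => ⟨le_rfl, le_rfl⟩⟩
      have hWtint : Integrable (fun y => Wt (V.fst y)) mQ := by
        simpa only [one_mul] using integrable_Wt hWt1 V.fst
      have hP : ∫ x, w x * Wt ((∑ k, L k V).fst x) ∂C.area ≤ (l₀ * M) ^ 2 * (∫ y, Wt (V.fst y) ∂mQ) +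
          ∑ k, 2 * Cw * K k * ε := by
        rw [integral_pieces hPm hPd hPc (integrable_Wt hW _)]
        have h1 : ∀ k, ∫ x in piece C (i k) (z k) (lam k), w x * Wt ((∑ k, L k V).fst x) ∂C.area ≤
            (l₀ * M) ^ 2 * (∫ y in sq (gridc M k) (1 / (M : ℝ)), Wt (V.fst y)) + 2 * Cw * K k * ε := by
          intro k
          have h2 : ∫ x in piece C (i k) (z k) (lam k), w x * Wt ((∑ k, L k V).fst x) ∂C.area =
              ∫ x in piece C (i k) (z k) (lam k), w x * Wt (f k x) ∂C.area := by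
            apply setIntegral_congr_ae (hPm k)
            filter_upwards [hfP k] with x hx hxk
            rw [hx hxk]
          rw [h2]
          exact ext_potential C (i k) (hlam k) hM (hc k) (hK0 k) hε.1 (hχ k) (hχ1 k) hVb hW (fun x => (hpos x).le)
            hCw (hle k)
        refine (Finset.sum_le_sum fun k _ => h1 k).trans ?_
        rw [Finset.sum_add_distrib, ← Finset.mul_sum]
        have h3 := sum_grid_le hM hn hWtint (fun y => Wt_nonneg _)
        have h4 := mul_le_mul_of_nonneg_left h3 (show 0 ≤ (l₀ * M) ^ 2 by positivity)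
        linarith
      have hε0 : 0 < ε := hε.1
      have hMl : 0 < M * l₀ := mul_pos hMr hl₀
      have h5 : en ε w (∑ k, L k V) ≤ (1 + d') * (M * l₀) * en (ε / (M * l₀)) (fun _ => 1) V +
          ∑ k, (1 / 2 * ((1 + 1 / d') * (π + 1) ^ 2 * K k ^ 3) + 2 * Cw * K k) := by
        unfold en
        simp only [one_mul]
        set D₀ := ‖V.snd‖ ^ 2
        set P₀ := ∫ y, Wt (V.fst y) ∂mQ with hP₀
        have hP0 : 0 ≤ P₀ := integral_nonneg fun y => Wt_nonneg _
        have e1 : ∑ k, (1 + 1 / d') * (π + 1) ^ 2 * K k ^ 3 / ε =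
            (∑ k, (1 + 1 / d') * (π + 1) ^ 2 * K k ^ 3) / ε := by rw [Finset.sum_div]
        have e2 : ∑ k, 2 * Cw * K k * ε = (∑ k, 2 * Cw * K k) * ε := by rw [Finset.sum_mul]
        have e3 : ∑ k, (1 / 2 * ((1 + 1 / d') * (π + 1) ^ 2 * K k ^ 3) + 2 * Cw * K k) =
            1 / 2 * (∑ k, (1 + 1 / d') * (π + 1) ^ 2 * K k ^ 3) + ∑ k, 2 * Cw * K k := by
          rw [Finset.sum_add_distrib, ← Finset.mul_sum]
        rw [e1] at hD
        rw [e2] at hP
        rw [e3]
        set X := ∑ k, (1 + 1 / d') * (π + 1) ^ 2 * K k ^ 3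
        set Y := ∑ k, 2 * Cw * K k
        have h6 : ε / 2 * ‖(∑ k, L k V).snd‖ ^ 2 ≤ ε / 2 * ((1 + d') * D₀ + X / ε) :=
          mul_le_mul_of_nonneg_left hD (by positivity)
        have h7 : 1 / ε * ∫ x, w x * Wt ((∑ k, L k V).fst x) ∂C.area ≤ 1 / ε * ((l₀ * M) ^ 2 * P₀ + Y * ε) :=
          mul_le_mul_of_nonneg_left hP (by positivity)
        refine (add_le_add h6 h7).trans ?_
        have e4 : ε / 2 * ((1 + d') * D₀ + X / ε) + 1 / ε * ((l₀ * M) ^ 2 * P₀ + Y * ε) =
            (1 + d') * (ε / 2 * D₀) + 1 / ε * ((l₀ * M) ^ 2 * P₀) + (1 / 2 * X + Y) := by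
          field_simp
          ring
        have e5 : (1 + d') * (M * l₀) * (ε / (M * l₀) / 2 * D₀ + 1 / (ε / (M * l₀)) * P₀) =
            (1 + d') * (ε / 2 * D₀) + (1 + d') * (1 / ε * ((l₀ * M) ^ 2 * P₀)) := by
          field_simp
        rw [e4, e5]
        have h8 : 0 ≤ d' * (1 / ε * ((l₀ * M) ^ 2 * P₀)) := by positivity
        nlinarith
      refine h5.trans (add_le_add ?_ le_rfl)
      exact mul_le_mul_of_nonneg_left (hen _ hWt1 _ (by positivity)) (by positivity)

end Pool.Agent.Helper82.CLK
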