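import Pool.Agent.Helper82.CLK.LargeS
import Pool.Agent.Helper82.CLK.Lower
import Pool.Agent.Helper53.CL.K.K08

/-!
# The Weyl law of the surface (module CL-K15)
-/

set_option maxSynthPendingDepth 3

namespace Pool.Agent.Helper82.CLK

open MeasureTheory Filter Topology Set Metric Pool.Agent.Helper53.CL Pool.Agent.Helper53.CL.K Pool.Agent.Helper53.CL.H
open Pool.Agent.Helper53.CL.C
open scoped ContDiff Real ENNReal NNReal

/-- Real analysis of the upper bound.  With `X = ∫ w`, constants `d₁, d', d₂` small: `(1 + d') √(X + d₁) (abar + d₂) ≤ abar √X + d/2`;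
`p` large: `β ≤ (d/2) √p`. -/
theorem weyl_up_real {X abar d : ℝ} (hX : 0 < X) (ha : 0 < abar) (hd : 0 < d) :
    ∃ t > 0, ∀ L ≥ 0, L ^ 2 ≤ X + t → (1 + t) * L * (abar + t) ≤ abar * √X + d / 2 := by
  have hc : ContinuousAt (fun t : ℝ => (1 + t) * √(X + t) * (abar + t)) 0 := by
    fun_prop
  have h0 : (fun t : ℝ => (1 + t) * √(X + t) * (abar + t)) 0 < abar * √X + d / 2 := by
    simp only [add_zero, one_mul]
    linarith [mul_comm (√X) abar]
  have h1 := hc.eventually_lt_const h0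
  have h2 : ∀ᶠ t : ℝ in 𝓝[>] 0, (1 + t) * √(X + t) * (abar + t) < abar * √X + d / 2 :=
    h1.filter_mono nhdsWithin_le_nhds
  obtain ⟨t, ht1, ht0⟩ := (h2.and self_mem_nhdsWithin).exists
  have ht0' : 0 < t := ht0
  refine ⟨t, ht0', fun L hL0 hL => ?_⟩
  have h3 : L ≤ √(X + t) := Real.le_sqrt_of_sq_le hL
  refine le_trans ?_ ht1.le
  gcongr

/-- Real analysis of the lower bound: `q = p / N`, `l₀ N √q ≥ √(N l₀^2) √(p - N)`. -/
theorem weyl_low_real {X abar d : ℝ} (hX : 0 < X) (ha : 0 < abar) (hd : 0 < d) :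
    ∃ t > 0, t < X ∧ t < abar ∧ ∀ l₀ > 0, ∀ N : ℕ, 1 ≤ N → X - t ≤ N * l₀ ^ 2 → ∃ p₀ : ℕ, ∀ p ≥ p₀,
      (abar * √X - d) * √p ≤ l₀ * N * ((abar - t) * √(p / N : ℕ)) := by
  have hc : ContinuousAt (fun t : ℝ => √(X - t) * (abar - t)) 0 := by
    fun_prop
  have h0 : abar * √X - d < (fun t : ℝ => √(X - t) * (abar - t)) 0 := by
    simp only [sub_zero]
    linarith [mul_comm (√X) abar]
  have h1 := hc.eventually_const_lt h0
  have h2 : ∀ᶠ t : ℝ in 𝓝[>] 0, abar * √X - d < √(X - t) * (abar - t) :=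
    h1.filter_mono nhdsWithin_le_nhds
  have h3 : ∀ᶠ t : ℝ in 𝓝[>] 0, t < X := (eventually_lt_nhds hX).filter_mono nhdsWithin_le_nhds
  have h4 : ∀ᶠ t : ℝ in 𝓝[>] 0, t < abar := (eventually_lt_nhds ha).filter_mono nhdsWithin_le_nhds
  obtain ⟨t, ⟨⟨ht1, ht2⟩, ht3⟩, ht0⟩ := (((h2.and h3).and h4).and self_mem_nhdsWithin).exists
  have ht0' : 0 < t := ht0
  refine ⟨t, ht0', ht2, ht3, fun l₀ hl₀ N hN hNX => ?_⟩
  set A := √(X - t) * (abar - t) with hA
  have hA0 : 0 < A := mul_pos (Real.sqrt_pos.2 (by linarith)) (by linarith)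
  set B := max (abar * √X - d) 0 with hB
  have hBA : B < A := max_lt ht1 hA0
  have hB0 : 0 ≤ B := le_max_right _ _
  have hAB : 0 < A ^ 2 - B ^ 2 := by nlinarith
  have hNr : (0 : ℝ) < N := by exact_mod_cast hN
  refine ⟨⌈A ^ 2 * N / (A ^ 2 - B ^ 2)⌉₊, fun p hp => ?_⟩
  have hp1 : A ^ 2 * N / (A ^ 2 - B ^ 2) ≤ p := (Nat.le_ceil _).trans (by exact_mod_cast hp)
  rw [div_le_iff₀ hAB] at hp1
  have hq : (p : ℝ) - N ≤ N * ((p / N : ℕ) : ℝ) := by
    have e1 : N * (p / N) + p % N = p := Nat.div_add_mod p N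
    have e2 : p % N < N := Nat.mod_lt _ (by omega)
    have e3 : (p : ℝ) = N * ((p / N : ℕ) : ℝ) + ((p % N : ℕ) : ℝ) := by exact_mod_cast e1.symm
    have e4 : ((p % N : ℕ) : ℝ) ≤ N := by exact_mod_cast e2.le
    linarith
  have hR : l₀ * N * ((abar - t) * √((p / N : ℕ) : ℝ)) =
      (abar - t) * (√(N * l₀ ^ 2) * √(N * ((p / N : ℕ) : ℝ))) := by
    rw [Real.sqrt_mul hNr.le, Real.sqrt_mul hNr.le, Real.sqrt_sq hl₀.le]
    have := Real.mul_self_sqrt hNr.le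
    calc l₀ * N * ((abar - t) * √((p / N : ℕ) : ℝ)) =
        l₀ * (√(N : ℝ) * √(N : ℝ)) * ((abar - t) * √((p / N : ℕ) : ℝ)) := by rw [this]
      _ = _ := by ring
  rw [hR]
  have s1 : √(X - t) ≤ √(N * l₀ ^ 2) := Real.sqrt_le_sqrt hNX
  have s2 : √((p : ℝ) - N) ≤ √(N * ((p / N : ℕ) : ℝ)) := Real.sqrt_le_sqrt hq
  have s3 : B * √(p : ℝ) ≤ A * √((p : ℝ) - N) := by
    have e1 : B * √(p : ℝ) = √(B ^ 2 * p) := by
      rw [Real.sqrt_mul (by positivity), Real.sqrt_sq hB0]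
    have e2 : A * √((p : ℝ) - N) = √(A ^ 2 * ((p : ℝ) - N)) := by
      rw [Real.sqrt_mul (by positivity), Real.sqrt_sq hA0.le]
    rw [e1, e2]
    refine Real.sqrt_le_sqrt ?_
    linarith
  calc (abar * √X - d) * √(p : ℝ) ≤ B * √(p : ℝ) :=
        mul_le_mul_of_nonneg_right (le_max_left _ _) (Real.sqrt_nonneg _)
    _ ≤ A * √((p : ℝ) - N) := s3
    _ = (abar - t) * (√(X - t) * √((p : ℝ) - N)) := by rw [hA]; ring
    _ ≤ (abar - t) * (√(N * l₀ ^ 2) * √(N * ((p / N : ℕ) : ℝ))) := by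
        have : 0 ≤ abar - t := by linarith
        gcongr

variable {S : Type*} [TopologicalSpace S] [T2Space S] [MeasurableSpace S] [BorelSpace S] [CompactSpace S]

/-- Nonempty open sets have positive area. -/
theorem integral_pos_weight [Nonempty S] (C : CSurf S) {w : S → ℝ} (hw : C.IsSmooth w) (hpos : ∀ x, 0 < w x) :
    0 < ∫ x, w x ∂C.area := by
  obtain ⟨hwm, c, K, hc, hcK⟩ := isWeight_smooth C hw hpos
  haveI := area_finite C
  have hint : Integrable w C.area := by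
    refine Integrable.of_bound hwm.aestronglyMeasurable K (Eventually.of_forall fun x => ?_)
    rw [Real.norm_of_nonneg (hpos x).le]
    exact (hcK x).2
  rw [integral_pos_iff_support_of_nonneg (fun x => (hpos x).le) hint]
  have hsupp : Function.support w = univ := by
    ext x
    simp [(hpos x).ne']
  rw [hsupp]
  obtain ⟨x⟩ := ‹Nonempty S›
  obtain ⟨i, hi, _⟩ := C.cover x
  have h1 : C.area (C.φ i).source ≤ C.area univ := measure_mono (subset_univ _)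
  refine lt_of_lt_of_le ?_ h1
  rw [C.area_eq i _ (C.φ i).open_source.measurableSet subset_rfl, (C.φ i).image_source_eq_target,
    C.target i]
  have hsub : closedBall (0 : ℂ) 1 ⊆ ball 0 3 := closedBall_subset_ball (by norm_num)
  obtain ⟨z0, hz0, hmin⟩ := (isCompact_closedBall (0 : ℂ) 1).exists_isMinOn
    ⟨0, mem_closedBall_self (by norm_num)⟩ ((C.ρ_smooth i).continuousOn.mono hsub)
  have hr0 := C.ρ_pos i z0 (hsub hz0)
  calc (0 : ℝ≥0∞) < ENNReal.ofReal (C.ρ i z0) * volume (closedBall (0 : ℂ) 1) := by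
        refine ENNReal.mul_pos (ENNReal.ofReal_pos.2 hr0).ne' ?_
        exact (measure_closedBall_pos volume _ one_pos).ne'
    _ = ∫⁻ _ in closedBall (0 : ℂ) 1, ENNReal.ofReal (C.ρ i z0) := by
        rw [setLIntegral_const]
    _ ≤ ∫⁻ z in closedBall (0 : ℂ) 1, ENNReal.ofReal (C.ρ i z) := by
        refine setLIntegral_mono' measurableSet_closedBall fun z hz => ?_
        exact ENNReal.ofReal_le_ofReal (hmin hz)
    _ ≤ ∫⁻ z in ball (0 : ℂ) 3, ENNReal.ofReal (C.ρ i z) := lintegral_mono_set hsub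

/-- `abar` from `weyl_square`.  Upper: `upper` with `d = d' = t` (`weyl_up_real`, `L = M l₀`), `width_pull`, `weyl_square` with `t`, for
`ε < min 1 (M l₀ ε₀)`, and `β ≤ (d/2) √p` for large `p`.  Lower: `lower` with `d = t` (`weyl_low_real`; `N ≥ 1` since `X > t`), `weyl_square`
with `t` for `q = p / N ≥ q₀`, `ε = l₀ ε'`, and `width_mono` from `N q ≤ p`; the sets of large genus from `large_HS`, `large_HQ`. -/
theorem weyl (hB : BUprop) (hQ : IsESpace HQ) (hQc : CompStable HQ) (C : CSurf S) [Nonempty S] :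
    ∃ abar > 0, ∀ w, C.IsSmooth w → (∀ x, 0 < w x) → ∀ d > 0, ∃ p0 : ℕ, ∀ p ≥ p0,
      (∃ ε0 > 0, ∀ ε ∈ Set.Ioo 0 ε0, width C.HS ε w p ≤ (abar * √(∫ x, w x ∂C.area) + d) * √p) ∧
      ∀ ε1 > 0, ∃ ε ∈ Set.Ioo 0 ε1, (abar * √(∫ x, w x ∂C.area) - d) * √p ≤ width C.HS ε w p := by
  haveI := area_finite C
  obtain ⟨abar, ha, hsq⟩ := weyl_square hB hQ hQc
  have hLS := large_HS hB hQ hQc C
  have hLQ := large_HQ hB
  refine ⟨abar, ha, fun w hw hpos d hd => ?_⟩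
  have hX := integral_pos_weight C hw hpos
  set X := ∫ x, w x ∂C.area with hXdef
  have hwt := isWeight_smooth C hw hpos
  have hw1 : IsWeight (fun _ : ℂ => (1 : ℝ)) :=
    ⟨measurable_const, 1, 1, one_pos, fun _ => ⟨le_rfl, le_rfl⟩⟩
  -- the upper bound
  obtain ⟨t, ht, hup⟩ := weyl_up_real hX ha hd
  obtain ⟨l₀, hl₀, M, hM, hML, β, hβ, hT⟩ := upper C hQc hw hpos ht ht
  obtain ⟨q₀, hq₀⟩ := hsq t ht
  -- the lower bound
  obtain ⟨t', ht', htX, hta, hlow⟩ := weyl_low_real hX ha hd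
  obtain ⟨l₁, hl₁, N, hN, hNw⟩ := lower C hQ hw hpos ht'
  have hN1 : 1 ≤ N := by
    by_contra h
    have h0 : N = 0 := by omega
    rw [h0, Nat.cast_zero, zero_mul] at hN
    linarith
  obtain ⟨p₁, hp₁⟩ := hlow l₁ hl₁ N hN1 hN
  obtain ⟨q₁, hq₁⟩ := hsq t' ht'
  have hMr : (0 : ℝ) < M := by exact_mod_cast hM
  have hL0 : 0 < (M : ℝ) * l₀ := mul_pos hMr hl₀
  have hLb := hup (M * l₀) hL0.le (by rw [mul_pow]; exact hML)
  refine ⟨max (max q₀ ⌈(β / (d / 2)) ^ 2⌉₊) (max p₁ (N * q₁)), fun p hp => ⟨?_, ?_⟩⟩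
  · have hpq : q₀ ≤ p := ((le_max_left _ _).trans (le_max_left _ _)).trans hp
    have hpb : (β / (d / 2)) ^ 2 ≤ p := (Nat.le_ceil _).trans
      (by exact_mod_cast ((le_max_right _ _).trans (le_max_left _ _)).trans hp)
    obtain ⟨ε₀, hε₀, hε⟩ := (hq₀ p hpq).1
    refine ⟨min 1 (M * l₀ * ε₀), lt_min one_pos (mul_pos hL0 hε₀), fun ε hεI => ?_⟩
    have hε1 : ε < 1 := lt_of_lt_of_le hεI.2 (min_le_left _ _)
    have hε2 : ε < M * l₀ * ε₀ := lt_of_lt_of_le hεI.2 (min_le_right _ _)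
    obtain ⟨T, hTc, hTo, hTE⟩ := hT ε ⟨hεI.1, hε1⟩
    have hεL : 0 < ε / (M * l₀) := div_pos hεI.1 hL0
    have hw2 := width_pull (H := C.HS) (H' := HQ) (p := p) hQ hεI.1 hεL hwt hw1 hTc hTo
      (α := (1 + t) * (M * l₀)) (β := β) (by positivity) hTE (hLQ _ hεL _ hw1 p)
    have hw3 := hε (ε / (M * l₀)) ⟨hεL, by rw [div_lt_iff₀ hL0]; linarith [mul_comm ε₀ (M * l₀)]⟩
    have hβp : β ≤ d / 2 * √p := by
      have h5 : β / (d / 2) ≤ √p := Real.le_sqrt_of_sq_le hpb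
      rw [div_le_iff₀ (by positivity)] at h5
      linarith
    calc width C.HS ε w p ≤ (1 + t) * (M * l₀) * width HQ (ε / (M * l₀)) (fun _ => 1) p + β := hw2
      _ ≤ (1 + t) * (M * l₀) * ((abar + t) * √p) + d / 2 * √p := by gcongr
      _ = (1 + t) * (M * l₀) * (abar + t) * √p + d / 2 * √p := by ring
      _ ≤ (abar * √X + d / 2) * √p + d / 2 * √p := by gcongr
      _ = (abar * √X + d) * √p := by ring
  · intro ε1 hε1
    have hpp : p₁ ≤ p := ((le_max_left _ _).trans (le_max_right _ _)).trans hp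
    have hpN : N * q₁ ≤ p := ((le_max_right _ _).trans (le_max_right _ _)).trans hp
    have hq : q₁ ≤ p / N := (Nat.le_div_iff_mul_le (by omega)).2 (by rw [mul_comm]; exact hpN)
    obtain ⟨ε', hε', hε'w⟩ := (hq₁ (p / N) hq).2 (ε1 / l₁) (div_pos hε1 hl₁)
    have hεpos : 0 < l₁ * ε' := mul_pos hl₁ hε'.1
    refine ⟨l₁ * ε', ⟨hεpos, ?_⟩, ?_⟩
    · have := hε'.2
      rw [lt_div_iff₀ hl₁] at this
      linarith [mul_comm l₁ ε']
    · have h5 := hNw (l₁ * ε') hεpos (p / N) (hLS _ hεpos w hwt _)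
      rw [mul_div_cancel_left₀ _ hl₁.ne'] at h5
      have h6 : width C.HS (l₁ * ε') w (N * (p / N)) ≤ width C.HS (l₁ * ε') w p :=
        width_mono hεpos hwt (hLS _ hεpos w hwt _) (Nat.mul_div_le p N)
      refine (hp₁ p hpp).trans (le_trans ?_ (h5.trans h6))
      gcongr

end Pool.Agent.Helper82.CLK
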