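import Pool.Agent.Helper82.CLK.Sq
import Pool.Agent.Helper82.CLK.Tile
import Pool.Agent.Helper82.CLK.Restr
import Pool.Agent.Helper82.CLK.Lower
import Pool.Agent.Helper82.CLK.CutFam
import Pool.Agent.Helper82.CLK.CutDisc
import Pool.Agent.Helper82.CLK.Cut
import Pool.Agent.Helper82.CLK.Ext
import Pool.Agent.Helper82.CLK.ExtE
import Pool.Agent.Helper82.CLK.Upper
import Pool.Agent.Helper82.CLK.LargeS
import Pool.Agent.Helper82.CLK.Weyl
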