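import Pool.Agent.Helper53.CL.K.K00
import Pool.Agent.Helper53.CL.K.K10
import Pool.Agent.Helper53.CL.H.H02

/-!
# Squares of the plane (module CL-K11)
-/

set_option maxSynthPendingDepth 3

namespace Pool.Agent.Helper82.CLK

open MeasureTheory Filter Topology Set Metric Pool.Agent.Helper53.CL Pool.Agent.Helper53.CL.K Pool.Agent.Helper53.CL.H
open Pool.Agent.Helper53.CL.C
open scoped ContDiff Real ENNReal NNReal

/-- The affine map from the unit square to the square with corner `z` and side `l`. -/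
noncomputable def aff (z : ℂ) (l : ℝ) (y : ℂ) : ℂ := z + l * y

theorem aff_mem_sq {z : ℂ} {l : ℝ} (hl : 0 < l) (y : ℂ) : aff z l y ∈ sq z l ↔ y ∈ Qs := by
  have hre : (aff z l y).re = z.re + l * y.re := by simp [aff]
  have him : (aff z l y).im = z.im + l * y.im := by simp [aff]
  simp only [K.sq, Qs, mem_setOf_eq, hre, him]
  constructor
  · rintro ⟨h1, h2, h3, h4⟩
    refine ⟨?_, ?_, ?_, ?_⟩
    · by_contra h
      have := mul_neg_of_pos_of_neg hl (not_le.1 h)
      linarith
    · by_contra h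
      have := mul_lt_mul_of_pos_left (not_le.1 h) hl
      linarith
    · by_contra h
      have := mul_neg_of_pos_of_neg hl (not_le.1 h)
      linarith
    · by_contra h
      have := mul_lt_mul_of_pos_left (not_le.1 h) hl
      linarith
  · rintro ⟨h1, h2, h3, h4⟩
    have e1 := mul_nonneg hl.le h1
    have e2 := mul_le_mul_of_nonneg_left h2 hl.le
    have e3 := mul_nonneg hl.le h3
    have e4 := mul_le_mul_of_nonneg_left h4 hl.le
    refine ⟨?_, ?_, ?_, ?_⟩ <;> linarith

private theorem null_re (c : ℝ) : volume {y : ℂ | y.re = c} = 0 := by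
  have h1 : {y : ℂ | y.re = c} = Complex.measurableEquivRealProd ⁻¹' ({c} ×ˢ (univ : Set ℝ)) := by
    ext z
    simp [Complex.measurableEquivRealProd_apply]
  rw [h1, Complex.volume_preserving_equiv_real_prod.measure_preimage
    ((measurableSet_singleton c).prod MeasurableSet.univ).nullMeasurableSet, Measure.volume_eq_prod,
    Measure.prod_prod, Real.volume_singleton, zero_mul]

private theorem null_im (c : ℝ) : volume {y : ℂ | y.im = c} = 0 := by
  have h1 : {y : ℂ | y.im = c} = Complex.measurableEquivRealProd ⁻¹' ((univ : Set ℝ) ×ˢ {c}) := by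
    ext z
    simp [Complex.measurableEquivRealProd_apply]
  rw [h1, Complex.volume_preserving_equiv_real_prod.measure_preimage
    (MeasurableSet.univ.prod (measurableSet_singleton c)).nullMeasurableSet, Measure.volume_eq_prod,
    Measure.prod_prod, Real.volume_singleton, mul_zero]

private theorem osq_sub (z : ℂ) (l : ℝ) : osq z l ⊆ sq z l :=
  fun _ h => ⟨h.1.le, h.2.1.le, h.2.2.1.le, h.2.2.2.le⟩

/-- The sides of the square are null sets. -/
theorem restrict_osq (z : ℂ) (l : ℝ) : (volume.restrict (osq z l) : Measure ℂ) = volume.restrict (sq z l) := by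
  refine Measure.restrict_congr_set ?_
  refine ((osq_sub z l).eventuallyLE).antisymm ?_
  rw [ae_le_set]
  refine measure_mono_null (t := {y : ℂ | y.re = z.re} ∪ {y : ℂ | y.re = z.re + l} ∪ {y : ℂ | y.im = z.im} ∪
    {y : ℂ | y.im = z.im + l}) ?_ ?_
  · rintro y ⟨⟨h1, h2, h3, h4⟩, h5⟩
    by_contra hcon
    simp only [mem_union, mem_setOf_eq, not_or] at hcon
    obtain ⟨⟨⟨c1, c2⟩, c3⟩, c4⟩ := hcon
    exact h5 ⟨lt_of_le_of_ne h1 (Ne.symm c1), lt_of_le_of_ne h2 c2, lt_of_le_of_ne h3 (Ne.symm c3),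
      lt_of_le_of_ne h4 c4⟩
  · rw [measure_union_null_iff, measure_union_null_iff, measure_union_null_iff]
    exact ⟨⟨⟨null_re _, null_re _⟩, null_im _⟩, null_im _⟩

private theorem sq_meas (z : ℂ) (l : ℝ) : MeasurableSet (sq z l) := by
  have : sq z l = (Complex.re ⁻¹' (Icc z.re (z.re + l))) ∩ (Complex.im ⁻¹' (Icc z.im (z.im + l))) := by
    ext y
    simp only [K.sq, mem_setOf_eq, mem_inter_iff, mem_preimage, mem_Icc]
    tauto
  rw [this]
  exact (Complex.measurable_re measurableSet_Icc).inter (Complex.measurable_im measurableSet_Icc)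

private theorem osq_meas (z : ℂ) (l : ℝ) : MeasurableSet (osq z l) := by
  have : osq z l = (Complex.re ⁻¹' (Ioo z.re (z.re + l))) ∩ (Complex.im ⁻¹' (Ioo z.im (z.im + l))) := by
    ext y
    simp only [osq, mem_setOf_eq, mem_inter_iff, mem_preimage, mem_Ioo]
    tauto
  rw [this]
  exact (Complex.measurable_re measurableSet_Ioo).inter (Complex.measurable_im measurableSet_Ioo)

private theorem aff_emb (z : ℂ) {l : ℝ} (hl : 0 < l) : MeasurableEmbedding (aff z l) := by
  have h1 : aff z l = (Homeomorph.addLeft z) ∘ (Homeomorph.smulOfNeZero l hl.ne' : ℂ ≃ₜ ℂ) := by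
    funext y
    simp [aff]
  rw [h1]
  exact (Homeomorph.measurableEmbedding _).comp (Homeomorph.measurableEmbedding _)

private theorem map_vol (z : ℂ) {l : ℝ} (hl : 0 < l) :
    (volume : Measure ℂ).map (aff z l) = ENNReal.ofReal ((l ^ 2)⁻¹) • volume := by
  have h1 : aff z l = (fun y : ℂ => z + y) ∘ (fun y : ℂ => l • y) := by
    funext y
    simp [aff]
  rw [h1, ← Measure.map_map (measurable_const_add z) (measurable_const_smul l),
    Measure.map_addHaar_smul _ hl.ne', Complex.finrank_real_complex, Measure.map_smul,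
    map_add_left_eq_self, abs_of_pos (by positivity)]

/-- Scaling of the Lebesgue measure of the plane (`Measure.addHaar_preimage_smul` / `map_addHaar_smul`, translation). -/
theorem map_aff {z : ℂ} {l : ℝ} (hl : 0 < l) :
    mQ.map (aff z l) = ENNReal.ofReal ((l ^ 2)⁻¹) • volume.restrict (sq z l) := by
  have h1 : Qs = aff z l ⁻¹' (sq z l) := by
    ext y
    exact (aff_mem_sq hl y).symm
  rw [mQ, h1, ← (aff_emb z hl).restrict_map, map_vol z hl, Measure.restrict_smul]

theorem lintegral_sq {z : ℂ} {l : ℝ} (hl : 0 < l) {f : ℂ → ℝ≥0∞} (hf : Measurable f) :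
    ∫⁻ y in sq z l, f y = ENNReal.ofReal (l ^ 2) * ∫⁻ y, f (aff z l y) ∂mQ := by
  have h1 : ∫⁻ y, f (aff z l y) ∂mQ = ∫⁻ y, f y ∂(mQ.map (aff z l)) :=
    ((aff_emb z hl).lintegral_map f).symm
  rw [h1, map_aff hl, lintegral_smul_measure, smul_eq_mul, ← mul_assoc, ← ENNReal.ofReal_mul (by positivity),
    mul_inv_cancel₀ (by positivity), ENNReal.ofReal_one, one_mul]

/-- `aff z l` is a homeomorphism, so no measurability is needed. -/
theorem integral_sq {z : ℂ} {l : ℝ} (hl : 0 < l) (f : ℂ → ℝ) :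
    ∫ y in sq z l, f y = l ^ 2 * ∫ y, f (aff z l y) ∂mQ := by
  have h1 : ∫ y, f (aff z l y) ∂mQ = ∫ y, f y ∂(mQ.map (aff z l)) :=
    ((aff_emb z hl).integral_map f).symm
  have h2 : (0 : ℝ) ≤ (l ^ 2)⁻¹ := by positivity
  rw [h1, map_aff hl, integral_smul_measure, ENNReal.toReal_ofReal h2, smul_eq_mul, ← mul_assoc,
    mul_inv_cancel₀ (by positivity), one_mul]

/-- The corners of the `M^2` squares of side `1/M` in the unit square. -/
noncomputable def gridc (M k : ℕ) : ℂ := ⟨(k % M : ℕ) / (M : ℝ), (k / M : ℕ) / (M : ℝ)⟩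

theorem gridc_sub {M k : ℕ} (hM : 1 ≤ M) (hk : k < M ^ 2) : sq (gridc M k) (1 / (M : ℝ)) ⊆ Qs := by
  have hM0 : (0 : ℝ) < M := by exact_mod_cast hM
  have h1 : k % M < M := Nat.mod_lt _ hM
  have h2 : k / M < M := by
    rw [Nat.div_lt_iff_lt_mul hM]
    nlinarith
  have h3 : (((k % M : ℕ) : ℝ) + 1) / M ≤ 1 := by
    rw [div_le_one hM0]
    exact_mod_cast h1
  have h4 : (((k / M : ℕ) : ℝ) + 1) / M ≤ 1 := by
    rw [div_le_one hM0]
    exact_mod_cast h2
  rw [add_div] at h3 h4
  have h5 : (0 : ℝ) ≤ ((k % M : ℕ) : ℝ) / M := by positivity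
  have h6 : (0 : ℝ) ≤ ((k / M : ℕ) : ℝ) / M := by positivity
  rintro y ⟨e1, e2, e3, e4⟩
  simp only [gridc] at e1 e2 e3 e4
  refine ⟨?_, ?_, ?_, ?_⟩ <;> linarith

private theorem grid_one {M p p' : ℕ} (hM : 1 ≤ M) (h : p < p') {x : ℝ} (h1 : x < (p : ℝ) / M + 1 / (M : ℝ))
    (h2 : (p' : ℝ) / M < x) : False := by
  have hM0 : (0 : ℝ) < M := by exact_mod_cast hM
  have h3 : ((p : ℝ) + 1) / M ≤ (p' : ℝ) / M := by
    have : (p : ℝ) + 1 ≤ p' := by exact_mod_cast h
    gcongr
  rw [add_div] at h3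
  linarith

theorem gridc_disjoint {M k k' : ℕ} (hM : 1 ≤ M) (hk : k < M ^ 2) (hk' : k' < M ^ 2) (h : k ≠ k') :
    Disjoint (osq (gridc M k) (1 / (M : ℝ))) (osq (gridc M k') (1 / (M : ℝ))) := by
  rw [Set.disjoint_left]
  rintro y ⟨a1, a2, a3, a4⟩ ⟨b1, b2, b3, b4⟩
  simp only [gridc] at a1 a2 a3 a4 b1 b2 b3 b4
  have h1 : k % M = k' % M := by
    rcases lt_trichotomy (k % M) (k' % M) with h2 | h2 | h2
    · exact (grid_one hM h2 a2 b1).elim
    · exact h2
    · exact (grid_one hM h2 b2 a1).elim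
  have h2 : k / M = k' / M := by
    rcases lt_trichotomy (k / M) (k' / M) with h2 | h2 | h2
    · exact (grid_one hM h2 a4 b3).elim
    · exact h2
    · exact (grid_one hM h2 b4 a3).elim
  exact h (by rw [← Nat.div_add_mod k M, ← Nat.div_add_mod k' M, h1, h2])

/-- Sum over different squares of the grid (`restrict_osq`, disjointness). -/
theorem sum_grid_le {M n : ℕ} (hM : 1 ≤ M) (hn : n ≤ M ^ 2) {f : ℂ → ℝ} (hf : Integrable f mQ) (h0 : ∀ y, 0 ≤ f y) :
    ∑ k : Fin n, ∫ y in sq (gridc M k) (1 / (M : ℝ)), f y ≤ ∫ y, f y ∂mQ := by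
  have hsub : ∀ k : Fin n, osq (gridc M k) (1 / (M : ℝ)) ⊆ Qs := fun k =>
    (osq_sub _ _).trans (gridc_sub hM (k.2.trans_le hn))
  have h1 : ∑ k : Fin n, ∫ y in sq (gridc M k) (1 / (M : ℝ)), f y =
      ∑ k : Fin n, ∫ y in osq (gridc M k) (1 / (M : ℝ)), f y :=
    Finset.sum_congr rfl fun k _ => by rw [restrict_osq]
  have hfQ : IntegrableOn f Qs := hf
  rw [h1, ← integral_iUnion_fintype (fun k => osq_meas _ _) (fun k k' hkk' => gridc_disjoint hM
    (k.2.trans_le hn) (k'.2.trans_le hn) fun h2 => hkk' (Fin.ext h2)) (fun k => hfQ.mono_set (hsub k))]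
  refine setIntegral_mono_set hfQ (Eventually.of_forall fun y => h0 y) ?_
  exact (iUnion_subset hsub).eventuallyLE

end Pool.Agent.Helper82.CLK
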